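import Pool.Agent.Helper72.NI.Acl

/-!
# Embeddings of relative algebraic closures
-/

set_option autoImplicit false

namespace Pool.Agent.Helper72.NI

open Polynomial

variable {E : Type} [Field E] [CharZero E]

theorem isAlgebraic_acl (F : Subfield E) (z : acl (F : Set E)) :
    letI := (Subfield.inclusion (le_acl F)).toAlgebra
    IsAlgebraic F z := by
  let _ := (Subfield.inclusion (le_acl F)).toAlgebra
  have h1 : IsAlgebraic F (z : E) := mem_acl.1 z.2
  obtain ⟨p, hp0, hp⟩ := h1
  refine ⟨p, hp0, ?_⟩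
  have h2 : (acl (F : Set E)).subtype (aeval z p) = aeval (z : E) p := by
    rw [aeval_def, hom_eval₂, aeval_def]
    rfl
  rw [hp] at h2
  exact (map_eq_zero (acl (F : Set E)).subtype).1 h2

/-- A homomorphism of a subfield to an algebraically closed field extends to the relative
algebraic closure. -/
theorem exists_ext {L : Type} [Field L] [IsAlgClosed L] (F : Subfield E) (ψ : F →+* L) :
    ∃ ι : acl (F : Set E) →+* L, ∀ a : F, ι ⟨a, le_acl F a.2⟩ = ψ a := by
  let _ := (Subfield.inclusion (le_acl F)).toAlgebra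
  let _ := ψ.toAlgebra
  have halg : Algebra.IsAlgebraic F (acl (F : Set E)) := ⟨fun z => isAlgebraic_acl F z⟩
  let ι : acl (F : Set E) →ₐ[F] L := IsAlgClosed.lift
  exact ⟨ι.toRingHom, fun a => ι.commutes a⟩

/-- Conjugates. -/
theorem exists_conj [IsAlgClosed E] (F : Subfield E) {z r : E} (hz : z ∈ acl (F : Set E))
    (hr : aeval r (minpoly F z) = 0) :
    ∃ ι : acl (F : Set E) →+* E, (∀ a (ha : a ∈ F), ι ⟨a, le_acl F ha⟩ = a) ∧ ι ⟨z, hz⟩ = r := by
  let _ := (Subfield.inclusion (le_acl F)).toAlgebra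
  have halg : Algebra.IsAlgebraic F (acl (F : Set E)) := ⟨fun z => isAlgebraic_acl F z⟩
  let z' : acl (F : Set E) := ⟨z, hz⟩
  have htow : IsScalarTower F (acl (F : Set E)) E := IsScalarTower.of_algebraMap_eq fun _ => rfl
  have hmin : minpoly F z' = minpoly F z :=
    (minpoly.algebraMap_eq (A := F) (B := acl (F : Set E)) (B' := E)
      (acl (F : Set E)).subtype.injective z').symm
  obtain ⟨ι, hι⟩ := IntermediateField.exists_algHom_of_splits_of_aeval (F := F)
    (E := acl (F : Set E)) (K := E)
    (fun s => ⟨(isAlgebraic_acl F s).isIntegral, IsAlgClosed.splits _⟩) (x := z') (y := r)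
    (by rw [hmin]; exact hr)
  exact ⟨ι.toRingHom, fun a ha => ι.commutes ⟨a, ha⟩, hι⟩

/-- An element which is fixed by all embeddings lies in the field. -/
theorem mem_of_fixed [IsAlgClosed E] (F : Subfield E) {z : E} (hz : z ∈ acl (F : Set E))
    (h : ∀ ι : acl (F : Set E) →+* E, (∀ a (ha : a ∈ F), ι ⟨a, le_acl F ha⟩ = a) →
      ι ⟨z, hz⟩ = z) : z ∈ F := by
  have halg : IsAlgebraic F z := mem_acl.1 hz
  have hint := halg.isIntegral
  have hirr := minpoly.irreducible hint
  have hsep : (minpoly F z).Separable := hirr.separable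
  have hroots : ∀ r ∈ (minpoly F z).aroots E, r = z := by
    intro r hr
    have hr' : aeval r (minpoly F z) = 0 := (mem_aroots.1 hr).2
    obtain ⟨ι, hι, hιz⟩ := exists_conj F hz hr'
    rw [← hιz]
    exact h ι hι
  have hnodup : ((minpoly F z).aroots E).Nodup := nodup_aroots_iff_of_splits hirr.ne_zero
    (IsAlgClosed.splits _) |>.2 hsep
  have hcard : Multiset.card ((minpoly F z).aroots E) = (minpoly F z).natDegree := by
    have := (IsAlgClosed.splits ((minpoly F z).map (algebraMap F E))).natDegree_eq_card_roots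
    rw [natDegree_map] at this
    exact this.symm
  have hle : Multiset.card ((minpoly F z).aroots E) ≤ 1 := by
    have h1 : (minpoly F z).aroots E ≤ {z} := by
      rw [Multiset.le_iff_subset hnodup]
      intro r hr
      rw [Multiset.mem_singleton]
      exact hroots r hr
    exact (Multiset.card_le_card h1).trans (by rw [Multiset.card_singleton])
  rw [hcard] at hle
  have hdeg : (minpoly F z).degree = 1 := by
    rw [degree_eq_natDegree hirr.ne_zero]
    have := hirr.natDegree_pos
    have h3 : (minpoly F z).natDegree = 1 := by omega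
    rw [h3]
    rfl
  obtain ⟨c, hc⟩ := minpoly.mem_range_of_degree_eq_one F z hdeg
  rw [← hc]
  exact c.2

theorem acl_adjoin (M : Subfield E) (S : Set E) :
    acl ((IntermediateField.adjoin M S).toSubfield : Set E) = acl ((M : Set E) ∪ S) := by
  apply le_antisymm
  · apply acl_le
    intro x hx
    have h1 : Subfield.closure ((M : Set E) ∪ S) ≤ acl ((M : Set E) ∪ S) :=
      Subfield.closure_le.2 (subset_acl _)
    apply h1
    have h2 : x ∈ IntermediateField.adjoin M S := hx
    have h3 : (IntermediateField.adjoin M S).toSubfield =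
        Subfield.closure (Set.range (algebraMap M E) ∪ S) := rfl
    have h4 : x ∈ (IntermediateField.adjoin M S).toSubfield := h2
    rw [h3] at h4
    have h5 : Set.range (algebraMap M E) = (M : Set E) := by
      ext y
      constructor
      · rintro ⟨y, rfl⟩
        exact y.2
      · intro hy
        exact ⟨⟨y, hy⟩, rfl⟩
    rwa [h5] at h4
  · apply acl_mono
    rintro x (hx | hx)
    · exact (IntermediateField.adjoin M S).algebraMap_mem ⟨x, hx⟩
    · exact IntermediateField.subset_adjoin M S hx

/-- Change of an algebraically independent family. -/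
theorem exists_emb [IsAlgClosed E] (M : Subfield E) {J : Type} {y z : J → E}
    (hy : AlgebraicIndependent M y) (hz : AlgebraicIndependent M z) :
    ∃ ι : acl ((M : Set E) ∪ Set.range y) →+* E,
      (∀ a (ha : a ∈ M), ι ⟨a, subset_acl _ (Or.inl ha)⟩ = a) ∧
      ∀ j, ι ⟨y j, subset_acl _ (Or.inr ⟨j, rfl⟩)⟩ = z j := by
  let e₁ := hy.aevalEquivField
  let e₂ := hz.aevalEquivField
  let ψ : IntermediateField.adjoin M (Set.range y) →+* E :=
    ((IntermediateField.adjoin M (Set.range z)).val.comp
      (e₂.toAlgHom.comp e₁.symm.toAlgHom)).toRingHom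
  let F := (IntermediateField.adjoin M (Set.range y)).toSubfield
  let ψ' : F →+* E := ψ
  obtain ⟨ι, hι⟩ := exists_ext F ψ'
  have hF : acl (F : Set E) = acl ((M : Set E) ∪ Set.range y) := acl_adjoin M _
  let ι' : acl ((M : Set E) ∪ Set.range y) →+* E := ι.comp (Subfield.inclusion hF.ge)
  refine ⟨ι', fun a ha => ?_, fun j => ?_⟩
  · have h1 : a ∈ F := (IntermediateField.adjoin M (Set.range y)).algebraMap_mem ⟨a, ha⟩
    have h2 : ι' ⟨a, subset_acl _ (Or.inl ha)⟩ = ψ' ⟨a, h1⟩ := hι ⟨a, h1⟩
    rw [h2]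
    have h3 : ψ' ⟨a, h1⟩ = ((IntermediateField.adjoin M (Set.range z)).val.comp
      (e₂.toAlgHom.comp e₁.symm.toAlgHom)) (algebraMap M _ ⟨a, ha⟩) := rfl
    rw [h3, AlgHom.commutes]
    rfl
  · have h1 : y j ∈ F := IntermediateField.subset_adjoin M _ ⟨j, rfl⟩
    have h2 : ι' ⟨y j, subset_acl _ (Or.inr ⟨j, rfl⟩)⟩ = ψ' ⟨y j, h1⟩ := hι ⟨y j, h1⟩
    rw [h2]
    set w : FractionRing (MvPolynomial J M) :=
      algebraMap (MvPolynomial J M) (FractionRing (MvPolynomial J M)) (MvPolynomial.X j) with hw
    have h3 : e₁ w = ⟨y j, h1⟩ := by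
      apply Subtype.ext
      have h4 := hy.aevalEquivField_algebraMap_apply_coe (MvPolynomial.X j)
      rw [MvPolynomial.aeval_X] at h4
      exact h4
    have h5 : e₁.symm ⟨y j, h1⟩ = w := by
      rw [← h3, AlgEquiv.symm_apply_apply]
    have h6 : ψ' ⟨y j, h1⟩ = ((e₂ (e₁.symm ⟨y j, h1⟩) : IntermediateField.adjoin M (Set.range z)) :
        E) := rfl
    rw [h6, h5, hw]
    have h7 := hz.aevalEquivField_algebraMap_apply_coe (MvPolynomial.X j)
    rw [MvPolynomial.aeval_X] at h7
    exact h7

end Pool.Agent.Helper72.NI
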