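import Pool.Agent.Helper72.NI.Cong

/-!
# Reductions of points of low height
-/

set_option autoImplicit false

namespace Pool.Agent.Helper72.NI

open MvPolynomial

/-- Growth of heights for maps over the constants. -/
def GrowthStatement : Prop :=
  ∀ (E : Type) [Field E] [CharZero E] (κ : Subfield E) [IsAlgClosed κ] (θ : E), θ ∉ κ →
    ∀ (N d : ℕ) (φ : Fin (N + 1) → MvPolynomial (Fin (N + 1)) E), Endo κ d φ →
    ∀ ζ : Fin (N + 1) → E, ζ ≠ 0 → Low κ θ φ ζ → ∃ c : E, c ≠ 0 ∧ ∀ i, c * ζ i ∈ κ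

variable {E : Type} [Field E] [CharZero E] {Γ : Type} [LinearOrderedCommGroupWithZero Γ]
  {v : Valuation E Γ} {k K Ω : Subfield E} {t : E} {N d : ℕ}
  {f φ : Fin (N + 1) → MvPolynomial (Fin (N + 1)) E}

theorem reduce_const' (growth : GrowthStatement) (c : Ctx v k K Ω t d f φ) {κ' κ₂ : Subfield E}
    [IsAlgClosed κ'] [IsAlgClosed κ₂] (_hk' : k ≤ κ') (hk₂ : k ≤ κ₂) (hκ₂ : κ₂ ≤ Ω) (ht : t ∉ κ')
    (hres : ∀ z ∈ κ', v z ≤ 1 → ∃ c ∈ κ₂, v (z - c) < 1) {x ζ : Fin (N + 1) → E}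
    (hx : ∀ i, v (x i) ≤ 1) (hζ : ∀ i, ζ i ∈ Ω) (hxζ : ∀ i, v (x i - ζ i) < 1) (hζ0 : ζ ≠ 0)
    (hlow : Low κ' t f x) : ∃ c : E, c ≠ 0 ∧ ∀ i, c * ζ i ∈ κ₂ := by
  have hcg : ∀ i, Cg v (x i) (ζ i) := fun i => ⟨hx i, c.valΩ _ (hζ i), hxζ i⟩
  obtain ⟨j₀, hj₀⟩ := Function.ne_iff.1 hζ0
  have hj₀' : ζ j₀ ≠ 0 := hj₀
  by_contra hcon
  obtain ⟨i₁, hi₁⟩ : ∃ i₁, ζ i₁ / ζ j₀ ∉ κ₂ := by
    by_contra h
    push Not at h
    exact hcon ⟨(ζ j₀)⁻¹, inv_ne_zero hj₀', fun i => by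
      rw [mul_comm, ← div_eq_mul_inv]
      exact h i⟩
  have hv0 : v (ζ j₀) = 1 := c.valΩ_eq (hζ j₀) hj₀'
  have hθcg : Cg v (x i₁ / x j₀) (ζ i₁ / ζ j₀) := (hcg i₁).div (hcg j₀) hv0
  set θ := x i₁ / x j₀ with hθ
  set θ' := ζ i₁ / ζ j₀ with hθ'
  have hθ'Ω : θ' ∈ Ω := div_mem (hζ i₁) (hζ j₀)
  have hθκ : θ ∉ κ' := by
    intro h
    obtain ⟨b, hb, h1⟩ := hres θ h hθcg.left
    have h2 : Cg v θ b := ⟨hθcg.left, c.valΩ _ (hκ₂ hb), h1⟩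
    have h3 := (hθcg.symm.trans h2).eq c.valΩ hθ'Ω (hκ₂ hb)
    rw [h3] at hi₁
    exact hi₁ hb
  have hxj₀ : x j₀ ≠ 0 := by
    intro h
    have h1 := (hcg j₀).val hv0
    rw [h, map_zero] at h1
    exact zero_ne_one h1
  obtain ⟨D₀, hD₀⟩ := hlow
  have hθrel : Rel κ' t D₀ θ := hD₀ 0 i₁ j₀ hxj₀
  have hch : ∀ i j, Bdd κ' θ fun n => itr f x n i / itr f x n j := fun i j =>
    (Low.bdd ⟨D₀, hD₀⟩ i j).change ht hθκ hθrel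
  have hlow' : Low κ₂ θ' φ ζ := by
    choose D hD using hch
    refine ⟨2 * ∑ i, ∑ j, D i j, fun n i j hj => ?_⟩
    have hΩn : ∀ i, itr φ ζ n i ∈ Ω := itr_mem (fun i m => c.kΩ (c.endφ.coeff i m)) hζ n
    have hle : D i j ≤ ∑ i, ∑ j, D i j := by
      calc D i j ≤ ∑ j, D i j := Finset.single_le_sum (f := fun j => D i j)
            (fun _ _ => Nat.zero_le _) (Finset.mem_univ j)
        _ ≤ ∑ i, ∑ j, D i j := Finset.single_le_sum (f := fun i => ∑ j, D i j)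
            (fun _ _ => Nat.zero_le _) (Finset.mem_univ i)
    have h1 : RelB κ' θ (∑ i, ∑ j, D i j) (itr f x n i / itr f x n j) :=
      ((hD i j n).mono hle).relB
    exact (relB_reduce hκ₂ c.valΩ hres hθcg hθ'Ω
      ((c.cg_itr hcg n i).div (c.cg_itr hcg n j) (c.valΩ_eq (hΩn j) hj))
      (div_mem (hΩn i) (hΩn j)) h1).rel
  exact hcon (growth E κ₂ θ' hi₁ N d φ (c.endφ.mono hk₂) ζ hζ0 hlow')

end Pool.Agent.Helper72.NI
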