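import Pool.Agent.Helper72.NI.Rel

/-!
# Ultrapowers and bounded relations
-/

set_option autoImplicit false

namespace Pool.Agent.Helper72.NI

open Filter

variable {E : Type} [Field E]

/-- The ultrapower of a field. -/
abbrev Up (U : Ultrafilter ℕ) (E : Type) [Field E] : Type := (U : Filter ℕ).Germ E

variable (U : Ultrafilter ℕ)

/-- The class of a sequence. -/
def gm (f : ℕ → E) : Up U E := (f : (U : Filter ℕ).Germ E)

/-- The class of a constant sequence, as a homomorphism. -/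
def cst : E →+* Up U E where
  toFun c := gm U fun _ => c
  map_one' := rfl
  map_mul' _ _ := rfl
  map_zero' := rfl
  map_add' _ _ := rfl

variable {U}

theorem gm_surj (z : Up U E) : ∃ f : ℕ → E, gm U f = z :=
  Germ.inductionOn z fun f => ⟨f, rfl⟩

theorem gm_eq {f g : ℕ → E} : gm U f = gm U g ↔ ∀ᶠ n in (U : Filter ℕ), f n = g n := Germ.coe_eq

theorem gm_add (f g : ℕ → E) : gm U (fun n => f n + g n) = gm U f + gm U g := rfl

theorem gm_mul (f g : ℕ → E) : gm U (fun n => f n * g n) = gm U f * gm U g := rfl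

theorem gm_sub (f g : ℕ → E) : gm U (fun n => f n - g n) = gm U f - gm U g := rfl

theorem gm_neg (f : ℕ → E) : gm U (fun n => - f n) = - gm U f := rfl

theorem gm_zero : gm U (fun _ => (0 : E)) = 0 := rfl

theorem gm_one : gm U (fun _ => (1 : E)) = 1 := rfl

theorem gm_inv (f : ℕ → E) : gm U (fun n => (f n)⁻¹) = (gm U f)⁻¹ := rfl

theorem gm_div (f g : ℕ → E) : gm U (fun n => f n / g n) = gm U f / gm U g := rfl

/-- The class of a sequence, as a homomorphism. -/
def gmHom (U : Ultrafilter ℕ) (E : Type) [Field E] : (ℕ → E) →+* Up U E where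
  toFun := gm U
  map_one' := rfl
  map_mul' _ _ := rfl
  map_zero' := rfl
  map_add' _ _ := rfl

theorem gm_pow (f : ℕ → E) (m : ℕ) : gm U (fun n => f n ^ m) = gm U f ^ m :=
  map_pow (gmHom U E) f m

theorem gm_sum {ι : Type} (s : Finset ι) (f : ι → ℕ → E) :
    gm U (fun n => ∑ i ∈ s, f i n) = ∑ i ∈ s, gm U (f i) := by
  have h := map_sum (gmHom U E) f s
  have h2 : (∑ i ∈ s, f i) = fun n => ∑ i ∈ s, f i n := by
    funext n
    rw [Finset.sum_apply]
  rw [h2] at h
  exact h

theorem gm_eq_zero {f : ℕ → E} : gm U f = 0 ↔ ∀ᶠ n in (U : Filter ℕ), f n = 0 := gm_eq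

theorem cst_inj : Function.Injective (cst (E := E) U) := RingHom.injective (cst (E := E) U)

instance charZero [CharZero E] : CharZero (Up U E) :=
  charZero_of_injective_ringHom (cst_inj (U := U) (E := E))

/-- The ultrapower of a subfield. -/
def star (U : Ultrafilter ℕ) (κ : Subfield E) : Subfield (Up U E) where
  carrier := {z | ∃ f : ℕ → E, (∀ n, f n ∈ κ) ∧ gm U f = z}
  mul_mem' := by
    rintro _ _ ⟨f, hf, rfl⟩ ⟨g, hg, rfl⟩
    exact ⟨fun n => f n * g n, fun n => mul_mem (hf n) (hg n), rfl⟩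
  one_mem' := ⟨fun _ => 1, fun _ => one_mem _, rfl⟩
  add_mem' := by
    rintro _ _ ⟨f, hf, rfl⟩ ⟨g, hg, rfl⟩
    exact ⟨fun n => f n + g n, fun n => add_mem (hf n) (hg n), rfl⟩
  zero_mem' := ⟨fun _ => 0, fun _ => zero_mem _, rfl⟩
  neg_mem' := by
    rintro _ ⟨f, hf, rfl⟩
    exact ⟨fun n => - f n, fun n => neg_mem (hf n), rfl⟩
  inv_mem' := by
    rintro _ ⟨f, hf, rfl⟩
    exact ⟨fun n => (f n)⁻¹, fun n => inv_mem (hf n), rfl⟩

theorem mem_star {κ : Subfield E} {z : Up U E} :
    z ∈ star U κ ↔ ∃ f : ℕ → E, (∀ n, f n ∈ κ) ∧ gm U f = z := Iff.rfl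

open Classical in
theorem gm_mem_star {κ : Subfield E} {f : ℕ → E} :
    gm U f ∈ star U κ ↔ ∀ᶠ n in (U : Filter ℕ), f n ∈ κ := by
  constructor
  · rintro ⟨g, hg, h⟩
    filter_upwards [gm_eq.1 h] with n hn
    rw [← hn]
    exact hg n
  · intro h
    refine ⟨fun n => if f n ∈ κ then f n else 0, fun n => ?_, ?_⟩
    · dsimp only
      split_ifs with h1
      · exact h1
      · exact zero_mem _
    · rw [gm_eq]
      filter_upwards [h] with n hn
      rw [if_pos hn]

theorem cst_mem_star {κ : Subfield E} {c : E} : cst U c ∈ star U κ ↔ c ∈ κ := by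
  change gm U _ ∈ star U κ ↔ _
  rw [gm_mem_star, eventually_const]

theorem star_mono {κ κ' : Subfield E} (h : κ ≤ κ') : star U κ ≤ star U κ' := by
  rintro z ⟨f, hf, rfl⟩
  exact ⟨f, fun n => h (hf n), rfl⟩

theorem map_cst_le_star (κ : Subfield E) : κ.map (cst U) ≤ star U κ := by
  rintro _ ⟨c, hc, rfl⟩
  exact cst_mem_star.2 hc

/-- A field in which monic polynomials of positive degree, with coefficients written in any way,
have zeros. -/
theorem exists_root_of_alg {F : Type} [Field F] [IsAlgClosed F] (m : ℕ) (c : Fin (m + 1) → F) :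
    ∃ z : F, z ^ (m + 1) + ∑ i, c i * z ^ (i : ℕ) = 0 := by
  set p : Polynomial F := Polynomial.X ^ (m + 1) + ∑ i, Polynomial.C (c i) * Polynomial.X ^ (i : ℕ)
    with hp
  have hdeg : (∑ i, Polynomial.C (c i) * Polynomial.X ^ (i : ℕ) : Polynomial F).degree <
      (m + 1 : ℕ) := Polynomial.degree_sum_fin_lt c
  have h1 : p.degree = (m + 1 : ℕ) := by
    rw [hp, Polynomial.degree_add_eq_left_of_degree_lt]
    · exact Polynomial.degree_X_pow _
    · rw [Polynomial.degree_X_pow]
      exact hdeg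
  obtain ⟨z, hz⟩ := IsAlgClosed.exists_root p (by
    rw [h1]
    exact_mod_cast Nat.succ_ne_zero m)
  refine ⟨z, ?_⟩
  have h2 : p.eval z = 0 := hz
  rw [hp, Polynomial.eval_add, Polynomial.eval_pow, Polynomial.eval_X,
    Polynomial.eval_finsetSum] at h2
  rw [← h2]
  congr 1
  refine Finset.sum_congr rfl fun i _ => ?_
  rw [Polynomial.eval_mul, Polynomial.eval_C, Polynomial.eval_pow, Polynomial.eval_X]

theorem isAlgClosed_of_roots {F : Type} [Field F]
    (h : ∀ (m : ℕ) (c : Fin (m + 1) → F), ∃ z : F, z ^ (m + 1) + ∑ i, c i * z ^ (i : ℕ) = 0) :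
    IsAlgClosed F := by
  refine IsAlgClosed.of_exists_root _ fun p hpm hirr => ?_
  obtain ⟨m, hm⟩ : ∃ m, p.natDegree = m + 1 :=
    ⟨p.natDegree - 1, by have := hirr.natDegree_pos; omega⟩
  obtain ⟨z, hz⟩ := h m fun i => p.coeff i
  refine ⟨z, ?_⟩
  rw [Polynomial.eval_eq_sum_range, Finset.sum_range_succ, hm]
  have h1 : p.coeff (m + 1) = 1 := by
    rw [← hm]
    exact hpm
  rw [h1, one_mul, add_comm, ← hz]
  congr 1
  exact (Fin.sum_univ_eq_sum_range (fun i => p.coeff i * z ^ i) (m + 1)).symm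

/-- The ultrapower of an algebraically closed subfield is algebraically closed. -/
theorem isAlgClosed_star (κ : Subfield E) [IsAlgClosed κ] : IsAlgClosed (star U κ) := by
  refine isAlgClosed_of_roots fun m c => ?_
  have hc : ∀ i, ∃ f : ℕ → κ, gm U (fun n => (f n : E)) = (c i : Up U E) := by
    intro i
    obtain ⟨f, hf, h⟩ := (c i).2
    exact ⟨fun n => ⟨f n, hf n⟩, h⟩
  choose f hf using hc
  have hz : ∀ n, ∃ z : κ, z ^ (m + 1) + ∑ i, f i n * z ^ (i : ℕ) = 0 := fun n =>
    exists_root_of_alg m fun i => f i n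
  choose z hz using hz
  refine ⟨⟨gm U fun n => (z n : E), fun n => (z n : E), fun n => (z n).2, rfl⟩, ?_⟩
  apply Subtype.ext
  push_cast
  have h1 : (fun n => (z n : E) ^ (m + 1) + ∑ i, (f i n : E) * (z n : E) ^ (i : ℕ)) =
      fun _ => 0 := by
    funext n
    have := congrArg (fun w : κ => (w : E)) (hz n)
    push_cast at this
    exact this
  have h2 := congrArg (gm U) h1
  rw [gm_add, gm_pow, gm_sum] at h2
  rw [gm_zero] at h2
  rw [← h2]
  congr 1
  refine Finset.sum_congr rfl fun i _ => ?_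
  rw [gm_mul, gm_pow, hf]

instance isAlgClosed_up [IsAlgClosed E] : IsAlgClosed (Up U E) := by
  refine isAlgClosed_of_roots fun m c => ?_
  choose f hf using fun i => gm_surj (c i)
  have hz : ∀ n, ∃ z : E, z ^ (m + 1) + ∑ i, f i n * z ^ (i : ℕ) = 0 := fun n =>
    exists_root_of_alg m fun i => f i n
  choose z hz using hz
  refine ⟨gm U z, ?_⟩
  have h2 := congrArg (gm U) (funext hz)
  rw [gm_add, gm_pow, gm_sum] at h2
  change _ = gm U (fun _ => 0) at h2
  rw [gm_zero] at h2
  rw [← h2]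
  congr 1
  refine Finset.sum_congr rfl fun i _ => ?_
  rw [gm_mul, gm_pow, hf]

end Pool.Agent.Helper72.NI
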