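import Mathlib

/-!
# Relative algebraic closures
-/

set_option autoImplicit false

namespace Pool.Agent.Helper72.NI

variable {E : Type} [Field E] [CharZero E]

/-- Algebraicity over a smaller ring. -/
theorem isAlgebraic_of_map {R S L : Type} [CommRing R] [CommRing S] [Field L] [Algebra R L]
    [Algebra S L] (f : R →+* S) (hf : Function.Injective f)
    (hfc : ∀ r, algebraMap S L (f r) = algebraMap R L r) {x : L} (h : IsAlgebraic R x) :
    IsAlgebraic S x := by
  obtain ⟨p, hp0, hp⟩ := h
  refine ⟨p.map f, (Polynomial.map_ne_zero_iff hf).2 hp0, ?_⟩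
  rw [Polynomial.aeval_def, Polynomial.eval₂_map]
  have h1 : (algebraMap S L).comp f = algebraMap R L := RingHom.ext hfc
  rw [h1, ← Polynomial.aeval_def, hp]

/-- The matroid of algebraic independence in a field. -/
noncomputable def mat (E : Type) [Field E] [CharZero E] : Matroid E :=
  AlgebraicIndependent.matroid ℤ E

theorem mem_mat_closure {S : Set E} {z : E} :
    z ∈ (mat E).closure S ↔ IsAlgebraic (Algebra.adjoin ℤ S) z := by
  unfold mat
  rw [AlgebraicIndependent.matroid_closure_eq]
  exact Subalgebra.mem_algebraicClosure _ _

/-- The relative algebraic closure of the subfield generated by a set. -/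
noncomputable def acl (S : Set E) : Subfield E where
  carrier := (mat E).closure S
  mul_mem' {a b} ha hb := by
    rw [mem_mat_closure] at *
    exact ha.mul hb
  one_mem' := by
    rw [mem_mat_closure]
    exact isAlgebraic_one
  add_mem' {a b} ha hb := by
    rw [mem_mat_closure] at *
    exact ha.add hb
  zero_mem' := by
    rw [mem_mat_closure]
    exact isAlgebraic_zero
  neg_mem' {a} ha := by
    rw [mem_mat_closure] at *
    exact ha.neg
  inv_mem' a ha := by
    rw [mem_mat_closure] at *
    exact ha.inv

theorem coe_acl (S : Set E) : (acl S : Set E) = (mat E).closure S := rfl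

theorem mem_acl' {S : Set E} {z : E} : z ∈ acl S ↔ IsAlgebraic (Algebra.adjoin ℤ S) z :=
  mem_mat_closure

theorem mat_ground (E : Type) [Field E] [CharZero E] : (mat E).E = Set.univ := rfl

theorem subset_acl (S : Set E) : S ⊆ acl S :=
  (mat E).subset_closure S (Set.subset_univ _)

theorem acl_mono {S T : Set E} (h : S ⊆ T) : acl S ≤ acl T :=
  (mat E).closure_subset_closure h

theorem acl_acl (S : Set E) : acl (acl S : Set E) = acl S :=
  SetLike.coe_injective ((mat E).closure_closure S)

theorem acl_le {S T : Set E} (h : S ⊆ acl T) : acl S ≤ acl T := by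
  rw [← acl_acl T]
  exact acl_mono h

/-- For a subfield, membership is algebraicity. -/
theorem mem_acl {F : Subfield E} {z : E} : z ∈ acl (F : Set E) ↔ IsAlgebraic F z := by
  rw [mem_acl']
  constructor
  · intro h
    have hle : ∀ a : Algebra.adjoin ℤ (F : Set E), (a : E) ∈ F := by
      rintro ⟨a, ha⟩
      induction ha using Algebra.adjoin_induction with
      | mem x hx => exact hx
      | algebraMap r => exact intCast_mem _ r
      | add x y _ _ hx hy => exact add_mem hx hy
      | mul x y _ _ hx hy => exact mul_mem hx hy
    exact isAlgebraic_of_map (f := ({ toFun := fun a => ⟨a.1, hle a⟩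
                                      map_one' := rfl
                                      map_mul' := fun _ _ => rfl
                                      map_zero' := rfl
                                      map_add' := fun _ _ => rfl } :
      Algebra.adjoin ℤ (F : Set E) →+* F))
      (fun a b hab => Subtype.ext (congrArg (fun c : F => (c : E)) hab))
      (fun _ => rfl) h
  · intro h
    exact isAlgebraic_of_map (f := ({ toFun := fun a => ⟨a.1, Algebra.subset_adjoin a.2⟩
                                      map_one' := rfl
                                      map_mul' := fun _ _ => rfl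
                                      map_zero' := rfl
                                      map_add' := fun _ _ => rfl } :
      F →+* Algebra.adjoin ℤ (F : Set E)))
      (fun a b hab => Subtype.ext (congrArg (fun c : Algebra.adjoin ℤ (F : Set E) => (c : E)) hab))
      (fun _ => rfl) h

theorem le_acl (F : Subfield E) : F ≤ acl (F : Set E) := subset_acl _

theorem acl_closure (S : Set E) : acl (Subfield.closure S : Set E) = acl S := by
  apply le_antisymm
  · apply acl_le
    have h : Subfield.closure S ≤ acl S := Subfield.closure_le.2 (subset_acl S)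
    exact h
  · exact acl_mono Subfield.subset_closure

/-- An algebraically closed subfield is relatively algebraically closed. -/
theorem mem_of_isAlgebraic {F : Subfield E} [IsAlgClosed F] {z : E} (hz : IsAlgebraic F z) :
    z ∈ F := by
  have h1 := minpoly.mem_range_of_degree_eq_one F z
    (IsAlgClosed.degree_eq_one_of_irreducible F (minpoly.irreducible hz.isIntegral))
  obtain ⟨c, hc⟩ := h1
  rw [← hc]
  exact c.2

theorem acl_eq_self {F : Subfield E} [IsAlgClosed F] : acl (F : Set E) = F := by
  apply le_antisymm _ (le_acl F)
  intro z hz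
  rw [mem_acl] at hz
  exact mem_of_isAlgebraic hz

theorem isAlgebraic_iff_of_acl {S : Set E} {z : E} : IsAlgebraic (acl S) z ↔ z ∈ acl S := by
  rw [← mem_acl, acl_acl]

/-- The relative algebraic closure is algebraically closed. -/
theorem isAlgClosed_acl [IsAlgClosed E] (S : Set E) : IsAlgClosed (acl S) := by
  refine IsAlgClosed.of_exists_root _ fun p hpm hirr => ?_
  obtain ⟨z, hz⟩ := IsAlgClosed.exists_aeval_eq_zero (R := acl S) E p hirr.degree_pos.ne'
  have hz' : z ∈ acl S := isAlgebraic_iff_of_acl.1 ⟨p, hpm.ne_zero, hz⟩
  refine ⟨⟨z, hz'⟩, ?_⟩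
  have h1 : algebraMap (acl S) E (p.eval ⟨z, hz'⟩) = 0 := by
    rw [← hz, ← Polynomial.aeval_algebraMap_apply_eq_algebraMap_eval]
    rfl
  exact (map_eq_zero _).1 h1

/-- The exchange property. -/
theorem exchange {S : Set E} {u z : E} (h : z ∈ acl (insert u S)) (hz : z ∉ acl S) :
    u ∈ acl (insert z S) := by
  have h1 : z ∈ (mat E).closure (insert u S) \ (mat E).closure S := ⟨h, hz⟩
  exact (Matroid.closure_exchange h1).1

theorem acl_insert_acl (S : Set E) (u : E) : acl (insert u (acl S : Set E)) = acl (insert u S) := by
  apply le_antisymm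
  · apply acl_le
    rintro x (rfl | hx)
    · exact subset_acl _ (Set.mem_insert _ _)
    · exact acl_mono (Set.subset_insert _ _) hx
  · exact acl_mono (Set.insert_subset_insert (subset_acl S))

theorem acl_union_acl (S T : Set E) : acl ((acl S : Set E) ∪ T) = acl (S ∪ T) := by
  apply le_antisymm
  · apply acl_le
    rintro x (hx | hx)
    · exact acl_mono Set.subset_union_left hx
    · exact subset_acl _ (Or.inr hx)
  · exact acl_mono (Set.union_subset_union_left _ (subset_acl S))

theorem acl_le_self {S : Set E} {F : Subfield E} [IsAlgClosed F] (h : S ⊆ F) : acl S ≤ F := by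
  rw [← acl_eq_self (F := F)]
  exact acl_mono h

/-- An element algebraic over the elements of `acl S`. -/
theorem mem_acl_of_poly {S : Set E} {p : Polynomial E} (hp0 : p ≠ 0) (hp : ∀ n, p.coeff n ∈ acl S)
    {z : E} (hz : p.eval z = 0) : z ∈ acl S := by
  rw [← isAlgebraic_iff_of_acl]
  have h1 : p ∈ Polynomial.lifts (algebraMap (acl S) E) := by
    rw [Polynomial.lifts_iff_coeff_lifts]
    intro n
    exact ⟨⟨_, hp n⟩, rfl⟩
  obtain ⟨q, hq⟩ := (Polynomial.mem_lifts _).1 h1
  refine ⟨q, ?_, ?_⟩
  · rintro rfl
    rw [Polynomial.map_zero] at hq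
    exact hp0 hq.symm
  · rw [Polynomial.aeval_def, ← Polynomial.eval_map, hq, hz]

end Pool.Agent.Helper72.NI
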