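import Pool.Agent.Helper72.NI.Germ

/-!
# Sequences with relations of bounded degree
-/

set_option autoImplicit false

namespace Pool.Agent.Helper72.NI

open Filter

variable {E : Type} [Field E]

/-- Relations of bounded degree, in terms of the coefficients. -/
def RelB (κ : Subfield E) (t : E) (D : ℕ) (c : E) : Prop :=
  ∃ g : Fin (D + 1) × Fin (D + 1) → E, (∀ p, g p ∈ κ) ∧ (∃ p, g p ≠ 0) ∧
    ∑ p, g p * (t ^ (p.1 : ℕ) * c ^ (p.2 : ℕ)) = 0

/-- The exponent of a pair. -/
noncomputable def ex {D : ℕ} (p : Fin (D + 1) × Fin (D + 1)) : Fin 2 →₀ ℕ :=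
  Finsupp.single 0 (p.1 : ℕ) + Finsupp.single 1 (p.2 : ℕ)

theorem ex_inj {D : ℕ} : Function.Injective (ex (D := D)) := by
  intro p q hpq
  have h0 := DFunLike.congr_fun hpq 0
  have h1 := DFunLike.congr_fun hpq 1
  simp [ex] at h0 h1
  exact Prod.ext (Fin.ext h0) (Fin.ext h1)

theorem ex_zero {D : ℕ} (p : Fin (D + 1) × Fin (D + 1)) : ex p 0 = p.1 := by simp [ex]

theorem ex_one {D : ℕ} (p : Fin (D + 1) × Fin (D + 1)) : ex p 1 = p.2 := by simp [ex]

theorem Rel.relB {κ : Subfield E} {t c : E} {D : ℕ} (h : Rel κ t D c) : RelB κ t D c := by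
  classical
  obtain ⟨P, h1, h2, h3⟩ := h
  have hsup : ∀ m ∈ P.support, ∃ p : Fin (D + 1) × Fin (D + 1), ex p = m := by
    intro m hm
    have h4 := MvPolynomial.le_totalDegree hm
    have h5 : (m.sum fun _ e => e) = m 0 + m 1 := by
      rw [Finsupp.sum_fintype _ _ (fun _ => rfl), Fin.sum_univ_two]
    rw [h5] at h4
    refine ⟨(⟨m 0, by omega⟩, ⟨m 1, by omega⟩), ?_⟩
    ext i
    fin_cases i
    · simp [ex]
    · simp [ex]
  refine ⟨fun p => ((P.coeff (ex p) : κ) : E), fun p => (P.coeff (ex p)).2, ?_, ?_⟩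
  · obtain ⟨m, hm⟩ := MvPolynomial.ne_zero_iff.1 h1
    obtain ⟨p, rfl⟩ := hsup m (MvPolynomial.mem_support_iff.2 hm)
    exact ⟨p, fun h => hm (Subtype.ext h)⟩
  · rw [MvPolynomial.aeval_def, MvPolynomial.eval₂_eq'] at h3
    have h4 : ∑ d ∈ Finset.univ.image (ex (D := D)), (algebraMap κ E) (P.coeff d) *
        ∏ i, (![t, c] : Fin 2 → E) i ^ d i = 0 := by
      rw [← h3]
      symm
      refine Finset.sum_subset (fun m hm => ?_) fun m _ hm => ?_
      · obtain ⟨p, rfl⟩ := hsup m hm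
        exact Finset.mem_image_of_mem _ (Finset.mem_univ p)
      · rw [MvPolynomial.notMem_support_iff.1 hm, map_zero, zero_mul]
    rw [Finset.sum_image fun a _ b _ h => ex_inj h] at h4
    rw [← h4]
    refine Finset.sum_congr rfl fun p _ => ?_
    rw [Fin.prod_univ_two, ex_zero, ex_one]
    rfl

theorem RelB.rel {κ : Subfield E} {t c : E} {D : ℕ} (h : RelB κ t D c) : Rel κ t (2 * D) c := by
  classical
  obtain ⟨g, hg, ⟨p₀, hp₀⟩, h3⟩ := h
  refine ⟨∑ p, MvPolynomial.monomial (ex p) (⟨g p, hg p⟩ : κ), ?_, ?_, ?_⟩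
  · intro h0
    apply hp₀
    have h1 := congrArg (MvPolynomial.coeff (ex p₀)) h0
    rw [MvPolynomial.coeff_sum, MvPolynomial.coeff_zero] at h1
    simp only [MvPolynomial.coeff_monomial] at h1
    rw [Finset.sum_eq_single p₀] at h1
    · rw [if_pos rfl] at h1
      exact congrArg (fun c : κ => (c : E)) h1
    · intro q _ hq
      rw [if_neg fun h => hq (ex_inj h)]
    · intro h
      exact absurd (Finset.mem_univ _) h
  · refine MvPolynomial.totalDegree_finsetSum_le fun p _ => ?_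
    refine (MvPolynomial.totalDegree_monomial_le _ _).trans ?_
    have h1 : (ex p).sum (fun _ e => e) = (p.1 : ℕ) + (p.2 : ℕ) := by
      rw [Finsupp.sum_fintype _ _ (fun _ => rfl), Fin.sum_univ_two, ex_zero, ex_one]
    have h2 := p.1.2
    have h3 := p.2.2
    change (ex p).sum (fun _ e => e) ≤ _
    omega
  · rw [map_sum, ← h3]
    refine Finset.sum_congr rfl fun p _ => ?_
    rw [MvPolynomial.aeval_monomial]
    congr 1
    rw [Finsupp.prod_fintype _ _ (fun _ => pow_zero _), Fin.prod_univ_two, ex_zero, ex_one]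
    rfl

variable {U : Ultrafilter ℕ}

theorem exists_eventually {ι : Type} [Finite ι] {p : ι → ℕ → Prop}
    (h : ∀ᶠ n in (U : Filter ℕ), ∃ i, p i n) : ∃ i, ∀ᶠ n in (U : Filter ℕ), p i n := by
  by_contra hcon
  push Not at hcon
  have h2 : ∀ᶠ n in (U : Filter ℕ), ∀ i, ¬ p i n := eventually_all.2 hcon
  obtain ⟨n, hn, i, hi⟩ := (h2.and h).exists
  exact hn i hi

/-- Relations in an ultrapower. -/
theorem relB_star {κ : Subfield E} {t z : ℕ → E} {D : ℕ} :
    RelB (star U κ) (gm U t) D (gm U z) ↔ ∀ᶠ n in (U : Filter ℕ), RelB κ (t n) D (z n) := by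
  constructor
  · rintro ⟨g, hg, ⟨p₀, hp₀⟩, h⟩
    choose f hf hfg using hg
    have h1 : gm U (fun n => ∑ p, f p n * (t n ^ (p.1 : ℕ) * z n ^ (p.2 : ℕ))) = 0 := by
      rw [gm_sum, ← h]
      refine Finset.sum_congr rfl fun p _ => ?_
      rw [gm_mul, gm_mul, gm_pow, gm_pow, hfg]
    have h2 : ∀ᶠ n in (U : Filter ℕ), f p₀ n ≠ 0 := by
      rw [← hfg, Ne, gm_eq_zero] at hp₀
      exact Ultrafilter.eventually_not.2 hp₀
    filter_upwards [gm_eq_zero.1 h1, h2] with n hn1 hn2
    exact ⟨fun p => f p n, fun p => hf p n, ⟨p₀, hn2⟩, hn1⟩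
  · intro h
    classical
    have h1 : ∀ n, ∃ g : Fin (D + 1) × Fin (D + 1) → E, (∀ p, g p ∈ κ) ∧
        (RelB κ (t n) D (z n) → (∃ p, g p ≠ 0) ∧
          ∑ p, g p * (t n ^ (p.1 : ℕ) * z n ^ (p.2 : ℕ)) = 0) := by
      intro n
      by_cases hn : RelB κ (t n) D (z n)
      · obtain ⟨g, h1, h2, h3⟩ := hn
        exact ⟨g, h1, fun _ => ⟨h2, h3⟩⟩
      · exact ⟨fun _ => 0, fun _ => zero_mem _, fun h => absurd h hn⟩
    choose g hg hgn using h1
    obtain ⟨p₀, hp₀⟩ := exists_eventually (U := U) (p := fun p n => g n p ≠ 0) (by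
      filter_upwards [h] with n hn
      exact (hgn n hn).1)
    refine ⟨fun p => gm U fun n => g n p, fun p => ⟨fun n => g n p, fun n => hg n p, rfl⟩,
      ⟨p₀, ?_⟩, ?_⟩
    · rw [Ne, gm_eq_zero]
      exact Ultrafilter.eventually_not.1 hp₀
    · have h2 : gm U (fun n => ∑ p, g n p * (t n ^ (p.1 : ℕ) * z n ^ (p.2 : ℕ))) = 0 := by
        rw [gm_eq_zero]
        filter_upwards [h] with n hn
        exact (hgn n hn).2
      rw [gm_sum] at h2
      rw [← h2]
      refine Finset.sum_congr rfl fun p _ => ?_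
      rw [gm_mul, gm_mul, gm_pow, gm_pow]

/-- Sequences with relations of bounded degree. -/
def Bdd (κ : Subfield E) (t : E) (z : ℕ → E) : Prop := ∃ D, ∀ n, Rel κ t D (z n)

theorem Bdd.const {κ : Subfield E} {t c : E} {D : ℕ} (h : Rel κ t D c) : Bdd κ t fun _ => c :=
  ⟨D, fun _ => h⟩

theorem RelB.mono {κ : Subfield E} {t c : E} {D D' : ℕ} (h : RelB κ t D c) (hD : D ≤ D') :
    RelB κ t (2 * D') c := by
  exact (h.rel.mono (by omega)).relB

variable [CharZero E]

theorem cst_notMem {κ : Subfield E} [IsAlgClosed κ] {t : E} (ht : t ∉ κ) :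
    cst U t ∉ acl (star U κ : Set (Up U E)) := by
  have := isAlgClosed_star (U := U) κ
  rw [acl_eq_self (F := star U κ)]
  intro h
  exact ht (cst_mem_star.1 h)

/-- **Compactness.** A sequence has relations of bounded degree if and only if its class is
algebraic in every ultrapower. -/
theorem bdd_iff {κ : Subfield E} [IsAlgClosed κ] {t : E} (ht : t ∉ κ) {z : ℕ → E} :
    Bdd κ t z ↔ ∀ U : Ultrafilter ℕ,
      gm U z ∈ acl (insert (cst U t) (star U κ : Set (Up U E))) := by
  constructor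
  · rintro ⟨D, hD⟩ U
    have h1 : RelB (star U κ) (cst U t) D (gm U z) :=
      relB_star.2 (Eventually.of_forall fun n => (hD n).relB)
    exact h1.rel.mem_acl (cst_notMem ht)
  · intro h
    by_contra hcon
    set A : ℕ → Set ℕ := fun D => {n | ¬ Rel κ t D (z n)} with hA
    have hanti : Antitone A := fun D D' hD n hn h1 => hn (h1.mono hD)
    have hne : (⨅ D, 𝓟 (A D)).NeBot := by
      apply iInf_neBot_of_directed'
      · intro D D'
        refine ⟨max D D', ?_, ?_⟩
        · exact principal_mono.2 (hanti (le_max_left _ _))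
        · exact principal_mono.2 (hanti (le_max_right _ _))
      · intro D
        rw [principal_neBot_iff]
        by_contra hem
        rw [Set.not_nonempty_iff_eq_empty] at hem
        apply hcon
        refine ⟨D, fun n => ?_⟩
        by_contra hn
        have : n ∈ A D := hn
        rw [hem] at this
        exact this
    set V := Ultrafilter.of (⨅ D, 𝓟 (A D)) with hV
    have hle : (V : Filter ℕ) ≤ ⨅ D, 𝓟 (A D) := Ultrafilter.of_le _
    obtain ⟨D, hD⟩ := exists_rel (h V)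
    have h1 : RelB (star V κ) (cst V t) D (gm V z) := hD.relB
    have h2 : ∀ᶠ n in (V : Filter ℕ), RelB κ t D (z n) := relB_star.1 h1
    have h3 : ∀ᶠ n in (V : Filter ℕ), n ∈ A (2 * D) :=
      (hle.trans (iInf_le _ (2 * D))) (mem_principal_self _)
    obtain ⟨n, hn, hn'⟩ := (h2.and h3).exists
    exact hn' hn.rel

/-- Change of the variable. -/
theorem Bdd.change {κ : Subfield E} [IsAlgClosed κ] {t θ : E} (ht : t ∉ κ) (hθ : θ ∉ κ) {D : ℕ}
    (hθt : Rel κ t D θ) {z : ℕ → E} (hz : Bdd κ t z) : Bdd κ θ z := by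
  rw [bdd_iff hθ]
  intro U
  have h1 := (bdd_iff ht).1 hz U
  have h2 : cst U θ ∈ acl (insert (cst U t) (star U κ : Set (Up U E))) :=
    (bdd_iff ht).1 (Bdd.const hθt) U
  have h3 : cst U t ∈ acl (insert (cst U θ) (star U κ : Set (Up U E))) :=
    exchange h2 (cst_notMem hθ)
  refine acl_le ?_ h1
  rintro x (rfl | hx)
  · exact h3
  · exact subset_acl _ (Set.mem_insert_of_mem _ hx)

end Pool.Agent.Helper72.NI
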