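import Pool.Agent.Helper72.NI.Ctx

/-!
# Congruences
-/

set_option autoImplicit false

namespace Pool.Agent.Helper72.NI

open MvPolynomial

section

variable {E : Type} [Field E] {Γ : Type} [LinearOrderedCommGroupWithZero Γ] {v : Valuation E Γ}

/-- Congruence of integral elements modulo the maximal ideal. -/
structure Cg (v : Valuation E Γ) (x y : E) : Prop where
  left : v x ≤ 1
  right : v y ≤ 1
  lt : v (x - y) < 1

theorem Cg.refl {x : E} (h : v x ≤ 1) : Cg v x x :=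
  ⟨h, h, by rw [sub_self, map_zero]; exact zero_lt_one⟩

theorem Cg.symm {x y : E} (h : Cg v x y) : Cg v y x :=
  ⟨h.right, h.left, by rw [Valuation.map_sub_swap]; exact h.lt⟩

theorem Cg.trans {x y z : E} (h : Cg v x y) (h' : Cg v y z) : Cg v x z :=
  ⟨h.left, h'.right, by
    have h1 : x - z = (x - y) + (y - z) := by ring
    rw [h1]
    exact lt_of_le_of_lt (v.map_add _ _) (max_lt h.lt h'.lt)⟩

theorem Cg.add {x y x' y' : E} (h : Cg v x y) (h' : Cg v x' y') : Cg v (x + x') (y + y') :=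
  ⟨(v.map_add _ _).trans (max_le h.left h'.left), (v.map_add _ _).trans (max_le h.right h'.right),
    by
    have h1 : x + x' - (y + y') = (x - y) + (x' - y') := by ring
    rw [h1]
    exact lt_of_le_of_lt (v.map_add _ _) (max_lt h.lt h'.lt)⟩

theorem Cg.neg {x y : E} (h : Cg v x y) : Cg v (-x) (-y) :=
  ⟨by rw [Valuation.map_neg]; exact h.left, by rw [Valuation.map_neg]; exact h.right, by
    have h1 : -x - -y = -(x - y) := by ring
    rw [h1, Valuation.map_neg]
    exact h.lt⟩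

theorem Cg.sub {x y x' y' : E} (h : Cg v x y) (h' : Cg v x' y') : Cg v (x - x') (y - y') := by
  rw [sub_eq_add_neg, sub_eq_add_neg]
  exact h.add h'.neg

theorem Cg.mul {x y x' y' : E} (h : Cg v x y) (h' : Cg v x' y') : Cg v (x * x') (y * y') :=
  ⟨by rw [map_mul]; exact mul_le_one' h.left h'.left,
    by rw [map_mul]; exact mul_le_one' h.right h'.right, by
    have h1 : x * x' - y * y' = (x - y) * x' + y * (x' - y') := by ring
    rw [h1]
    refine lt_of_le_of_lt (v.map_add _ _) (max_lt ?_ ?_)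
    · rw [map_mul]
      calc v (x - y) * v x' ≤ v (x - y) * 1 := mul_le_mul_right h'.left _
        _ = v (x - y) := mul_one _
        _ < 1 := h.lt
    · rw [map_mul]
      calc v y * v (x' - y') ≤ 1 * v (x' - y') := mul_le_mul_left h.right _
        _ = v (x' - y') := one_mul _
        _ < 1 := h'.lt⟩

theorem Cg.pow {x y : E} (h : Cg v x y) (n : ℕ) : Cg v (x ^ n) (y ^ n) := by
  induction n with
  | zero => rw [pow_zero, pow_zero]; exact Cg.refl (by rw [map_one])
  | succ n ih => rw [pow_succ, pow_succ]; exact ih.mul h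

theorem Cg.sum {ι : Type} (s : Finset ι) {x y : ι → E} (h : ∀ i ∈ s, Cg v (x i) (y i)) :
    Cg v (∑ i ∈ s, x i) (∑ i ∈ s, y i) := by
  classical
  induction s using Finset.induction_on with
  | empty => simp only [Finset.sum_empty]; exact Cg.refl (by rw [map_zero]; exact zero_le)
  | insert a s ha ih =>
    rw [Finset.sum_insert ha, Finset.sum_insert ha]
    exact (h a (Finset.mem_insert_self _ _)).add (ih fun i hi => h i (Finset.mem_insert_of_mem hi))

theorem Cg.prod {ι : Type} (s : Finset ι) {x y : ι → E} (h : ∀ i ∈ s, Cg v (x i) (y i)) :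
    Cg v (∏ i ∈ s, x i) (∏ i ∈ s, y i) := by
  classical
  induction s using Finset.induction_on with
  | empty => simp only [Finset.prod_empty]; exact Cg.refl (by rw [map_one])
  | insert a s ha ih =>
    rw [Finset.prod_insert ha, Finset.prod_insert ha]
    exact (h a (Finset.mem_insert_self _ _)).mul (ih fun i hi => h i (Finset.mem_insert_of_mem hi))

theorem Cg.val {x y : E} (h : Cg v x y) (hy : v y = 1) : v x = 1 := by
  have h1 : x = y + (x - y) := by ring
  rw [h1, Valuation.map_add_eq_of_lt_left v (by rw [hy]; exact h.lt), hy]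

theorem Cg.inv {x y : E} (h : Cg v x y) (hy : v y = 1) : Cg v x⁻¹ y⁻¹ := by
  have hx := h.val hy
  have hx0 : x ≠ 0 := by
    rintro rfl
    rw [map_zero] at hx
    exact zero_ne_one hx
  have hy0 : y ≠ 0 := by
    rintro rfl
    rw [map_zero] at hy
    exact zero_ne_one hy
  refine ⟨by rw [map_inv₀, hx, inv_one], by rw [map_inv₀, hy, inv_one], ?_⟩
  have h1 : x⁻¹ - y⁻¹ = (y - x) * (x⁻¹ * y⁻¹) := by
    field_simp
  rw [h1, map_mul, map_mul, map_inv₀, map_inv₀, hx, hy, inv_one, mul_one, mul_one,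
    Valuation.map_sub_swap]
  exact h.lt

theorem Cg.div {x y x' y' : E} (h : Cg v x y) (h' : Cg v x' y') (hy : v y' = 1) :
    Cg v (x / x') (y / y') := by
  rw [div_eq_mul_inv, div_eq_mul_inv]
  exact h.mul (h'.inv hy)

theorem Cg.eval {σ : Type} {P Q : MvPolynomial σ E} (hPQ : ∀ m, Cg v (P.coeff m) (Q.coeff m))
    {x y : σ → E} (hxy : ∀ i, Cg v (x i) (y i)) :
    Cg v (MvPolynomial.eval x P) (MvPolynomial.eval y Q) := by
  classical
  rw [MvPolynomial.eval_eq, MvPolynomial.eval_eq]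
  have h1 : ∑ m ∈ P.support, P.coeff m * ∏ i ∈ m.support, x i ^ m i =
      ∑ m ∈ P.support ∪ Q.support, P.coeff m * ∏ i ∈ m.support, x i ^ m i := by
    refine Finset.sum_subset Finset.subset_union_left fun m _ hm => ?_
    rw [MvPolynomial.notMem_support_iff.1 hm, zero_mul]
  have h2 : ∑ m ∈ Q.support, Q.coeff m * ∏ i ∈ m.support, y i ^ m i =
      ∑ m ∈ P.support ∪ Q.support, Q.coeff m * ∏ i ∈ m.support, y i ^ m i := by
    refine Finset.sum_subset Finset.subset_union_right fun m _ hm => ?_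
    rw [MvPolynomial.notMem_support_iff.1 hm, zero_mul]
  rw [h1, h2]
  exact Cg.sum _ fun m _ => (hPQ m).mul (Cg.prod _ fun i _ => (hxy i).pow _)

/-- Congruent elements of a trivially valued subfield are equal. -/
theorem Cg.eq {Ω : Subfield E} (hΩ : ∀ b ∈ Ω, v b ≤ 1) {x y : E} (h : Cg v x y) (hx : x ∈ Ω)
    (hy : y ∈ Ω) : x = y := by
  by_contra hne
  exact h.lt.ne (val_one_of_mem hΩ (sub_mem hx hy) (sub_ne_zero.2 hne))

/-- Reduction of relations. -/
theorem relB_reduce {κ' κ₂ Ω : Subfield E} (hκ₂ : κ₂ ≤ Ω) (hΩ : ∀ b ∈ Ω, v b ≤ 1)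
    (hres : ∀ z ∈ κ', v z ≤ 1 → ∃ c ∈ κ₂, v (z - c) < 1) {θ θ' c c' : E} (hθ : Cg v θ θ')
    (hθ' : θ' ∈ Ω) (hc : Cg v c c') (hc' : c' ∈ Ω) {D : ℕ} (h : RelB κ' θ D c) :
    RelB κ₂ θ' D c' := by
  classical
  obtain ⟨g, hg, ⟨p₁, hp₁⟩, h0⟩ := h
  obtain ⟨p₀, -, hmax⟩ := Finset.exists_max_image Finset.univ (fun p => v (g p)) ⟨p₁, Finset.mem_univ _⟩
  have hg0 : g p₀ ≠ 0 := by
    intro h1
    have h2 := hmax p₁ (Finset.mem_univ _)
    rw [h1, map_zero] at h2
    exact hp₁ ((map_eq_zero v).1 (le_antisymm h2 zero_le))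
  have hv0 : v (g p₀) ≠ 0 := by rwa [Ne, map_eq_zero]
  have hint : ∀ p, v (g p / g p₀) ≤ 1 := fun p => by
    rw [map_div₀]
    exact div_le_one_of_le₀ (hmax p (Finset.mem_univ _)) zero_le
  have hr : ∀ p, ∃ b ∈ κ₂, Cg v (g p / g p₀) b := fun p => by
    obtain ⟨b, hb, h1⟩ := hres _ (div_mem (hg p) (hg p₀)) (hint p)
    exact ⟨b, hb, hint p, hΩ b (hκ₂ hb), h1⟩
  choose b hb hgb using hr
  have hb0 : b p₀ ≠ 0 := by
    intro h1
    have h2 := (hgb p₀).lt
    rw [h1, sub_zero, div_self hg0, map_one] at h2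
    exact lt_irrefl _ h2
  refine ⟨b, hb, ⟨p₀, hb0⟩, ?_⟩
  have hsum : ∑ p, g p / g p₀ * (θ ^ (p.1 : ℕ) * c ^ (p.2 : ℕ)) = 0 := by
    have h1 : ∑ p, g p / g p₀ * (θ ^ (p.1 : ℕ) * c ^ (p.2 : ℕ)) =
        (g p₀)⁻¹ * ∑ p, g p * (θ ^ (p.1 : ℕ) * c ^ (p.2 : ℕ)) := by
      rw [Finset.mul_sum]
      refine Finset.sum_congr rfl fun p _ => ?_
      rw [div_eq_inv_mul]
      ring
    rw [h1, h0, mul_zero]
  have hcg : Cg v (∑ p, g p / g p₀ * (θ ^ (p.1 : ℕ) * c ^ (p.2 : ℕ)))
      (∑ p, b p * (θ' ^ (p.1 : ℕ) * c' ^ (p.2 : ℕ))) :=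
    Cg.sum _ fun p _ => (hgb p).mul ((hθ.pow _).mul (hc.pow _))
  rw [hsum] at hcg
  exact (hcg.eq hΩ (zero_mem _) (Subfield.sum_mem _ fun p _ => mul_mem (hκ₂ (hb p))
    (mul_mem (pow_mem hθ' _) (pow_mem hc' _)))).symm

end

section

variable {E : Type} [Field E] [CharZero E] {Γ : Type} [LinearOrderedCommGroupWithZero Γ]
  {v : Valuation E Γ} {k K Ω : Subfield E} {t : E} {N d : ℕ}
  {f φ : Fin (N + 1) → MvPolynomial (Fin (N + 1)) E}

theorem Ctx.valΩ_eq (c : Ctx v k K Ω t d f φ) {b : E} (hb : b ∈ Ω) (hb0 : b ≠ 0) : v b = 1 :=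
  val_one_of_mem c.valΩ hb hb0

theorem Ctx.cgf (c : Ctx v k K Ω t d f φ) (i : Fin (N + 1)) (m : Fin (N + 1) →₀ ℕ) :
    Cg v ((f i).coeff m) ((φ i).coeff m) :=
  ⟨c.intf i m, c.valΩ _ (c.kΩ (c.endφ.coeff i m)), c.red i m⟩

theorem Ctx.cg_itr (c : Ctx v k K Ω t d f φ) {x ζ : Fin (N + 1) → E}
    (h : ∀ i, Cg v (x i) (ζ i)) (n : ℕ) (i : Fin (N + 1)) :
    Cg v (itr f x n i) (itr φ ζ n i) := by
  induction n generalizing i with
  | zero => exact h i
  | succ n ih =>
    rw [itr_succ, itr_succ]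
    exact Cg.eval (fun m => c.cgf i m) ih

omit [CharZero E] in
theorem eval_mem {F : Subfield E} {σ : Type} {P : MvPolynomial σ E} (hP : ∀ m, P.coeff m ∈ F)
    {x : σ → E} (hx : ∀ i, x i ∈ F) : eval x P ∈ F := by
  rw [eval_eq]
  exact Subfield.sum_mem _ fun m _ => mul_mem (hP m) (Subfield.prod_mem _ fun i _ =>
    pow_mem (hx i) _)

omit [CharZero E] in
theorem itr_mem {F : Subfield E} {g : Fin (N + 1) → MvPolynomial (Fin (N + 1)) E}
    (hg : ∀ i m, (g i).coeff m ∈ F) {x : Fin (N + 1) → E} (hx : ∀ i, x i ∈ F) (n : ℕ)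
    (i : Fin (N + 1)) : itr g x n i ∈ F := by
  induction n generalizing i with
  | zero => exact hx i
  | succ n ih =>
    rw [itr_succ]
    exact eval_mem (hg i) ih

omit [CharZero E] in
theorem itr_ne_zero {F : Subfield E} {g : Fin (N + 1) → MvPolynomial (Fin (N + 1)) E} {d : ℕ}
    (hg : Endo F d g) {x : Fin (N + 1) → E} (hx : x ≠ 0) (n : ℕ) : itr g x n ≠ 0 := by
  induction n with
  | zero => exact hx
  | succ n ih =>
    rw [itr_succ]
    intro h
    exact ih (hg.nz _ fun i => congrFun h i)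

omit [CharZero E] in
theorem Endo.mono {F F' : Subfield E} (hF : F ≤ F')
    {g : Fin (N + 1) → MvPolynomial (Fin (N + 1)) E} {d : ℕ} (hg : Endo F d g) : Endo F' d g :=
  ⟨hg.two_le, hg.hom, fun i m => hF (hg.coeff i m), hg.nz⟩

omit [CharZero E] in
theorem rel_zero (κ : Subfield E) (t : E) : Rel κ t 1 0 := by
  refine ⟨X 1, X_ne_zero _, ?_, ?_⟩
  · exact (totalDegree_X _).le
  · rw [aeval_X]
    rfl

omit [CharZero E] in
/-- The version of bounded heights with sequences. -/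
theorem Low.bdd {κ : Subfield E} {g : Fin (N + 1) → MvPolynomial (Fin (N + 1)) E}
    {x : Fin (N + 1) → E} (h : Low κ t g x) (i j : Fin (N + 1)) :
    Bdd κ t fun n => itr g x n i / itr g x n j := by
  obtain ⟨D, hD⟩ := h
  refine ⟨max D 1, fun n => ?_⟩
  by_cases h0 : itr g x n j = 0
  · simp only [h0, div_zero]
    exact (rel_zero κ t).mono (le_max_right _ _)
  · exact (hD n i j h0).mono (le_max_left _ _)

omit [CharZero E] in
theorem low_of_bdd {κ : Subfield E} {g : Fin (N + 1) → MvPolynomial (Fin (N + 1)) E}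
    {x : Fin (N + 1) → E}
    (h : ∀ i j, Bdd κ t fun n => itr g x n i / itr g x n j) : Low κ t g x := by
  choose D hD using h
  refine ⟨∑ i, ∑ j, D i j, fun n i j _ => (hD i j n).mono ?_⟩
  calc D i j ≤ ∑ j, D i j := Finset.single_le_sum (f := fun j => D i j) (fun _ _ => Nat.zero_le _)
        (Finset.mem_univ j)
    _ ≤ ∑ i, ∑ j, D i j := Finset.single_le_sum (f := fun i => ∑ j, D i j)
        (fun _ _ => Nat.zero_le _) (Finset.mem_univ i)

end

end Pool.Agent.Helper72.NI
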