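import Pool.Agent.Helper72.NI.StepMain

/-!
# The reduction is a rational function of the point
-/

set_option autoImplicit false

namespace Pool.Agent.Helper72.NI

open MvPolynomial Filter

section

variable {E : Type} [Field E] {U : Ultrafilter ℕ}

theorem gm_prod {ι : Type} (s : Finset ι) (f : ι → ℕ → E) :
    gm U (fun n => ∏ i ∈ s, f i n) = ∏ i ∈ s, gm U (f i) := by
  have h := map_prod (gmHom U E) f s
  have h2 : (∏ i ∈ s, f i) = fun n => ∏ i ∈ s, f i n := by
    funext n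
    rw [Finset.prod_apply]
  rw [h2] at h
  exact h

theorem eval_gm {σ : Type} (P : MvPolynomial σ E) (x : ℕ → σ → E) :
    eval (fun i => gm U fun n => x n i) (map (cst U) P) = gm U fun n => eval (x n) P := by
  rw [eval_map, eval₂_eq]
  have h1 : (fun n => eval (x n) P) =
      fun n => ∑ m ∈ P.support, P.coeff m * ∏ i ∈ m.support, x n i ^ m i := by
    funext n
    exact eval_eq _ _
  rw [h1, gm_sum]
  refine Finset.sum_congr rfl fun m _ => ?_
  rw [gm_mul, gm_prod]
  congr 1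

end

/-- Relations over `K` which hold along the whole orbit. -/
def Unif {E : Type} [Field E] (K : Subfield E) {N : ℕ}
    (f φ : Fin (N + 1) → MvPolynomial (Fin (N + 1)) E) (x y : Fin (N + 1) → E) : Prop :=
  ∀ i l, ∃ (q e : ℕ) (P : Fin (q + 1) → MvPolynomial (Fin (N + 1)) E),
    (∀ s, (P s).IsHomogeneous e) ∧ (∀ s m, (P s).coeff m ∈ K) ∧
    ∀ n, (∃ s, eval (itr f x n) (P s) ≠ 0) ∧
      ∑ s, eval (itr f x n) (P s) * (itr φ y n i / itr φ y n l) ^ (s : ℕ) = 0

variable {E : Type} [Field E] [CharZero E]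

/-- Roots of equations with bounded coefficients are bounded. -/
theorem bdd_of_roots {κ : Subfield E} [IsAlgClosed κ] {t : E} (ht : t ∉ κ) {N : ℕ}
    {X : ℕ → Fin (N + 1) → E} (hX0 : ∀ n, X n ≠ 0)
    (hX : ∀ a b, Bdd κ t fun n => X n a / X n b) {q e : ℕ}
    {P : Fin (q + 1) → MvPolynomial (Fin (N + 1)) E} (hP : ∀ s, (P s).IsHomogeneous e)
    (hPt : ∀ s m, (P s).coeff m ∈ acl (insert t (κ : Set E))) {z : ℕ → E}
    (hz : ∀ n, (∃ s, eval (X n) (P s) ≠ 0) ∧ ∑ s, eval (X n) (P s) * z n ^ (s : ℕ) = 0) :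
    Bdd κ t z := by
  classical
  rw [bdd_iff ht]
  intro V
  obtain ⟨j, hj⟩ := exists_eventually (U := V) (p := fun j n => X n j ≠ 0)
    (Eventually.of_forall fun n => Function.ne_iff.1 (hX0 n))
  set Y : ℕ → Fin (N + 1) → E := fun n a => X n a / X n j with hY
  have hYX : ∀ n, X n j ≠ 0 → ∀ s, eval (X n) (P s) = X n j ^ e * eval (Y n) (P s) := by
    intro n hn s
    rw [← eval_smul_hom (hP s)]
    congr 1
    congr 1
    funext a
    rw [Pi.smul_apply, smul_eq_mul, hY, mul_div_cancel₀ _ hn]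
  have hYmem : ∀ a, (gm V fun n => Y n a) ∈ acl (insert (cst V t) (star V κ : Set (Up V E))) :=
    fun a => (bdd_iff ht).1 (hX a j) V
  have hcst : ∀ b ∈ acl (insert t (κ : Set E)),
      cst V b ∈ acl (insert (cst V t) (star V κ : Set (Up V E))) := by
    intro b hb
    refine acl_map (cst V) ?_ hb
    rintro s (rfl | hs)
    · exact subset_acl _ (Set.mem_insert _ _)
    · exact subset_acl _ (Set.mem_insert_of_mem _ (cst_mem_star.2 hs))
  have hcoef : ∀ s, (gm V fun n => eval (Y n) (P s)) ∈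
      acl (insert (cst V t) (star V κ : Set (Up V E))) := by
    intro s
    rw [← eval_gm]
    refine eval_mem (fun m => ?_) hYmem
    rw [coeff_map]
    exact hcst _ (hPt s m)
  obtain ⟨s₀, hs₀⟩ := exists_eventually (U := V) (p := fun s n => eval (X n) (P s) ≠ 0)
    (Eventually.of_forall fun n => (hz n).1)
  set p : Polynomial (Up V E) :=
    ∑ s : Fin (q + 1), Polynomial.C (gm V fun n => eval (Y n) (P s)) * Polynomial.X ^ (s : ℕ)
    with hp
  have hpc : ∀ s : Fin (q + 1), p.coeff s = gm V fun n => eval (Y n) (P s) := by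
    intro i
    rw [hp, Polynomial.finsetSum_coeff]
    simp only [Polynomial.coeff_C_mul, Polynomial.coeff_X_pow]
    rw [Finset.sum_eq_single i]
    · simp
    · intro j _ hj
      rw [if_neg fun h => hj (Fin.ext h.symm), mul_zero]
    · intro h
      exact absurd (Finset.mem_univ _) h
  refine mem_acl_of_poly (p := p) ?_ ?_ ?_
  · intro h0
    have h1 := hpc s₀
    rw [h0, Polynomial.coeff_zero] at h1
    have h2 := gm_eq_zero.1 h1.symm
    obtain ⟨n, ⟨hn1, hn2⟩, hn3⟩ := ((h2.and hs₀).and hj).exists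
    rw [hYX n hn3, hn1, mul_zero] at hn2
    exact hn2 rfl
  · intro m
    rw [hp, Polynomial.finsetSum_coeff]
    refine Subfield.sum_mem _ fun s _ => ?_
    rw [Polynomial.coeff_C_mul, Polynomial.coeff_X_pow]
    split_ifs
    · rw [mul_one]
      exact hcoef s
    · rw [mul_zero]
      exact zero_mem _
  · rw [hp, Polynomial.eval_finsetSum]
    have h1 : (∑ s : Fin (q + 1), Polynomial.eval (gm V z)
        (Polynomial.C (gm V fun n => eval (Y n) (P s)) * Polynomial.X ^ (s : ℕ))) =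
        gm V fun n => ∑ s : Fin (q + 1), eval (Y n) (P s) * z n ^ (s : ℕ) := by
      rw [gm_sum]
      refine Finset.sum_congr rfl fun s _ => ?_
      rw [Polynomial.eval_mul, Polynomial.eval_C, Polynomial.eval_pow, Polynomial.eval_X, gm_mul,
        gm_pow]
    rw [h1, gm_eq_zero]
    filter_upwards [hj] with n hn
    have h2 := (hz n).2
    have h3 : ∑ s, eval (X n) (P s) * z n ^ (s : ℕ) =
        X n j ^ e * ∑ s : Fin (q + 1), eval (Y n) (P s) * z n ^ (s : ℕ) := by
      rw [Finset.mul_sum]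
      refine Finset.sum_congr rfl fun s _ => ?_
      rw [hYX n hn s]
      ring
    rw [h3] at h2
    exact (mul_eq_zero.1 h2).resolve_left (pow_ne_zero _ hn)

variable {Γ : Type} [LinearOrderedCommGroupWithZero Γ]
  {v : Valuation E Γ} {k K Ω : Subfield E} {t : E} {N d : ℕ}
  {f φ : Fin (N + 1) → MvPolynomial (Fin (N + 1)) E}

/-- **The reduction is rational over the field of the point.** -/
theorem y_rational (growth : GrowthStatement) (c : Ctx v k K Ω t d f φ)
    {x y : Fin (N + 1) → E} {i₀ : Fin (N + 1)} (hpt : Pt v Ω x y i₀)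
    (hx : ∀ i, x i ∈ acl ((k : Set E) ∪ Set.range y) ⊔ K)
    (hlow : Low (acl ((k : Set E) ∪ Set.range y)) t f x)
    (hya : ∀ i, y i ∈ acl ((K : Set E) ∪ Set.range x)) (hunif : Unif K f φ x y)
    (i : Fin (N + 1)) : y i ∈ Subfield.closure ((K : Set E) ∪ Set.range x) := by
  classical
  have := c.algE
  have := c.algΩ
  set F := Subfield.closure ((K : Set E) ∪ Set.range x) with hF
  have haclF : acl (F : Set E) = acl ((K : Set E) ∪ Set.range x) := acl_closure _
  have hKF : K ≤ F := fun a ha => Subfield.subset_closure (Or.inl ha)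
  have hxF : ∀ i, x i ∈ F := fun i => Subfield.subset_closure (Or.inr ⟨i, rfl⟩)
  have hyZ : ∀ i, y i ∈ acl (F : Set E) := fun i => by rw [haclF]; exact hya i
  have hFZ : F ≤ acl (F : Set E) := le_acl F
  set κ := acl ((k : Set E) ∪ Set.range y) with hκ
  have hκalg : IsAlgClosed κ := isAlgClosed_acl _
  have hkκ : k ≤ κ := fun a ha => subset_acl _ (Or.inl ha)
  have hyκ : ∀ i, y i ∈ κ := fun i => subset_acl _ (Or.inr ⟨i, rfl⟩)
  have hSΩ : (k : Set E) ∪ Set.range y ⊆ Ω := by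
    refine Set.union_subset c.kΩ ?_
    rintro _ ⟨i, rfl⟩
    exact hpt.mem i
  have hκΩ : κ ≤ Ω := acl_le_self hSΩ
  have htκ : t ∉ κ := c.t_notMem hSΩ
  refine mem_of_fixed F (hyZ i) fun ι hι => ?_
  have hκZ : κ ≤ acl (F : Set E) := by
    refine acl_le ?_
    rintro a (ha | ⟨j, rfl⟩)
    · exact hFZ (hKF (c.kK ha))
    · exact hyZ j
  set y' : Fin (N + 1) → E := fun i => ι ⟨y i, hyZ i⟩ with hy'
  have hfF : ∀ n i, itr f x n i ∈ F := itr_mem (fun i m => hKF (c.endf.coeff i m)) hxF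
  have hφZ : ∀ i m, (φ i).coeff m ∈ acl (F : Set E) := fun i m =>
    hFZ (hKF (c.kK (c.endφ.coeff i m)))
  have hφι : ∀ i m, ι ⟨(φ i).coeff m, hφZ i m⟩ = (φ i).coeff m := fun i m =>
    hι _ (hKF (c.kK (c.endφ.coeff i m)))
  have hlow' : Low κ t φ y' := by
    refine low_of_bdd fun a b => ?_
    obtain ⟨q, e, P, hPh, hPK, hP⟩ := hunif a b
    refine bdd_of_roots htκ (X := fun n => itr f x n) (fun n => ?_) (fun a b => hlow.bdd a b)
      hPh (fun s m => ?_) (fun n => ⟨(hP n).1, ?_⟩)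
    · refine itr_ne_zero c.endf ?_ n
      intro h
      have := hpt.x1
      rw [h] at this
      exact zero_ne_one this
    · exact acl_mono (Set.insert_subset_insert hkκ) (c.Kt _ (hPK s m))
    · have h1 := (hP n).2
      have hFev : ∀ s, eval (itr f x n) (P s) ∈ F := fun s =>
        eval_mem (fun m => hKF (hPK s m)) (hfF n)
      have h2 : (∑ s : Fin (q + 1), (⟨eval (itr f x n) (P s), hFZ (hFev s)⟩ : acl (F : Set E)) *
          (⟨itr φ y n a, itr_mem hφZ hyZ n a⟩ / ⟨itr φ y n b, itr_mem hφZ hyZ n b⟩) ^ (s : ℕ)) =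
            0 := by
        apply Subtype.ext
        push_cast
        exact h1
      have h3 := congrArg ι h2
      rw [map_sum, map_zero] at h3
      rw [← h3]
      refine Finset.sum_congr rfl fun s _ => ?_
      rw [map_mul, map_pow, map_div₀, hι _ (hFev s), itr_hom ι hφZ hφι hyZ n a,
        itr_hom ι hφZ hφι hyZ n b]
  have hy'1 : y' i₀ = 1 := by
    have h1 : (⟨y i₀, hyZ i₀⟩ : acl (F : Set E)) = 1 := Subtype.ext hpt.y1
    rw [hy']
    simp only
    rw [h1, map_one]
  have hy'0 : y' ≠ 0 := by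
    intro h
    rw [h] at hy'1
    exact zero_ne_one hy'1
  obtain ⟨b, hb0, hb⟩ := growth E κ t htκ N d φ (c.endφ.mono hkκ) y' hy'0 hlow'
  have hbκ : b ∈ κ := by
    have := hb i₀
    rwa [hy'1, mul_one] at this
  have hy'κ : ∀ i, y' i ∈ κ := by
    intro i
    have h1 := mul_mem (inv_mem hbκ) (hb i)
    rwa [inv_mul_cancel_left₀ hb0] at h1
  have hικ : ∀ b : acl (F : Set E), (b : E) ∈ κ → ι b ∈ κ := by
    intro b hb
    refine acl_hom ι (S := (k : Set E) ∪ Set.range y) (T := (k : Set E) ∪ Set.range y) ?_ ?_ b.2 hb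
    · rintro a (ha | ⟨j, rfl⟩)
      · exact hFZ (hKF (c.kK ha))
      · exact hyZ j
    · rintro s (hs | ⟨j, rfl⟩)
      · have h1 := hι s (hKF (c.kK hs))
        rw [h1]
        exact subset_acl _ (Or.inl hs)
      · exact hy'κ j
  have hK : ∀ a : acl (F : Set E), (a : E) ∈ K → ι a = a := fun a ha => hι a (hKF ha)
  obtain ⟨b', hb', h1, h2⟩ := up c.kK hkκ (hKF.trans hFZ) hκZ ι hK c.resK
    (fun b hb => c.valΩ b (hκΩ hb)) (fun b hb => c.valΩ _ (hκΩ (hικ b hb)))
    (z := ⟨x i, hFZ (hxF i)⟩) (hx i) (hpt.int i)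
  have hb'y : (b' : E) = y i := by
    have h3 : Cg v (x i) b' := ⟨hpt.int i, c.valΩ _ (hκΩ hb'), h1⟩
    have h4 : Cg v (x i) (y i) := ⟨hpt.int i, c.valΩ _ (hpt.mem i), hpt.red i⟩
    exact (h3.symm.trans h4).eq c.valΩ (hκΩ hb') (hpt.mem i)
  have hb'y' : b' = ⟨y i, hyZ i⟩ := Subtype.ext hb'y
  have h3 : ι ⟨x i, hFZ (hxF i)⟩ = x i := hι _ (hxF i)
  rw [h3, hb'y'] at h2
  have h4 : Cg v (x i) (y' i) := ⟨hpt.int i, c.valΩ _ (hκΩ (hy'κ i)), h2⟩
  have h5 : Cg v (x i) (y i) := ⟨hpt.int i, c.valΩ _ (hpt.mem i), hpt.red i⟩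
  exact (h4.symm.trans h5).eq c.valΩ (hκΩ (hy'κ i)) (hpt.mem i)

end Pool.Agent.Helper72.NI
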