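import Pool.Agent.Helper74.NI.GrowthFinal
import Pool.Agent.Helper74.NI.FF
import Pool.Agent.Helper33.NI.Ql
import Pool.Agent.Helper72.NI.Yrat

/-!
# Coordinates of points of bounded height
-/

set_option autoImplicit false

namespace Pool.Agent.Helper72.NI

open MvPolynomial

theorem growth_all : GrowthStatement := by
  intro E _ _ κ _ θ hθ N d φ hφ ζ hζ hlow
  exact Pool.Agent.Helper74.NI.growth hθ hφ hζ hlow

/-- The points of an orbit of bounded height have coordinates in a finite-dimensional space. -/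
theorem exists_coords {T : Type} [Field T] [CharZero T] {k : Subfield T} [IsAlgClosed k] {t : T}
    (ht : t ∉ k) (hT : ∀ z : T, z ∈ acl (insert t (k : Set T))) {N d : ℕ}
    {f : Fin (N + 1) → MvPolynomial (Fin (N + 1)) T} (hf : Endo ⊤ d f) {a : Fin (N + 1) → T}
    (ha : a ≠ 0) (hlow : Low k t f a) :
    ∃ (r : ℕ) (e : Fin r → T) (ω : ℕ → Fin (N + 1) → Fin r → T) (c : ℕ → T),
      (∀ n i l, ω n i l ∈ k) ∧ (∀ n, c n ≠ 0) ∧
      ∀ n i, c n * itr f a n i = ∑ l, ω n i l * e l := by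
  classical
  set s : Set T := (⋃ i, ((f i).coeffs : Set T)) ∪ Set.range a with hs
  have hsf : s.Finite := (Set.finite_iUnion fun i => (f i).coeffs.finite_toSet).union
    (Set.finite_range a)
  have hK := Pool.Agent.Helper74.NI.exists_functionField ht hsf (fun c _ => hT c)
  set K₀ := IntermediateField.adjoin k (insert t s) with hK₀
  have hmem : ∀ c ∈ s, c ∈ K₀ := fun c hc =>
    IntermediateField.subset_adjoin k _ (Set.mem_insert_of_mem _ hc)
  have htK : t ∈ K₀ := IntermediateField.subset_adjoin k _ (Set.mem_insert _ _)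
  have hfK : ∀ i m, (f i).coeff m ∈ K₀.toSubfield := by
    intro i m
    by_cases h0 : (f i).coeff m = 0
    · rw [h0]
      exact zero_mem _
    · exact hmem _ (Or.inl (Set.mem_iUnion.2 ⟨i, coeff_mem_coeffs m h0⟩))
  have haK : ∀ i, a i ∈ K₀.toSubfield := fun i => hmem _ (Or.inr ⟨i, rfl⟩)
  have hxK : ∀ n i, itr f a n i ∈ K₀.toSubfield := itr_mem hfK haK
  let x : ℕ → Fin (N + 1) → K₀ := fun n i => ⟨itr f a n i, hxK n i⟩
  have hx0 : ∀ n, x n ≠ 0 := by
    intro n h
    apply itr_ne_zero hf ha n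
    funext i
    exact congrArg (fun w : Fin (N + 1) → K₀ => ((w i : K₀) : T)) h
  have htr : Transcendental k (⟨t, htK⟩ : K₀) := by
    intro h
    exact ht (mem_of_isAlgebraic (IsAlgebraic.algHom K₀.val h))
  obtain ⟨D, hD⟩ := hlow
  obtain ⟨B, hB⟩ := Pool.Agent.Helper74.NI.ht_le_of_rel (ν := N) hK htr D
  obtain ⟨L, hL, hLx⟩ := Pool.Agent.Helper33.NI.exists_space (ν := N) hK B
  have hrel : ∀ n i j, x n j ≠ 0 → ∃ P : MvPolynomial (Fin 2) k, P ≠ 0 ∧ P.totalDegree ≤ D ∧
      aeval ![(⟨t, htK⟩ : K₀), x n i / x n j] P = 0 := by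
    intro n i j hj
    obtain ⟨P, h1, h2, h3⟩ := hD n i j fun h => hj (Subtype.ext h)
    refine ⟨P, h1, h2, ?_⟩
    have h4 : (fun l => K₀.val ((![(⟨t, htK⟩ : K₀), x n i / x n j] : Fin 2 → K₀) l)) =
        ![t, itr f a n i / itr f a n j] := by
      funext l
      fin_cases l
      · rfl
      · rfl
    have h5 : K₀.val (aeval ![(⟨t, htK⟩ : K₀), x n i / x n j] P) = 0 := by
      rw [comp_aeval_apply, h4, h3]
    exact Subtype.ext h5
  choose c hc0 hc using fun n => hLx (x n) (hx0 n) (hB (x n) (hx0 n) (hrel n))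
  let b := Module.finBasis k L
  refine ⟨Module.finrank k L, fun l => ((b l : L) : K₀), fun n i l => (b.repr ⟨_, hc n i⟩ l : k),
    fun n => (c n : T), fun n i l => (b.repr ⟨_, hc n i⟩ l).2, fun n h => hc0 n (Subtype.ext h),
    fun n i => ?_⟩
  have h1 := b.sum_repr ⟨c n * x n i, hc n i⟩
  have h2 := congrArg (fun w : L => ((w : K₀) : T)) h1
  simp only at h2
  change ((c n * x n i : K₀) : T) = _
  rw [← h2]
  push_cast
  refine Finset.sum_congr rfl fun l _ => ?_
  rfl

end Pool.Agent.Helper72.NI
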