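import Pool.Agent.Helper72.NI.Pts
import Pool.Agent.Helper45.NI.Trace
import Pool.Agent.Helper33.NI.Lin
import Pool.Agent.Helper36.NI.Alg
import Pool.Agent.Helper36.NI.Unif
import Pool.Agent.Helper88.NI.Place

/-!
# The main theorem on points of bounded height
-/

set_option autoImplicit false

namespace Pool.Agent.Helper72.NI

open MvPolynomial Filter
open Pool.Agent.Helper29.NI (starO starO_le starO_lt exists_ctx)
open Pool.Agent.Helper36.NI (fin_step_of)
open Pool.Agent.Helper88.NI (exists_good_place)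
open Pool.Agent.Helper33.NI (linear_step)

section

variable {T : Type} [Field T] [CharZero T] {k : Subfield T} {t : T} {N d : ℕ}
  {f φ : Fin (N + 1) → MvPolynomial (Fin (N + 1)) T} {O : ValuationSubring T}
  {a b : Fin (N + 1) → T}

/-- The generic point and its reduction are algebraic over each other. -/
theorem Dat.alg (D : Dat k t d f φ O a b) {U : Ultrafilter ℕ} (hU : GenU (itr f a) U) :
    ∃ i₀ : Fin (N + 1), (∀ᶠ n in (U : Filter ℕ), itr φ b n i₀ ≠ 0) ∧
      (∀ᶠ n in (U : Filter ℕ), itr f a n i₀ ≠ 0) ∧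
      Pt (starO U O).valuation (star U k) (gpt U f a i₀) (gpt U φ b i₀) i₀ ∧
      Gen (cst (E := T) U).fieldRange (gpt U f a i₀) ∧
      (∀ i, gpt U f a i₀ i ∈ acl ((k.map (cst U) : Set (Up U T)) ∪
        Set.range (gpt U φ b i₀)) ⊔ (cst (E := T) U).fieldRange) ∧
      Low (acl ((k.map (cst U) : Set (Up U T)) ∪ Set.range (gpt U φ b i₀))) (cst U t)
        (fun i => map (cst U) (f i)) (gpt U f a i₀) ∧
      Gen (cst (E := T) U).fieldRange (gpt U φ b i₀) ∧
      ∀ i, gpt U φ b i₀ i ∈ acl (((cst (E := T) U).fieldRange : Set (Up U T)) ∪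
        Set.range (gpt U f a i₀)) := by
  obtain ⟨i₀, h1, h2, hpt, hgx, hlow, W, hW, hx⟩ := D.gpt_spec hU
  have c := D.ctx hU
  have := c.algE
  have := c.algΩ
  have hx' := descend_all growth_all c hpt W hW hx hlow
  set x := gpt U f a i₀ with hxdef
  set y := gpt U φ b i₀ with hydef
  set K : Subfield (Up U T) := (cst (E := T) U).fieldRange with hK
  set κ := acl ((k.map (cst U) : Set (Up U T)) ∪ Set.range y) with hκ
  have hκalg : IsAlgClosed κ := isAlgClosed_acl _
  have hkκ : k.map (cst U) ≤ κ := fun a ha => subset_acl _ (Or.inl ha)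
  have hSΩ : (k.map (cst U) : Set (Up U T)) ∪ Set.range y ⊆ star U k := by
    refine Set.union_subset c.kΩ ?_
    rintro _ ⟨i, rfl⟩
    exact hpt.mem i
  have hκΩ : κ ≤ star U k := acl_le_self hSΩ
  have hxt : ∀ i, x i ∈ acl (insert (cst U t) (κ : Set (Up U T))) := by
    intro i
    have h3 : κ ⊔ K ≤ acl (insert (cst U t) (κ : Set (Up U T))) := by
      refine sup_le (fun z hz => subset_acl _ (Set.mem_insert_of_mem _ hz)) fun z hz => ?_
      exact acl_mono (Set.insert_subset_insert hkκ) (c.Kt z hz)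
    exact h3 (hx' i)
  have hlow' := c.low_descend hkκ hκΩ hxt hlow
  have hxK : ∀ i, x i ∈ acl ((K : Set (Up U T)) ∪ Set.range y) := by
    intro i
    have h3 : κ ⊔ K ≤ acl ((K : Set (Up U T)) ∪ Set.range y) := by
      refine sup_le (acl_mono (Set.union_subset_union_left _ c.kK)) fun z hz => ?_
      exact subset_acl _ (Or.inl hz)
    exact h3 (hx' i)
  obtain ⟨h4, h5⟩ := alg_of_gen hpt.x1 hpt.y1 hgx hxK
  exact ⟨i₀, h1, h2, hpt, hgx, hx', hlow', h4, h5⟩

/-- Quotients of coordinates of the reduction are algebraic over the generic point. -/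
theorem Dat.halg (D : Dat k t d f φ O a b) (i l : Fin (N + 1)) (U : Ultrafilter ℕ)
    (hU : ∀ (e : ℕ) (H : MvPolynomial (Fin (N + 1)) T), H.IsHomogeneous e → H ≠ 0 →
      ∀ᶠ n in (U : Filter ℕ), eval (itr f a n) H ≠ 0) (i₁ : Fin (N + 1)) :
    (gm U fun n => itr φ b n i / itr φ b n l) ∈
      acl (((cst (E := T) U).fieldRange : Set (Up U T)) ∪
        Set.range fun j => gm U fun n => itr f a n j / itr f a n i₁) := by
  obtain ⟨i₀, h1, h2, hpt, -, -, -, -, h5⟩ := D.alg hU
  have h3 : (gm U fun n => itr φ b n i / itr φ b n l) = gpt U φ b i₀ i / gpt U φ b i₀ l := by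
    unfold gpt
    rw [← gm_div, gm_eq]
    filter_upwards [h1] with n hn
    rw [div_div_div_cancel_right₀ hn]
  have h6 : ∀ᶠ n in (U : Filter ℕ), itr f a n i₁ ≠ 0 := by
    have := hU 1 (X i₁) (isHomogeneous_X _ _) (X_ne_zero _)
    simpa only [eval_X] using this
  have h7 : acl (((cst (E := T) U).fieldRange : Set (Up U T)) ∪ Set.range (gpt U f a i₀)) ≤
      acl (((cst (E := T) U).fieldRange : Set (Up U T)) ∪
        Set.range fun j => gm U fun n => itr f a n j / itr f a n i₁) := by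
    apply acl_le
    rintro z (hz | ⟨j, rfl⟩)
    · exact subset_acl _ (Or.inl hz)
    · have h8 : gpt U f a i₀ j = (gm U fun n => itr f a n j / itr f a n i₁) /
          gm U fun n => itr f a n i₀ / itr f a n i₁ := by
        unfold gpt
        rw [← gm_div, gm_eq]
        filter_upwards [h6] with n hn
        rw [div_div_div_cancel_right₀ hn]
      rw [h8]
      exact div_mem (subset_acl _ (Or.inr ⟨j, rfl⟩)) (subset_acl _ (Or.inr ⟨i₀, rfl⟩))
  rw [h3]
  exact h7 (div_mem (h5 i) (h5 l))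

/-- The uniform equations for the reduction. -/
theorem Dat.unif (D : Dat k t d f φ O a b) {U : Ultrafilter ℕ} (hU : GenU (itr f a) U)
    {i₀ : Fin (N + 1)} (h1 : ∀ᶠ n in (U : Filter ℕ), itr φ b n i₀ ≠ 0)
    (h2 : ∀ᶠ n in (U : Filter ℕ), itr f a n i₀ ≠ 0) :
    Unif (cst (E := T) U).fieldRange (fun i => map (cst U) (f i)) (fun i => map (cst U) (φ i))
      (gpt U f a i₀) (gpt U φ b i₀) := by
  intro i l
  obtain ⟨q, e, P, e', H, hP, hH, hH0, hsp⟩ := exists_unif (x := itr f a) (y := itr φ b)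
    (itr_ne_zero D.endf D.a0) D.dense i l (D.halg i l)
  refine ⟨q, e, fun s => map (cst U) (P s), fun s => (hP s).map _, fun s m => ?_, fun n => ?_⟩
  · rw [coeff_map]
    exact ⟨_, rfl⟩
  have hsh := D.shift hU n e' H hH hH0
  have hev : ∀ s, eval (itr (fun i => map (cst U) (f i)) (gpt U f a i₀) n) (map (cst U) (P s)) =
      gm U fun m => (((itr f a m i₀)⁻¹) ^ d ^ n) ^ e * eval (itr f a (m + n)) (P s) := fun s =>
    eval_gpt D.endf i₀ n (hP s)
  constructor
  · obtain ⟨s, hs⟩ := exists_eventually (U := U)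
      (p := fun s m => eval (itr f a (m + n)) (P s) ≠ 0) (by
        filter_upwards [hsh] with m hm
        exact (hsp (m + n) hm).1)
    refine ⟨s, ?_⟩
    rw [hev, Ne, gm_eq_zero, ← Ultrafilter.eventually_not]
    filter_upwards [hs, h2] with m hm hm'
    exact mul_ne_zero (pow_ne_zero _ (pow_ne_zero _ (inv_ne_zero hm'))) hm
  · have hy : itr (fun i => map (cst U) (φ i)) (gpt U φ b i₀) n i /
        itr (fun i => map (cst U) (φ i)) (gpt U φ b i₀) n l =
        gm U fun m => itr φ b (m + n) i / itr φ b (m + n) l := by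
      rw [itr_gpt D.endφ]
      simp only [← gm_div]
      rw [gm_eq]
      filter_upwards [h1] with m hm
      rw [mul_div_mul_left _ _ (pow_ne_zero _ (inv_ne_zero hm))]
    simp only [hev, hy, ← gm_pow, ← gm_mul]
    rw [← gm_sum, gm_eq_zero]
    filter_upwards [hsh] with m hm
    have h3 := (hsp (m + n) hm).2
    simp only [mul_assoc]
    rw [← Finset.mul_sum, h3, mul_zero]

/-- A generic limit of the orbit of `a` is the image of the orbit of `b` under a matrix. -/
theorem Dat.matrix (D : Dat k t d f φ O a b) {U : Ultrafilter ℕ} (hU : GenU (itr f a) U) :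
    ∃ g : Matrix (Fin (N + 1)) (Fin (N + 1)) T, g.det ≠ 0 ∧
      ∀ᶠ n in (U : Filter ℕ), ∃ c : T, c ≠ 0 ∧ itr f a n = c • g.mulVec (itr φ b n) := by
  obtain ⟨i₀, h1, h2, hpt, hgx, hx, hlow, hgy, hya⟩ := D.alg hU
  have c := D.ctx hU
  have hy := y_rational growth_all c hpt hx hlow hya (D.unif hU h1 h2)
  have hx' := trace_step c hpt hgx hgy hx hy
  obtain ⟨g, β, hg, hdet, hβ, hxy⟩ := linear_step growth_all c hpt hgx hgy hx' hlow
  choose g₁ hg₁ using hg
  obtain ⟨g', hg'⟩ : ∃ g' : Matrix (Fin (N + 1)) (Fin (N + 1)) T, ∀ i j,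
      cst (E := T) U (g' i j) = g i j := ⟨g₁, hg₁⟩
  obtain ⟨B, hB⟩ := gm_surj β
  refine ⟨g', ?_, ?_⟩
  · intro h0
    apply hdet
    have h3 : g = (cst (E := T) U).mapMatrix g' := by
      ext i j
      exact (hg' i j).symm
    rw [h3, ← RingHom.map_det, h0, map_zero]
  · have h3 : ∀ i, ∀ᶠ n in (U : Filter ℕ), itr f a n i / itr f a n i₀ =
        B n * ∑ j, g' i j * (itr φ b n j / itr φ b n i₀) := by
      intro i
      rw [← gm_eq]
      have h4 := congrFun hxy i
      rw [Pi.smul_apply, smul_eq_mul] at h4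
      change gm U (fun n => itr f a n i / itr f a n i₀) = _ at h4
      rw [h4, gm_mul, hB, gm_sum]
      congr 1
      change ∑ j, g i j * gpt U φ b i₀ j = _
      refine Finset.sum_congr rfl fun j _ => ?_
      rw [gm_mul, ← hg' i j]
      rfl
    rw [← eventually_all] at h3
    filter_upwards [h1, h2, h3] with n hn1 hn2 hn3
    have h5 : itr f a n = (itr f a n i₀ * B n / itr φ b n i₀) • g'.mulVec (itr φ b n) := by
      funext i
      have h6 := hn3 i
      rw [div_eq_iff hn2] at h6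
      rw [h6, Pi.smul_apply, smul_eq_mul]
      change _ = _ * ∑ j, g' i j * itr φ b n j
      rw [Finset.mul_sum, Finset.mul_sum, Finset.sum_mul]
      refine Finset.sum_congr rfl fun j _ => ?_
      field_simp
    refine ⟨_, ?_, h5⟩
    intro h0
    rw [h0, zero_smul] at h5
    exact itr_ne_zero D.endf D.a0 n h5

/-- Finitely many matrices are enough off a hypersurface. -/
theorem Dat.finite (D : Dat k t d f φ O a b) :
    ∃ (G : Finset (Matrix (Fin (N + 1)) (Fin (N + 1)) T)) (e₀ : ℕ)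
      (H₀ : MvPolynomial (Fin (N + 1)) T), (∀ g ∈ G, g.det ≠ 0) ∧ H₀.IsHomogeneous e₀ ∧ H₀ ≠ 0 ∧
      ∀ n, eval (itr f a n) H₀ = 0 ∨
        ∃ g ∈ G, ∃ c : T, c ≠ 0 ∧ itr f a n = c • g.mulVec (itr φ b n) := by
  classical
  by_contra hcon
  push Not at hcon
  let I := {H : MvPolynomial (Fin (N + 1)) T // H ≠ 0 ∧ ∃ e, H.IsHomogeneous e} ×
    {G : Finset (Matrix (Fin (N + 1)) (Fin (N + 1)) T) // ∀ g ∈ G, g.det ≠ 0}
  let S : I → Set ℕ := fun p => {n | eval (itr f a n) p.1.1 ≠ 0 ∧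
    ∀ g ∈ p.2.1, ∀ c : T, c ≠ 0 → itr f a n ≠ c • g.mulVec (itr φ b n)}
  have hS : ∀ p, (S p).Nonempty := by
    rintro ⟨⟨H, h1, e, he⟩, ⟨G, hG⟩⟩
    obtain ⟨n, hn1, hn2⟩ := hcon G e H hG he h1
    exact ⟨n, hn1, hn2⟩
  have : Nonempty I := ⟨⟨1, one_ne_zero, 0, isHomogeneous_one _ _⟩, ⟨∅, by simp⟩⟩
  have hne : (⨅ p : I, 𝓟 (S p)).NeBot := by
    apply iInf_neBot_of_directed'
    · rintro ⟨⟨H, h1, e, he⟩, ⟨G, hG⟩⟩ ⟨⟨H', h1', e', he'⟩, ⟨G', hG'⟩⟩
      refine ⟨⟨⟨H * H', mul_ne_zero h1 h1', e + e', he.mul he'⟩, ⟨G ∪ G', ?_⟩⟩, ?_, ?_⟩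
      · intro g hg
        rcases Finset.mem_union.1 hg with h | h
        · exact hG g h
        · exact hG' g h
      · refine principal_mono.2 fun n hn => ⟨fun h => hn.1 ?_, fun g hg => hn.2 g ?_⟩
        · change eval (itr f a n) (H * H') = 0
          change eval (itr f a n) H = 0 at h
          rw [map_mul, h, zero_mul]
        · exact Finset.mem_union_left _ hg
      · refine principal_mono.2 fun n hn => ⟨fun h => hn.1 ?_, fun g hg => hn.2 g ?_⟩
        · change eval (itr f a n) (H * H') = 0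
          change eval (itr f a n) H' = 0 at h
          rw [map_mul, h, mul_zero]
        · exact Finset.mem_union_right _ hg
    · intro p
      rw [principal_neBot_iff]
      exact hS p
  have hmem : ∀ p : I, ∀ᶠ n in (Ultrafilter.of (⨅ p : I, 𝓟 (S p)) : Filter ℕ), n ∈ S p :=
    fun p => (Ultrafilter.of_le _).trans (iInf_le _ p) (mem_principal_self _)
  set U : Ultrafilter ℕ := Ultrafilter.of (⨅ p : I, 𝓟 (S p)) with hUdef
  have hU : GenU (itr f a) U := by
    intro e H he h1
    filter_upwards [hmem ⟨⟨H, h1, e, he⟩, ⟨∅, by simp⟩⟩] with n hn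
    exact hn.1
  obtain ⟨g, hg, hev⟩ := D.matrix hU
  have h3 := hmem ⟨⟨1, one_ne_zero, 0, isHomogeneous_one _ _⟩, ⟨{g}, by simpa using hg⟩⟩
  obtain ⟨n, ⟨c, hc, hn⟩, hn'⟩ := (hev.and h3).exists
  exact hn'.2 g (Finset.mem_singleton_self g) c hc hn

end

/-- **The core theorem.** An endomorphism with a dense orbit of bounded height is constant. -/
theorem core_main (T : Type) [Field T] [IsAlgClosed T] [CharZero T] (k : Subfield T)
    [IsAlgClosed k] (hcount : (k : Set T).Countable) (t : T) (ht : t ∉ k)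
    (hT : ∀ z : T, z ∈ acl (insert t (k : Set T))) (N d : ℕ) (hN : 1 ≤ N)
    (f : Fin (N + 1) → MvPolynomial (Fin (N + 1)) T) (hf : Endo ⊤ d f)
    (a : Fin (N + 1) → T) (ha : a ≠ 0) (hlow : Low k t f a)
    (hdense : ∀ (e : ℕ) (H : MvPolynomial (Fin (N + 1)) T), H.IsHomogeneous e → H ≠ 0 →
      ∃ n, eval (itr f a n) H ≠ 0) :
    ∃ (g : Matrix (Fin (N + 1)) (Fin (N + 1)) T)
      (ψ : Fin (N + 1) → MvPolynomial (Fin (N + 1)) T), g.det ≠ 0 ∧
      (∀ i, (ψ i).IsHomogeneous d) ∧ (∀ i m, (ψ i).coeff m ∈ k) ∧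
      ∀ z : Fin (N + 1) → T, z ≠ 0 → ∃ c : T, c ≠ 0 ∧
        stp f (g.mulVec z) = c • g.mulVec (stp ψ z) := by
  classical
  obtain ⟨O, φ, hk, hres, hφ, hint, hred⟩ := exists_good_place ht hT hf
  obtain ⟨i₁, -, hmax⟩ := Finset.exists_max_image Finset.univ (fun i => O.valuation (a i))
    ⟨0, Finset.mem_univ _⟩
  have hi₁ : a i₁ ≠ 0 := by
    intro h0
    apply ha
    funext i
    have h1 := hmax i (Finset.mem_univ _)
    rw [h0, map_zero, le_zero_iff, map_eq_zero] at h1
    exact h1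
  set s : T := (a i₁)⁻¹ with hs
  have hs0 : s ≠ 0 := inv_ne_zero hi₁
  have hint' : ∀ i, O.valuation ((s • a) i) ≤ 1 := by
    intro i
    rw [Pi.smul_apply, smul_eq_mul, hs, ← div_eq_inv_mul, map_div₀]
    exact div_le_one_of_le₀ (hmax i (Finset.mem_univ _)) zero_le
  choose b hbk hb using fun i => hres _ (hint' i)
  have hs1 : (s • a) i₁ = 1 := by
    rw [Pi.smul_apply, smul_eq_mul, hs, inv_mul_cancel₀ hi₁]
  have hb0 : b ≠ 0 := by
    intro h0
    have h1 := hb i₁
    rw [h0, hs1, Pi.zero_apply, sub_zero, map_one] at h1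
    exact lt_irrefl _ h1
  have hD : Dat k t d f φ O (s • a) b :=
    { algT := inferInstance
      algk := inferInstance
      countk := hcount
      tk := ht
      hT := hT
      one_le := hN
      endf := hf
      endφ := hφ
      valk := hk
      res := hres
      int := hint
      red := hred
      a0 := smul_ne_zero hs0 ha
      b0 := hb0
      bk := hbk
      cg := fun i => ⟨hint' i, hk _ (hbk i), hb i⟩
      low := hlow.smul hf hs0
      dense := fun e H hH hH0 => by
        obtain ⟨n, hn⟩ := hdense e H hH hH0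
        refine ⟨n, ?_⟩
        rw [itr_smul hf, eval_smul_hom hH]
        exact mul_ne_zero (pow_ne_zero _ (pow_ne_zero _ hs0)) hn }
  obtain ⟨G, e₀, H₀, hG, hH₀, hH₀', hfin⟩ := hD.finite
  exact fin_step_of ht hT hN (fun ζ hζ hζl => growth_all T k t ht N d φ hφ ζ hζ hζl) hf hφ
    (x := itr f (s • a)) (y := itr φ b) (itr_ne_zero hf hD.a0)
    (fun n => ⟨1, one_ne_zero, by rw [one_smul, itr_succ]⟩)
    (fun n => ⟨1, one_ne_zero, by rw [one_smul, itr_succ]⟩) hD.dense G hG hH₀ hH₀' hfin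

end Pool.Agent.Helper72.NI
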