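import Pool.Agent.Helper72.NI.Lead

/-!
# Residues
-/

set_option autoImplicit false

namespace Pool.Agent.Helper72.NI

open Polynomial Polynomial.Bivariate

section

variable {E : Type} [Field E] {Γ : Type} [LinearOrderedCommGroupWithZero Γ] {v : Valuation E Γ}

theorem val_one_of_mem {F : Subfield E} (h : ∀ b ∈ F, v b ≤ 1) {b : E} (hb : b ∈ F)
    (hb0 : b ≠ 0) : v b = 1 :=
  val_eq_one (ι := RingHom.id E) h hb hb0

/-- Uniqueness of reductions in a compositum. -/
theorem up {Z : Subfield E} {k κ K : Subfield E} (hkK : k ≤ K) (hkκ : k ≤ κ) (hKZ : K ≤ Z)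
    (hκZ : κ ≤ Z) (ι : Z →+* E) (hK : ∀ a : Z, (a : E) ∈ K → ι a = a)
    (hres : ∀ a ∈ K, v a ≤ 1 → ∃ c ∈ k, v (a - c) < 1) (hκ : ∀ b ∈ κ, v b ≤ 1)
    (hικ : ∀ b : Z, (b : E) ∈ κ → v (ι b) ≤ 1) {z : Z} (hz : (z : E) ∈ κ ⊔ K)
    (hz1 : v z ≤ 1) : ∃ c : Z, (c : E) ∈ κ ∧ v ((z : E) - c) < 1 ∧ v (ι z - ι c) < 1 := by
  by_cases hz0 : z = 0
  · exact ⟨0, by exact zero_mem κ, by simp [hz0], by simp [hz0]⟩
  set A : Subfield Z := K.comap Z.subtype with hA
  set B : Subfield Z := κ.comap Z.subtype with hB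
  set R : Subfield Z := k.comap Z.subtype with hR
  have hmap : ∀ F : Subfield E, F ≤ Z → (F.comap Z.subtype).map Z.subtype = F := by
    intro F hF
    ext x
    constructor
    · rintro ⟨y, hy, rfl⟩
      exact hy
    · intro hx
      exact ⟨⟨x, hF hx⟩, hx, rfl⟩
  have hzAB : z ∈ A ⊔ B := by
    have h1 : (A ⊔ B).map Z.subtype = K ⊔ κ := by
      rw [Subfield.map_sup, hmap K hKZ, hmap κ hκZ]
    have h2 : (z : E) ∈ (A ⊔ B).map Z.subtype := by
      rw [h1, sup_comm]
      exact hz
    obtain ⟨y, hy, hyz⟩ := h2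
    have : y = z := Subtype.ext hyz
    rwa [← this]
  obtain ⟨a, ha, b, hb, h1, h2⟩ := lead (v := v) (A := A) (B := B) (R := R) (ι₁ := Z.subtype)
    (ι₂ := ι) (fun x hx => hkK hx) (fun x hx => hkκ hx) (fun a ha => (hK a ha).symm)
    (fun a ha h => by
      obtain ⟨c, hc, h'⟩ := hres _ ha h
      exact ⟨⟨c, hκZ (hkκ hc)⟩, hc, h'⟩) (fun b hb => hκ _ hb) (fun b hb => hικ b hb) hzAB hz0
  have hab0 : a * b ≠ 0 := by
    intro h0
    have := h1.ne'
    rw [h0, map_zero] at this
    exact this rfl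
  have hb0 : b ≠ 0 := right_ne_zero_of_mul hab0
  have hvb : v (b : E) = 1 := val_one_of_mem hκ hb (fun h => hb0 (Subtype.ext h))
  have hvιb : v (ι b) = 1 := val_eq_one (F := B) (ι := ι) (fun x hx => hικ x hx) hb hb0
  have hva : v (a : E) ≤ 1 := by
    have h3 := h1.val
    change v (z : E) = v ((a : E) * b) at h3
    rw [map_mul, hvb, mul_one] at h3
    rw [← h3]
    exact hz1
  obtain ⟨c, hc, hc1⟩ := hres a ha hva
  have hcκ : c ∈ κ := hkκ hc
  let c' : Z := ⟨c, hκZ hcκ⟩
  have hιc : ι c' = c := hK c' (hkK hc)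
  refine ⟨c' * b, mul_mem hcκ hb, ?_, ?_⟩
  · have h3 : (z : E) - (c' * b : Z) = ((z : E) - a * b) + (a - c) * b := by
      push_cast
      ring
    rw [h3]
    refine lt_of_le_of_lt (v.map_add _ _) (max_lt ?_ ?_)
    · refine lt_of_lt_of_le (show v ((z : E) - a * b) < v ((a : E) * b) from h1) ?_
      rw [map_mul, hvb, mul_one]
      exact hva
    · rw [map_mul, hvb, mul_one]
      exact hc1
  · have h3 : ι z - ι (c' * b) = (ι z - ι (a * b)) + (ι a - ι c') * ι b := by
      rw [map_mul, map_mul]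
      ring
    rw [h3]
    refine lt_of_le_of_lt (v.map_add _ _) (max_lt ?_ ?_)
    · refine lt_of_lt_of_le h2 ?_
      rw [map_mul, map_mul, hvιb, mul_one, hK a ha]
      exact hva
    · rw [map_mul, hvιb, mul_one, hK a ha, hιc]
      exact hc1

/-- The version without an embedding. -/
theorem up_id {k κ K : Subfield E} (hkK : k ≤ K) (hkκ : k ≤ κ)
    (hres : ∀ a ∈ K, v a ≤ 1 → ∃ c ∈ k, v (a - c) < 1) (hκ : ∀ b ∈ κ, v b ≤ 1) {z : E}
    (hz : z ∈ κ ⊔ K) (hz1 : v z ≤ 1) : ∃ c ∈ κ, v (z - c) < 1 := by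
  obtain ⟨c, hc, h, -⟩ := up (Z := ⊤) hkK hkκ le_top le_top (Subfield.subtype ⊤)
    (fun a _ => rfl) hres hκ (fun b hb => hκ _ hb) (z := ⟨z, trivial⟩) hz hz1
  exact ⟨c, hc, h⟩

end

section

variable {E : Type} [Field E] [CharZero E]

/-- Existence of valuations. -/
theorem exists_valuation (F : Subfield E) (hF : acl (F : Set E) = F) {w : E} (hw : w ∉ F) :
    ∃ O : ValuationSubring E, (∀ b ∈ F, O.valuation b ≤ 1) ∧ O.valuation w < 1 := by
  have hw0 : w ≠ 0 := by
    rintro rfl
    exact hw (zero_mem F)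
  have hwi : w⁻¹ ∉ F.toSubring := by
    intro h
    apply hw
    have := inv_mem (show w⁻¹ ∈ F from h)
    rwa [inv_inv] at this
  have hic : IsIntegrallyClosedIn F.toSubring E := by
    rw [Subring.isIntegrallyClosedIn_iff]
    intro x hx
    change x ∈ F
    rw [← hF, mem_acl]
    exact (show IsIntegral F x from hx).isAlgebraic
  obtain ⟨V, hV, hwV⟩ := Subring.exists_le_valuationSubring_of_isIntegrallyClosedIn hwi
  refine ⟨V, fun b hb => (V.valuation_le_one_iff b).2 (hV hb), ?_⟩
  rw [← V.valuation_le_one_iff, not_le, map_inv₀] at hwV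
  have h1 : V.valuation w ≠ 0 := by
    rw [Ne, map_eq_zero]
    exact hw0
  exact (one_lt_inv₀ (zero_lt_iff.2 h1)).1 hwV

variable {Γ : Type} [LinearOrderedCommGroupWithZero Γ] {v : Valuation E Γ}

/-- **Residues.** -/
theorem exists_residue {F : Subfield E} [IsAlgClosed F] (hF : ∀ b ∈ F, v b ≤ 1) {w m : E}
    (hm : m ∈ acl (insert w (F : Set E))) (hm0 : m ≠ 0) (hm1 : v m < 1) {z : E}
    (hz : z ∈ acl (insert w (F : Set E))) (hz1 : v z ≤ 1) : ∃ c ∈ F, v (z - c) < 1 := by
  classical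
  have hmF : m ∉ acl (F : Set E) := by
    rw [acl_eq_self]
    intro h
    exact hm1.ne (val_one_of_mem hF h hm0)
  have hzm : z ∈ acl (insert m (F : Set E)) := by
    refine acl_le ?_ hz
    rintro x (rfl | hx)
    · exact exchange hm hmF
    · exact subset_acl _ (Set.mem_insert_of_mem _ hx)
  obtain ⟨D, hD⟩ := exists_rel hzm
  have hex : ∃ n : ℕ, ∃ p : F[X][Y], p.natDegree = n ∧ p ≠ 0 ∧
      (p.map (aeval z : F[X] →ₐ[F] E).toRingHom).eval m = 0 := by
    obtain ⟨p, h1, h2⟩ := rel_iff.1 ⟨D, hD.symm⟩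
    exact ⟨_, p, rfl, h1, h2⟩
  obtain ⟨p, hpn, hp0, hp⟩ := Nat.find_spec hex
  have hmin := fun j (hj : j < Nat.find hex) => Nat.find_min hex hj
  -- the constant term is not zero
  have hc0 : p.coeff 0 ≠ 0 := by
    intro h0
    have h1 : p = p.divX * X := by
      have := p.divX_mul_X_add
      rw [h0, C_0, add_zero] at this
      exact this.symm
    have hd0 : p.divX ≠ 0 := by
      intro h
      rw [h, zero_mul] at h1
      exact hp0 h1
    have hdeg : p.divX.natDegree < p.natDegree := by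
      conv_rhs => rw [h1]
      rw [natDegree_mul_X hd0]
      omega
    rw [hpn] at hdeg
    refine hmin _ hdeg ⟨p.divX, rfl, hd0, ?_⟩
    rw [h1, Polynomial.map_mul, map_X, eval_mul, eval_X] at hp
    exact (mul_eq_zero.1 hp).resolve_right hm0
  -- the value of the constant term is small
  have hcoef : ∀ q : F[X], v (aeval z q) ≤ 1 := by
    intro q
    rw [aeval_eq_sum_range]
    refine Valuation.map_sum_le v fun i _ => ?_
    rw [Algebra.smul_def, map_mul, map_pow]
    exact mul_le_one' (hF _ (q.coeff i).2) (pow_le_one' hz1 i)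
  have hsmall : v (aeval z (p.coeff 0)) < 1 := by
    have h1 : (p.map (aeval z : F[X] →ₐ[F] E).toRingHom).eval m =
        (p.divX.map (aeval z : F[X] →ₐ[F] E).toRingHom).eval m * m + aeval z (p.coeff 0) := by
      conv_lhs => rw [← p.divX_mul_X_add]
      rw [Polynomial.map_add, Polynomial.map_mul, map_X, map_C, eval_add, eval_mul, eval_X,
        eval_C]
      rfl
    rw [hp] at h1
    have h2 : aeval z (p.coeff 0) =
        -((p.divX.map (aeval z : F[X] →ₐ[F] E).toRingHom).eval m * m) := by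
      linear_combination -h1
    rw [h2, Valuation.map_neg, map_mul]
    have h3 : v ((p.divX.map (aeval z : F[X] →ₐ[F] E).toRingHom).eval m) ≤ 1 := by
      rw [eval_eq_sum_range]
      refine Valuation.map_sum_le v fun i _ => ?_
      rw [coeff_map, map_mul, map_pow]
      exact mul_le_one' (hcoef _) (pow_le_one' hm1.le i)
    calc _ ≤ 1 * v m := mul_le_mul_left h3 _
      _ = v m := one_mul _
      _ < 1 := hm1
  -- the constant term splits
  have hsplit := IsAlgClosed.splits (p.coeff 0)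
  have hprod : ∀ s : Multiset F, v ((s.map fun a : F => z - (a : E)).prod) < 1 →
      ∃ c ∈ F, v (z - c) < 1 := by
    intro s
    induction s using Multiset.induction_on with
    | empty => intro h; simp at h
    | cons a s ih =>
      intro h
      rw [Multiset.map_cons, Multiset.prod_cons, map_mul] at h
      by_cases ha : v (z - (a : E)) < 1
      · exact ⟨a, a.2, ha⟩
      · apply ih
        have h4 : v (z - (a : E)) = 1 := by
          refine le_antisymm ?_ (not_lt.1 ha)
          exact (Valuation.map_sub v _ _).trans (max_le hz1 (hF _ a.2))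
        rwa [h4, one_mul] at h
  apply hprod (p.coeff 0).roots
  have h5 := hsplit.eq_prod_roots
  have h6 : aeval z (p.coeff 0) = ((p.coeff 0).leadingCoeff : E) *
      ((p.coeff 0).roots.map fun a : F => z - (a : E)).prod := by
    conv_lhs => rw [h5]
    rw [map_mul, aeval_C, map_multiset_prod, Multiset.map_map]
    congr 2
    refine Multiset.map_congr rfl fun a _ => ?_
    simp only [Function.comp, map_sub, aeval_X, aeval_C]
    rfl
  rw [h6, map_mul, val_one_of_mem hF (p.coeff 0).leadingCoeff.2 (by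
    intro h
    exact hc0 (leadingCoeff_eq_zero.1 (Subtype.ext h))), one_mul] at hsmall
  exact hsmall

/-- **Rational closure.** -/
theorem mem_sup_of_algebraic {F K : Subfield E} [IsAlgClosed F] {w : E}
    (hw : w ∉ acl ((F : Set E) ∪ K)) {z : E} (hz : z ∈ acl (insert w (F : Set E)) ⊔ K)
    (hza : z ∈ acl ((F : Set E) ∪ K)) : z ∈ F ⊔ K := by
  by_cases hz0 : z = 0
  · rw [hz0]
    exact zero_mem _
  obtain ⟨O, hO, hOw⟩ := exists_valuation (acl ((F : Set E) ∪ K)) (acl_acl _) hw
  have hF3 : F ≤ acl ((F : Set E) ∪ K) := fun x hx => subset_acl _ (Or.inl hx)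
  have hK3 : K ≤ acl ((F : Set E) ∪ K) := fun x hx => subset_acl _ (Or.inr hx)
  have hw0 : w ≠ 0 := by
    rintro rfl
    exact hw (zero_mem _)
  obtain ⟨a, ha, b, hb, h1, -⟩ := lead (v := O.valuation) (A := acl (insert w (F : Set E)))
    (B := F ⊔ K) (R := F) (ι₁ := RingHom.id E) (ι₂ := RingHom.id E)
    (fun x hx => subset_acl _ (Set.mem_insert_of_mem _ hx)) le_sup_left (fun _ _ => rfl)
    (fun a ha h => exists_residue (fun b hb => hO b (hF3 hb)) (subset_acl _ (Set.mem_insert _ _))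
      hw0 hOw ha h) (fun b hb => hO b (sup_le hF3 hK3 hb)) (fun b hb => hO b (sup_le hF3 hK3 hb))
    (z := z) ((sup_le_sup_left (le_sup_right : K ≤ F ⊔ K) _) hz) hz0
  have h1' : O.valuation (z - a * b) < O.valuation (a * b) := h1
  have hb3 : b ∈ acl ((F : Set E) ∪ K) := sup_le hF3 hK3 hb
  have hb0 : b ≠ 0 := by
    rintro rfl
    have := h1.ne'
    simp at this
  have hvb := val_one_of_mem hO hb3 hb0
  have hvz := val_one_of_mem hO hza hz0
  have hva : O.valuation a = 1 := by
    have h2 : O.valuation z = O.valuation (a * b) := h1.val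
    rw [map_mul, hvb, mul_one, hvz] at h2
    exact h2.symm
  obtain ⟨c, hc, hc1⟩ := exists_residue (fun b hb => hO b (hF3 hb))
    (subset_acl _ (Set.mem_insert _ _)) hw0 hOw ha hva.le
  have h3 : O.valuation (z - c * b) < 1 := by
    have h4 : z - c * b = (z - a * b) + (a - c) * b := by ring
    rw [h4]
    refine lt_of_le_of_lt (Valuation.map_add _ _ _) (max_lt ?_ ?_)
    · rw [map_mul, hva, hvb, one_mul] at h1'
      exact h1'
    · rw [map_mul, hvb, mul_one]
      exact hc1
  have h5 : z - c * b ∈ acl ((F : Set E) ∪ K) := sub_mem hza (mul_mem (hF3 hc) hb3)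
  have h6 : z - c * b = 0 := by
    by_contra h
    exact h3.ne (val_one_of_mem hO h5 h)
  rw [sub_eq_zero.1 h6]
  exact mul_mem ((le_sup_left : F ≤ F ⊔ K) hc) hb

end

end Pool.Agent.Helper72.NI
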