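import Pool.Agent.Helper72.NI.Bdd
import Pool.Agent.Helper72.NI.Res

/-!
# The setting
-/

set_option autoImplicit false

namespace Pool.Agent.Helper72.NI

open MvPolynomial

section

variable {E : Type} [Field E] {N : ℕ}

/-- The map given by the forms `f`. -/
noncomputable def stp (f : Fin (N + 1) → MvPolynomial (Fin (N + 1)) E) (x : Fin (N + 1) → E) :
    Fin (N + 1) → E := fun i => eval x (f i)

/-- The iterates. -/
noncomputable def itr (f : Fin (N + 1) → MvPolynomial (Fin (N + 1)) E) (x : Fin (N + 1) → E)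
    (n : ℕ) : Fin (N + 1) → E := (stp f)^[n] x

theorem itr_zero (f : Fin (N + 1) → MvPolynomial (Fin (N + 1)) E) (x : Fin (N + 1) → E) :
    itr f x 0 = x := rfl

theorem itr_succ (f : Fin (N + 1) → MvPolynomial (Fin (N + 1)) E) (x : Fin (N + 1) → E) (n : ℕ) :
    itr f x (n + 1) = stp f (itr f x n) := Function.iterate_succ_apply' _ _ _

/-- The forms `f` of degree `d ≥ 2`, with coefficients in the subfield `F`, have no common
zero. -/
structure Endo (F : Subfield E) (d : ℕ) (f : Fin (N + 1) → MvPolynomial (Fin (N + 1)) E) :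
    Prop where
  two_le : 2 ≤ d
  hom : ∀ i, (f i).IsHomogeneous d
  coeff : ∀ i m, (f i).coeff m ∈ F
  nz : ∀ x : Fin (N + 1) → E, (∀ i, eval x (f i) = 0) → x = 0

/-- No form over `F` vanishes at `x`. -/
def Gen (F : Subfield E) (x : Fin (N + 1) → E) : Prop :=
  ∀ (e : ℕ) (H : MvPolynomial (Fin (N + 1)) E), H.IsHomogeneous e → (∀ m, H.coeff m ∈ F) →
    H ≠ 0 → eval x H ≠ 0

/-- The heights over `κ` of the iterates of `x` are bounded. -/
def Low (κ : Subfield E) (t : E) (f : Fin (N + 1) → MvPolynomial (Fin (N + 1)) E)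
    (x : Fin (N + 1) → E) : Prop :=
  ∃ D : ℕ, ∀ (n : ℕ) (i j : Fin (N + 1)), itr f x n j ≠ 0 →
    Rel κ t D (itr f x n i / itr f x n j)

end

/-- The setting: a field `E` with a valuation with residue field `Ω ⊆ E`, a subfield `K`,
algebraic over `k(t)`, with residue field `k ⊆ Ω`, and an endomorphism `f` over `K` with
reduction `φ`. -/
structure Ctx {E : Type} [Field E] [CharZero E] {Γ : Type} [LinearOrderedCommGroupWithZero Γ]
    (v : Valuation E Γ) (k K Ω : Subfield E) (t : E) {N : ℕ} (d : ℕ)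
    (f φ : Fin (N + 1) → MvPolynomial (Fin (N + 1)) E) : Prop where
  algE : IsAlgClosed E
  algk : IsAlgClosed k
  algK : IsAlgClosed K
  algΩ : IsAlgClosed Ω
  one_le : 1 ≤ N
  kK : k ≤ K
  kΩ : k ≤ Ω
  tK : t ∈ K
  tΩ : t ∉ Ω
  Kt : ∀ a ∈ K, a ∈ acl (insert t (k : Set E))
  resK : ∀ a ∈ K, v a ≤ 1 → ∃ c ∈ k, v (a - c) < 1
  valΩ : ∀ b ∈ Ω, v b ≤ 1
  resE : ∀ z, v z ≤ 1 → ∃ c ∈ Ω, v (z - c) < 1
  countk : (k : Set E).Countable
  big : ∀ S : Set E, S ⊆ Ω → S.Countable → ∃ τ ∈ Ω, τ ∉ acl S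
  endf : Endo K d f
  endφ : Endo k d φ
  intf : ∀ i m, v ((f i).coeff m) ≤ 1
  red : ∀ i m, v ((f i).coeff m - (φ i).coeff m) < 1

/-- A point `x` with reduction `y`. -/
structure Pt {E : Type} [Field E] {Γ : Type} [LinearOrderedCommGroupWithZero Γ]
    (v : Valuation E Γ) (Ω : Subfield E) {N : ℕ} (x y : Fin (N + 1) → E) (i₀ : Fin (N + 1)) :
    Prop where
  x1 : x i₀ = 1
  y1 : y i₀ = 1
  int : ∀ i, v (x i) ≤ 1
  mem : ∀ i, y i ∈ Ω
  red : ∀ i, v (x i - y i) < 1

end Pool.Agent.Helper72.NI
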