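import Pool.Agent.Helper72.NI.Cong
import Pool.Agent.Helper72.NI.Emb

/-!
# Descent of relations
-/

set_option autoImplicit false

namespace Pool.Agent.Helper72.NI

open MvPolynomial

section

variable {E : Type} [Field E] {Γ : Type} [LinearOrderedCommGroupWithZero Γ] {v : Valuation E Γ}

/-- Linear disjointness. -/
theorem ld {κ F Ω : Subfield E} (hκF : κ ≤ F) (hκΩ : κ ≤ Ω) (hΩ : ∀ b ∈ Ω, v b ≤ 1)
    (hres : ∀ z ∈ F, v z ≤ 1 → ∃ c ∈ κ, v (z - c) < 1) {J : Type} (s : Finset J) :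
    ∀ (a b : J → E), (∀ i, a i ∈ F) → (∀ i, b i ∈ Ω) → (∃ i ∈ s, b i ≠ 0) →
      ∑ i ∈ s, a i * b i = 0 →
      ∃ b' : J → E, (∀ i, b' i ∈ κ) ∧ (∃ i ∈ s, b' i ≠ 0) ∧ ∑ i ∈ s, a i * b' i = 0 := by
  classical
  induction s using Finset.strongInductionOn with
  | _ s ih =>
  intro a b ha hb hne h0
  obtain ⟨j, hj, hbj⟩ := hne
  obtain ⟨l, hl, hmax⟩ := s.exists_max_image (fun i => v (a i)) ⟨j, hj⟩
  by_cases hal : a l = 0
  · have hall : ∀ i ∈ s, a i = 0 := by
      intro i hi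
      have h1 := hmax i hi
      rw [hal, map_zero] at h1
      exact (map_eq_zero v).1 (le_antisymm h1 zero_le)
    refine ⟨fun _ => 1, fun _ => one_mem _, ⟨j, hj, one_ne_zero⟩, ?_⟩
    refine Finset.sum_eq_zero fun i hi => ?_
    rw [hall i hi, zero_mul]
  have hval : v (a l) ≠ 0 := by rwa [Ne, map_eq_zero]
  have hc : ∀ i, ∃ c ∈ κ, i ∈ s → v (a i / a l - c) < 1 := by
    intro i
    by_cases hi : i ∈ s
    · obtain ⟨c, hc, h⟩ := hres (a i / a l) (div_mem (ha i) (ha l)) (by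
        rw [map_div₀]
        exact div_le_one_of_le₀ (hmax i hi) zero_le)
      exact ⟨c, hc, fun _ => h⟩
    · exact ⟨0, zero_mem _, fun h => absurd h hi⟩
  choose c hcR hc using hc
  set β : E := b l + ∑ i ∈ s.erase l, c i * b i with hβ
  have hβΩ : β ∈ Ω := add_mem (hb l) (Subfield.sum_mem _ fun i _ => mul_mem (hκΩ (hcR i)) (hb i))
  set a' : J → E := fun i => a i - c i * a l with ha'
  have ha'F : ∀ i, a' i ∈ F := fun i => sub_mem (ha i) (mul_mem (hκF (hcR i)) (ha l))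
  have hsum : ∑ i ∈ s, a i * b i = a l * β + ∑ i ∈ s.erase l, a' i * b i := by
    rw [← Finset.add_sum_erase s _ hl, hβ, mul_add, Finset.mul_sum, add_assoc,
      ← Finset.sum_add_distrib]
    congr 1
    refine Finset.sum_congr rfl fun i _ => ?_
    rw [ha']
    ring
  have ha'v : ∀ i ∈ s.erase l, v (a' i) < v (a l) := by
    intro i hi
    have h1 := hc i (Finset.mem_of_mem_erase hi)
    have h2 : a' i = (a i / a l - c i) * a l := by
      rw [ha', sub_mul, div_mul_cancel₀ _ hal]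
    rw [h2, map_mul]
    calc v (a i / a l - c i) * v (a l) < 1 * v (a l) :=
          mul_lt_mul_of_pos_right h1 (zero_lt_iff.2 hval)
      _ = _ := one_mul _
  have hβ0 : β = 0 := by
    by_contra hβ0
    have h1 : v (a l * β) = v (a l) := by
      rw [map_mul, val_one_of_mem hΩ hβΩ hβ0, mul_one]
    have h2 : v (∑ i ∈ s.erase l, a' i * b i) < v (a l) := by
      refine Valuation.map_sum_lt v hval fun i hi => ?_
      rw [map_mul]
      calc v (a' i) * v (b i) ≤ v (a' i) * 1 := mul_le_mul_right (hΩ _ (hb i)) _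
        _ = v (a' i) := mul_one _
        _ < _ := ha'v i hi
    rw [hsum] at h0
    have h3 : a l * β = -∑ i ∈ s.erase l, a' i * b i := by linear_combination h0
    rw [h3, Valuation.map_neg] at h1
    exact h2.ne h1
  rw [hsum, hβ0, mul_zero, zero_add] at h0
  have hne' : ∃ i ∈ s.erase l, b i ≠ 0 := by
    by_contra hcon
    push Not at hcon
    have h1 : ∑ i ∈ s.erase l, c i * b i = 0 :=
      Finset.sum_eq_zero fun i hi => by rw [hcon i hi, mul_zero]
    rw [hβ, h1, add_zero] at hβ0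
    by_cases hjl : j = l
    · rw [hjl] at hbj
      exact hbj hβ0
    · exact hbj (hcon j (Finset.mem_erase.2 ⟨hjl, hj⟩))
  obtain ⟨b'', hb'', ⟨i₀, hi₀, hi₀'⟩, h1⟩ := ih (s.erase l) (Finset.erase_ssubset hl) a' b ha'F hb
    hne' h0
  refine ⟨fun i => if i = l then -∑ i ∈ s.erase l, c i * b'' i else b'' i, fun i => ?_,
    ⟨i₀, Finset.mem_of_mem_erase hi₀, ?_⟩, ?_⟩
  · dsimp only
    split_ifs
    · exact neg_mem (Subfield.sum_mem _ fun i _ => mul_mem (hcR i) (hb'' i))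
    · exact hb'' i
  · dsimp only
    rw [if_neg (Finset.ne_of_mem_erase hi₀)]
    exact hi₀'
  · rw [← Finset.add_sum_erase s _ hl]
    simp only [if_true]
    have h2 : ∑ x ∈ s.erase l, a x * (if x = l then -∑ i ∈ s.erase l, c i * b'' i else b'' x) =
        ∑ x ∈ s.erase l, (a' x * b'' x + a l * (c x * b'' x)) := by
      refine Finset.sum_congr rfl fun x hx => ?_
      rw [if_neg (Finset.ne_of_mem_erase hx), ha']
      ring
    rw [h2, Finset.sum_add_distrib, h1, zero_add, ← Finset.mul_sum]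
    ring

/-- Relations descend. -/
theorem relB_descend {κ F Ω : Subfield E} (hκF : κ ≤ F) (hκΩ : κ ≤ Ω) (hΩ : ∀ b ∈ Ω, v b ≤ 1)
    (hres : ∀ z ∈ F, v z ≤ 1 → ∃ c ∈ κ, v (z - c) < 1) {t c : E} (ht : t ∈ F) (hc : c ∈ F)
    {D : ℕ} (h : RelB Ω t D c) : RelB κ t D c := by
  obtain ⟨g, hg, ⟨p₀, hp₀⟩, h0⟩ := h
  obtain ⟨b', h1, ⟨i, -, hi⟩, h3⟩ := ld hκF hκΩ hΩ hres Finset.univ
    (fun p : Fin (D + 1) × Fin (D + 1) => t ^ (p.1 : ℕ) * c ^ (p.2 : ℕ)) g
    (fun p => mul_mem (pow_mem ht _) (pow_mem hc _)) hg ⟨p₀, Finset.mem_univ _, hp₀⟩ (by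
      rw [← h0]
      exact Finset.sum_congr rfl fun p _ => mul_comm _ _)
  refine ⟨b', h1, ⟨i, hi⟩, ?_⟩
  rw [← h3]
  exact Finset.sum_congr rfl fun p _ => mul_comm _ _

end

section

variable {E : Type} [Field E] [CharZero E] {Γ : Type} [LinearOrderedCommGroupWithZero Γ]
  {v : Valuation E Γ} {k K Ω : Subfield E} {t : E} {N d : ℕ}
  {f φ : Fin (N + 1) → MvPolynomial (Fin (N + 1)) E}

/-- A small element algebraic over `k(t)`. -/
theorem Ctx.exists_small (c : Ctx v k K Ω t d f φ) :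
    ∃ m : E, m ≠ 0 ∧ v m < 1 ∧ m ∈ Subfield.closure (insert t (k : Set E)) := by
  have ht : t ∈ Subfield.closure (insert t (k : Set E)) :=
    Subfield.subset_closure (Set.mem_insert _ _)
  by_cases h : v t ≤ 1
  · obtain ⟨b, hb, h1⟩ := c.resK t c.tK h
    refine ⟨t - b, ?_, h1, sub_mem ht (Subfield.subset_closure (Set.mem_insert_of_mem _ hb))⟩
    intro h2
    rw [sub_eq_zero] at h2
    exact c.tΩ (h2 ▸ c.kΩ hb)
  · refine ⟨t⁻¹, ?_, ?_, inv_mem ht⟩
    · intro h2
      apply h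
      rw [inv_eq_zero.1 h2, map_zero]
      exact zero_le
    · rw [map_inv₀]
      exact inv_lt_one_of_one_lt₀ (not_le.1 h)

/-- The residue field of `κ(t)`. -/
theorem Ctx.res_acl (c : Ctx v k K Ω t d f φ) {κ : Subfield E} [IsAlgClosed κ] (hkκ : k ≤ κ)
    (hκΩ : κ ≤ Ω) : ∀ z ∈ acl (insert t (κ : Set E)), v z ≤ 1 → ∃ b ∈ κ, v (z - b) < 1 := by
  obtain ⟨m, hm0, hm1, hm⟩ := c.exists_small
  intro z hz hz1
  refine exists_residue (w := t) (m := m) (fun b hb => c.valΩ b (hκΩ hb)) ?_ hm0 hm1 hz hz1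
  have h1 : Subfield.closure (insert t (k : Set E)) ≤ acl (insert t (κ : Set E)) :=
    Subfield.closure_le.2 ((Set.insert_subset_insert hkκ).trans (subset_acl _))
  exact h1 hm

/-- Heights do not depend on the constants. -/
theorem Ctx.low_descend (c : Ctx v k K Ω t d f φ) {κ : Subfield E} [IsAlgClosed κ] (hkκ : k ≤ κ)
    (hκΩ : κ ≤ Ω) {x : Fin (N + 1) → E} (hx : ∀ i, x i ∈ acl (insert t (κ : Set E)))
    (hlow : Low Ω t f x) : Low κ t f x := by
  obtain ⟨D, hD⟩ := hlow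
  have hK : K ≤ acl (insert t (κ : Set E)) := fun a ha =>
    acl_mono (Set.insert_subset_insert hkκ) (c.Kt a ha)
  refine ⟨2 * D, fun n i j hj => ?_⟩
  have hmem : ∀ i, itr f x n i ∈ acl (insert t (κ : Set E)) :=
    itr_mem (fun i m => hK (c.endf.coeff i m)) hx n
  exact (relB_descend (fun b hb => subset_acl _ (Set.mem_insert_of_mem _ hb)) hκΩ c.valΩ
    (c.res_acl hkκ hκΩ) (subset_acl _ (Set.mem_insert _ _)) (div_mem (hmem i) (hmem j))
    (hD n i j hj).relB).rel

omit [CharZero E] in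
theorem Low.base {κ κ' : Subfield E} (h : κ ≤ κ') {x : Fin (N + 1) → E} (hlow : Low κ t f x) :
    Low κ' t f x := by
  obtain ⟨D, hD⟩ := hlow
  exact ⟨D, fun n i j hj => (hD n i j hj).base h⟩

/-- `t` is transcendental over the constants. -/
theorem Ctx.t_notMem (c : Ctx v k K Ω t d f φ) {S : Set E} (hS : S ⊆ Ω) : t ∉ acl S := by
  have := c.algΩ
  intro h
  exact c.tΩ (acl_le_self hS h)

/-- A constant which is algebraic over constants and `t` is algebraic over the constants. -/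
theorem Ctx.mem_of_t (c : Ctx v k K Ω t d f φ) {S : Set E} (hS : S ⊆ Ω) {w : E} (hw : w ∈ Ω)
    (h : w ∈ acl (insert t S)) : w ∈ acl S := by
  by_contra hcon
  have h1 := exchange h hcon
  exact c.t_notMem (Set.insert_subset hw hS) h1

theorem Ctx.acl_K (c : Ctx v k K Ω t d f φ) {S : Set E} (hk : (k : Set E) ⊆ S) :
    acl (S ∪ K) = acl (insert t S) := by
  apply le_antisymm
  · apply acl_le
    rintro x (hx | hx)
    · exact subset_acl _ (Set.mem_insert_of_mem _ hx)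
    · exact acl_mono (Set.insert_subset_insert hk) (c.Kt x hx)
  · apply acl_mono
    rintro x (rfl | hx)
    · exact Or.inr c.tK
    · exact Or.inl hx

end

end Pool.Agent.Helper72.NI
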