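import Pool.Agent.Helper72.NI.Rel

/-!
# Leading terms
-/

set_option autoImplicit false

namespace Pool.Agent.Helper72.NI

section close

variable {E : Type} [Field E] {Γ : Type} [LinearOrderedCommGroupWithZero Γ] (v : Valuation E Γ)

/-- The elements `x` and `y ≠ 0` have the same leading term. -/
def Cl (x y : E) : Prop := v (x - y) < v y

variable {v}

theorem Cl.val {x y : E} (h : Cl v x y) : v x = v y := by
  have h1 : x = y + (x - y) := by ring
  rw [h1]
  exact Valuation.map_add_eq_of_lt_left v h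

theorem Cl.pos {x y : E} (h : Cl v x y) : v y ≠ 0 := (lt_of_le_of_lt zero_le h).ne'

theorem Cl.ne {x y : E} (h : Cl v x y) : x ≠ 0 := by
  rintro rfl
  have := h.val
  rw [map_zero] at this
  exact h.pos this.symm

theorem Cl.ne' {x y : E} (h : Cl v x y) : y ≠ 0 := by
  rintro rfl
  exact h.pos (map_zero v)

theorem Cl.div {x y x' y' : E} (h : Cl v x y) (h' : Cl v x' y') : Cl v (x / x') (y / y') := by
  have h1 : x / x' - y / y' = ((x - y) * y' - y * (x' - y')) / (x' * y') := by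
    rw [div_sub_div _ _ h'.ne h'.ne']
    congr 1
    ring
  unfold Cl
  rw [h1, map_div₀, map_div₀, map_mul, h'.val]
  have hpos : (0 : Γ) < v y' := zero_lt_iff.2 h'.pos
  have h2 : v ((x - y) * y' - y * (x' - y')) < v y * v y' := by
    refine lt_of_le_of_lt (Valuation.map_sub v _ _) (max_lt ?_ ?_)
    · rw [map_mul]
      exact mul_lt_mul_of_pos_right h hpos
    · rw [map_mul]
      exact mul_lt_mul_of_pos_left h' (zero_lt_iff.2 h.pos)
  calc v ((x - y) * y' - y * (x' - y')) / (v y' * v y') < v y * v y' / (v y' * v y') := by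
        exact div_lt_div_of_pos_right h2 (mul_pos hpos hpos)
    _ = v y / v y' := by
        rw [mul_div_mul_right _ _ h'.pos]

end close

section lead

variable {E : Type} [Field E] {Γ : Type} [LinearOrderedCommGroupWithZero Γ] {v : Valuation E Γ}
  {Z : Type} [Field Z]

theorem val_eq_one {F : Subfield Z} {ι : Z →+* E} (h : ∀ b ∈ F, v (ι b) ≤ 1) {b : Z} (hb : b ∈ F)
    (hb0 : b ≠ 0) : v (ι b) = 1 := by
  refine le_antisymm (h b hb) ?_
  have h1 := h b⁻¹ (inv_mem hb)
  rw [map_inv₀, map_inv₀] at h1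
  have h2 : v (ι b) ≠ 0 := by
    rw [Ne, map_eq_zero, map_eq_zero]
    exact hb0
  exact (inv_le_one₀ (zero_lt_iff.2 h2)).1 h1

/-- The leading term of a sum of products. -/
theorem lead_sum {A B R : Subfield Z} (hRA : R ≤ A) (hRB : R ≤ B) {ι₁ ι₂ : Z →+* E}
    (hA : ∀ a ∈ A, ι₁ a = ι₂ a) (hres : ∀ a ∈ A, v (ι₁ a) ≤ 1 → ∃ c ∈ R, v (ι₁ (a - c)) < 1)
    (hB₁ : ∀ b ∈ B, v (ι₁ b) ≤ 1) (hB₂ : ∀ b ∈ B, v (ι₂ b) ≤ 1) {J : Type} (s : Finset J) :
    ∀ (a b : J → Z), (∀ i, a i ∈ A) → (∀ i, b i ∈ B) → ∑ i ∈ s, a i * b i ≠ 0 →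
      ∃ a' ∈ A, ∃ b' ∈ B, Cl v (ι₁ (∑ i ∈ s, a i * b i)) (ι₁ (a' * b')) ∧
        Cl v (ι₂ (∑ i ∈ s, a i * b i)) (ι₂ (a' * b')) := by
  classical
  induction s using Finset.strongInductionOn with
  | _ s ih =>
  intro a b ha hb hne
  have hs : s.Nonempty := by
    rw [Finset.nonempty_iff_ne_empty]
    rintro rfl
    exact hne Finset.sum_empty
  obtain ⟨l, hl, hmax⟩ := s.exists_max_image (fun i => v (ι₁ (a i))) hs
  have hal : a l ≠ 0 := by
    intro h0
    apply hne
    refine Finset.sum_eq_zero fun i hi => ?_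
    have h1 := hmax i hi
    rw [h0, map_zero, map_zero] at h1
    have h2 := le_antisymm h1 zero_le
    rw [map_eq_zero, map_eq_zero] at h2
    rw [h2, zero_mul]
  have hval : v (ι₁ (a l)) ≠ 0 := by
    rw [Ne, map_eq_zero, map_eq_zero]
    exact hal
  have hc : ∀ i, ∃ c ∈ R, i ∈ s → v (ι₁ (a i / a l - c)) < 1 := by
    intro i
    by_cases hi : i ∈ s
    · obtain ⟨c, hc, h⟩ := hres (a i / a l) (div_mem (ha i) (ha l)) (by
        rw [map_div₀, map_div₀]
        exact div_le_one_of_le₀ (hmax i hi) zero_le)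
      exact ⟨c, hc, fun _ => h⟩
    · exact ⟨0, zero_mem _, fun h => absurd h hi⟩
  choose c hcR hc using hc
  set β : Z := b l + ∑ i ∈ s.erase l, c i * b i with hβ
  have hβB : β ∈ B := add_mem (hb l) (Subfield.sum_mem _ fun i _ => mul_mem (hRB (hcR i)) (hb i))
  set a' : J → Z := fun i => a i - c i * a l with ha'
  have ha'A : ∀ i, a' i ∈ A := fun i => sub_mem (ha i) (mul_mem (hRA (hcR i)) (ha l))
  have hsum : ∑ i ∈ s, a i * b i = a l * β + ∑ i ∈ s.erase l, a' i * b i := by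
    rw [← Finset.add_sum_erase s _ hl, hβ, mul_add, Finset.mul_sum, add_assoc,
      ← Finset.sum_add_distrib]
    congr 1
    refine Finset.sum_congr rfl fun i _ => ?_
    rw [ha']
    ring
  by_cases hβ0 : β = 0
  · rw [hsum, hβ0, mul_zero, zero_add] at hne ⊢
    exact ih (s.erase l) (Finset.erase_ssubset hl) a' b ha'A hb hne
  · refine ⟨a l, ha l, β, hβB, ?_⟩
    have ha'v : ∀ i ∈ s.erase l, v (ι₁ (a' i)) < v (ι₁ (a l)) := by
      intro i hi
      have h1 := hc i (Finset.mem_of_mem_erase hi)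
      have h2 : a' i = (a i / a l - c i) * a l := by
        rw [ha', sub_mul, div_mul_cancel₀ _ hal]
      rw [h2, map_mul, map_mul]
      calc v (ι₁ (a i / a l - c i)) * v (ι₁ (a l)) < 1 * v (ι₁ (a l)) :=
            mul_lt_mul_of_pos_right h1 (zero_lt_iff.2 hval)
        _ = _ := one_mul _
    have key : ∀ ι : Z →+* E, (∀ a ∈ A, ι₁ a = ι a) → (∀ b ∈ B, v (ι b) ≤ 1) →
        Cl v (ι (∑ i ∈ s, a i * b i)) (ι (a l * β)) := by
      intro ι hι hιB
      unfold Cl
      rw [hsum, map_add, add_sub_cancel_left, map_mul, map_mul, val_eq_one hιB hβB hβ0, mul_one,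
        map_sum]
      refine Valuation.map_sum_lt v ?_ fun i hi => ?_
      · rw [← hι _ (ha l)]
        exact hval
      · rw [map_mul, map_mul, ← hι _ (ha'A i), ← hι _ (ha l)]
        calc v (ι₁ (a' i)) * v (ι (b i)) ≤ v (ι₁ (a' i)) * 1 :=
              mul_le_mul_right (hιB _ (hb i)) _
          _ = v (ι₁ (a' i)) := mul_one _
          _ < _ := ha'v i hi
    exact ⟨key ι₁ (fun _ _ => rfl) hB₁, key ι₂ hA hB₂⟩

/-- Elements of a compositum are quotients of sums of products. -/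
theorem mem_sup_iff {A B : Subfield Z} {z : Z} (hz : z ∈ A ⊔ B) :
    ∃ p ∈ Submodule.span A (B : Set Z), ∃ q ∈ Submodule.span A (B : Set Z), q ≠ 0 ∧
      z = p / q := by
  set S := Submodule.span A (B : Set Z) with hS
  have h1S : (1 : Z) ∈ S := Submodule.subset_span (one_mem B)
  have hmul : ∀ x ∈ S, ∀ y ∈ S, x * y ∈ S := by
    intro x hx y hy
    induction hx, hy using Submodule.span_induction₂ with
    | mem_mem x y hx hy => exact Submodule.subset_span (mul_mem hx hy)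
    | zero_left y hy => rw [zero_mul]; exact zero_mem _
    | zero_right x hx => rw [mul_zero]; exact zero_mem _
    | add_left x y z _ _ _ h1 h2 => rw [add_mul]; exact add_mem h1 h2
    | add_right x y z _ _ _ h1 h2 => rw [mul_add]; exact add_mem h1 h2
    | smul_left r x y _ _ h => rw [smul_mul_assoc]; exact S.smul_mem r h
    | smul_right r x y _ _ h => rw [mul_smul_comm]; exact S.smul_mem r h
  have hz' : z ∈ Subfield.closure ((A : Set Z) ∪ B) := by
    have : Subfield.closure ((A : Set Z) ∪ B) = A ⊔ B := by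
      rw [Subfield.closure_union, Subfield.closure_eq, Subfield.closure_eq]
    rwa [this]
  induction hz' using Subfield.closure_induction with
  | mem x hx =>
    refine ⟨x, ?_, 1, h1S, one_ne_zero, (div_one x).symm⟩
    rcases hx with hx | hx
    · have := S.smul_mem (⟨x, hx⟩ : A) h1S
      rwa [Algebra.smul_def, mul_one] at this
    · exact Submodule.subset_span hx
  | one => exact ⟨1, h1S, 1, h1S, one_ne_zero, (div_one 1).symm⟩
  | add x y hx hy hx' hy' =>
    obtain ⟨p, hp, q, hq, hq0, h⟩ := hx' (by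
      have : Subfield.closure ((A : Set Z) ∪ B) = A ⊔ B := by
        rw [Subfield.closure_union, Subfield.closure_eq, Subfield.closure_eq]
      rwa [← this])
    obtain ⟨p', hp', q', hq', hq0', h'⟩ := hy' (by
      have : Subfield.closure ((A : Set Z) ∪ B) = A ⊔ B := by
        rw [Subfield.closure_union, Subfield.closure_eq, Subfield.closure_eq]
      rwa [← this])
    refine ⟨p * q' + p' * q, add_mem (hmul _ hp _ hq') (hmul _ hp' _ hq), q * q',
      hmul _ hq _ hq', mul_ne_zero hq0 hq0', ?_⟩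
    rw [h, h']
    field_simp
  | neg x hx hx' =>
    obtain ⟨p, hp, q, hq, hq0, h⟩ := hx' (by simpa using hz)
    exact ⟨-p, neg_mem hp, q, hq, hq0, by rw [h, neg_div]⟩
  | inv x hx hx' =>
    obtain ⟨p, hp, q, hq, hq0, h⟩ := hx' (by
      have := inv_mem hz
      rwa [inv_inv] at this)
    by_cases hp0 : p = 0
    · exact ⟨0, zero_mem _, 1, h1S, one_ne_zero, by rw [h, hp0]; simp⟩
    · exact ⟨q, hq, p, hp, hp0, by rw [h, inv_div]⟩
  | mul x y hx hy hx' hy' =>
    obtain ⟨p, hp, q, hq, hq0, h⟩ := hx' (by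
      have : Subfield.closure ((A : Set Z) ∪ B) = A ⊔ B := by
        rw [Subfield.closure_union, Subfield.closure_eq, Subfield.closure_eq]
      rwa [← this])
    obtain ⟨p', hp', q', hq', hq0', h'⟩ := hy' (by
      have : Subfield.closure ((A : Set Z) ∪ B) = A ⊔ B := by
        rw [Subfield.closure_union, Subfield.closure_eq, Subfield.closure_eq]
      rwa [← this])
    exact ⟨p * p', hmul _ hp _ hp', q * q', hmul _ hq _ hq', mul_ne_zero hq0 hq0', by
      rw [h, h', div_mul_div_comm]⟩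

/-- **Leading terms.** -/
theorem lead {A B R : Subfield Z} (hRA : R ≤ A) (hRB : R ≤ B) {ι₁ ι₂ : Z →+* E}
    (hA : ∀ a ∈ A, ι₁ a = ι₂ a) (hres : ∀ a ∈ A, v (ι₁ a) ≤ 1 → ∃ c ∈ R, v (ι₁ (a - c)) < 1)
    (hB₁ : ∀ b ∈ B, v (ι₁ b) ≤ 1) (hB₂ : ∀ b ∈ B, v (ι₂ b) ≤ 1) {z : Z} (hz : z ∈ A ⊔ B)
    (hz0 : z ≠ 0) :
    ∃ a ∈ A, ∃ b ∈ B, Cl v (ι₁ z) (ι₁ (a * b)) ∧ Cl v (ι₂ z) (ι₂ (a * b)) := by
  obtain ⟨p, hp, q, hq, hq0, h⟩ := mem_sup_iff hz
  have hp0 : p ≠ 0 := by
    rintro rfl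
    rw [zero_div] at h
    exact hz0 h
  have key : ∀ p ∈ Submodule.span A (B : Set Z), p ≠ 0 →
      ∃ a ∈ A, ∃ b ∈ B, Cl v (ι₁ p) (ι₁ (a * b)) ∧ Cl v (ι₂ p) (ι₂ (a * b)) := by
    intro p hp hp0
    obtain ⟨n, f, g, rfl⟩ := Submodule.mem_span_set'.1 hp
    exact lead_sum hRA hRB hA hres hB₁ hB₂ Finset.univ (fun i => (f i : Z)) (fun i => (g i : Z))
      (fun i => (f i).2) (fun i => (g i).2) hp0
  obtain ⟨a, ha, b, hb, h1, h2⟩ := key p hp hp0
  obtain ⟨a', ha', b', hb', h1', h2'⟩ := key q hq hq0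
  refine ⟨a / a', div_mem ha ha', b / b', div_mem hb hb', ?_, ?_⟩
  · rw [h, map_div₀, div_mul_div_comm, map_div₀]
    exact h1.div h1'
  · rw [h, map_div₀, div_mul_div_comm, map_div₀]
    exact h2.div h2'

end lead

end Pool.Agent.Helper72.NI
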