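import Pool.Agent.Helper28.NI.Asm
import Pool.Agent.Helper72.NI.Core

/-!
# Maps and points without a common model over the algebraic numbers
-/

set_option autoImplicit false

namespace Pool.Agent.Helper72.NI

open MvPolynomial
open Pool.Agent.Helper38.TQ (IsEndo CurveSet curveSet_of_krull)
open Pool.Agent.Helper28.NI (FU rs fu_univ Asm_krull sb eval_sb sb_hom krull_sb conj_orb
  eval_smul_iff conj_ne endo_of_conj nonconst_case asm)

theorem core_statement : Pool.Agent.Helper28.NI.CoreStatement := by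
  intro T _ _ _ k _ hcount t ht hT N d hN f hf a ha hlow hdense
  exact core_main T k hcount t ht hT N d hN f hf a ha hlow hdense

/-- A pair of a map and a point which has no model over the algebraic numbers. -/
theorem asm_pair {N d : ℕ} {f : Fin (N + 1) → MvPolynomial (Fin (N + 1)) ℂ} (hf : IsEndo d f)
    {a : Fin (N + 1) → ℂ} (ha : a ≠ 0)
    (hpair : ¬ ∃ (g : Matrix (Fin (N + 1)) (Fin (N + 1)) ℂ)
      (ψ : Fin (N + 1) → MvPolynomial (Fin (N + 1)) ℂ) (b : Fin (N + 1) → ℂ), g.det ≠ 0 ∧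
      (∀ i, (ψ i).IsHomogeneous d) ∧ (∀ i m, IsAlgebraic ℚ ((ψ i).coeff m)) ∧
      (∀ i, IsAlgebraic ℚ (b i)) ∧ (∃ c : ℂ, c ≠ 0 ∧ a = c • g.mulVec b) ∧
      ∀ z : Fin (N + 1) → ℂ, z ≠ 0 → ∃ c : ℂ, c ≠ 0 ∧
        (fun i => eval (g.mulVec z) (f i)) = c • g.mulVec (fun j => eval z (ψ j)))
    {S : Set (MvPolynomial (Fin (N + 1)) ℂ)} (hS : ∀ g ∈ S, ∃ e, g.IsHomogeneous e)
    (hdim : N = 2 ∨ ringKrullDim (MvPolynomial (Fin (N + 1)) ℂ ⧸ Ideal.span S) ≤ 2)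
    (hdense : N = 2 ∨ ∀ (e : ℕ) (H : MvPolynomial (Fin (N + 1)) ℂ), H.IsHomogeneous e → H ≠ 0 →
      ∃ n, eval ((fun (x : Fin (N + 1) → ℂ) (i : Fin (N + 1)) => eval x (f i))^[n] a) H ≠ 0) :
    ∃ T : Finset (ℕ × ℕ), {n : ℕ | ∀ g ∈ S,
        eval ((fun (x : Fin (N + 1) → ℂ) (i : Fin (N + 1)) => eval x (f i))^[n] a) g = 0} =
      {n : ℕ | ∃ q ∈ T, ∃ m : ℕ, n = q.1 * m + q.2} := by
  classical
  by_cases hmod : ∃ (g : Matrix (Fin (N + 1)) (Fin (N + 1)) ℂ)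
      (ψ : Fin (N + 1) → MvPolynomial (Fin (N + 1)) ℂ), g.det ≠ 0 ∧
      (∀ i, (ψ i).IsHomogeneous d) ∧ (∀ i m, IsAlgebraic ℚ ((ψ i).coeff m)) ∧
      ∀ z : Fin (N + 1) → ℂ, z ≠ 0 → ∃ c : ℂ, c ≠ 0 ∧
        (fun i => eval (g.mulVec z) (f i)) = c • g.mulVec (fun j => eval z (ψ j))
  swap
  · refine asm core_statement hf (fun g ψ h1 h2 h3 h4 => hmod ⟨g, ψ, h1, h2, h3, h4⟩) ha hS hdim
      hdense
  change FU (rs f a S)
  by_cases hall : ∀ g ∈ S, g = 0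
  · have h1 : rs f a S = Set.univ := by
      ext n
      simp only [rs, Set.mem_ofPred_eq, Set.mem_univ, iff_true]
      intro g hg
      rw [hall g hg, map_zero]
    rw [h1]
    exact fu_univ
  have hdim' : ringKrullDim (MvPolynomial (Fin (N + 1)) ℂ ⧸ Ideal.span S) ≤ 2 := by
    push Not at hall
    obtain ⟨g, hg, hg0⟩ := hall
    rcases hdim with h | h
    · exact Asm_krull (by omega) S hg hg0
    · exact h
  obtain ⟨g, ψ, hg, hψh, hψc, hconj⟩ := hmod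
  have hconj' : ∀ z : Fin (N + 1) → ℂ, z ≠ 0 → ∃ c : ℂ, c ≠ 0 ∧
      stp f (g.mulVec z) = c • g.mulVec (stp ψ z) := hconj
  have hψ : IsEndo d ψ := endo_of_conj hf hψh hg hconj'
  have hgu : IsUnit g.det := isUnit_iff_ne_zero.2 hg
  have hg2 : g * g⁻¹ = 1 := Matrix.mul_nonsing_inv g hgu
  obtain ⟨b, hb⟩ : ∃ b, b = g⁻¹.mulVec a := ⟨_, rfl⟩
  have hgb : g.mulVec b = a := by rw [hb, Matrix.mulVec_mulVec, hg2, Matrix.one_mulVec]
  have hb0 : b ≠ 0 := by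
    intro h
    apply ha
    rw [← hgb, h, Matrix.mulVec_zero]
  obtain ⟨k, hk⟩ : ∃ k : Subfield ℂ, k = (algebraicClosure ℚ ℂ).toSubfield := ⟨_, rfl⟩
  have hkmem : ∀ z, z ∈ k ↔ IsAlgebraic ℚ z := by
    intro z
    rw [hk]
    exact mem_algebraicClosure_iff
  have hkcl : IsAlgClosed k := by
    rw [hk]
    have h0 := algebraicClosure.isAlgClosure ℚ ℂ
    have : IsAlgClosed (algebraicClosure ℚ ℂ) := h0.isAlgClosed
    exact this
  have hS' : ∀ G ∈ sb g '' S, ∃ e, G.IsHomogeneous e := by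
    rintro _ ⟨G, hG, rfl⟩
    obtain ⟨e, he⟩ := hS G hG
    exact ⟨e, sb_hom g he⟩
  have hcur : CurveSet (sb g '' S) :=
    curveSet_of_krull hS' (by rw [krull_sb hg]; exact hdim')
  have horb := conj_orb hf.hom hconj' (fun z hz => conj_ne hf hg hconj' hz) hb0 (x := a)
    ⟨1, one_ne_zero, by rw [one_smul, hgb]⟩
  have hrs : rs f a S = rs ψ b (sb g '' S) := by
    ext n
    obtain ⟨-, c, hc, h1⟩ := horb n
    constructor
    · rintro h _ ⟨H, hH, rfl⟩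
      obtain ⟨e, he⟩ := hS H hH
      have h2 := h H hH
      rw [h1, eval_smul_iff he hc] at h2
      rw [eval_sb]
      exact h2
    · intro h H hH
      obtain ⟨e, he⟩ := hS H hH
      have h2 := h _ ⟨H, hH, rfl⟩
      rw [eval_sb] at h2
      rw [h1, eval_smul_iff he hc]
      exact h2
  rw [hrs]
  refine nonconst_case hψ (fun i m => (hkmem _).2 (hψc i m)) hb0 ?_ hS' hcur
  rintro ⟨c, hc, hcb⟩
  refine hpair ⟨g, ψ, c • b, hg, hψh, hψc, fun i => (hkmem _).1 (hcb i),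
    ⟨c⁻¹, inv_ne_zero hc, ?_⟩, hconj⟩
  rw [Matrix.mulVec_smul, smul_smul, inv_mul_cancel₀ hc, one_smul, hgb]

end Pool.Agent.Helper72.NI
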