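import Pool.Agent.Helper72.NI.Coords
import Pool.Agent.Helper29.NI.Ultra
import Pool.Agent.Helper36.NI.Fin

/-!
# The generic point of an orbit
-/

set_option autoImplicit false

namespace Pool.Agent.Helper72.NI

open MvPolynomial Filter
open Pool.Agent.Helper29.NI (starO starO_le starO_lt exists_ctx)
open Pool.Agent.Helper36.NI (PE exists_linear generic_shift)

/-- An endomorphism `f` with reduction `φ` and a point `a` with reduction `b`, of low height, with
a dense orbit. -/
structure Dat {T : Type} [Field T] [CharZero T] (k : Subfield T) (t : T) {N : ℕ} (d : ℕ)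
    (f φ : Fin (N + 1) → MvPolynomial (Fin (N + 1)) T) (O : ValuationSubring T)
    (a b : Fin (N + 1) → T) : Prop where
  algT : IsAlgClosed T
  algk : IsAlgClosed k
  countk : (k : Set T).Countable
  tk : t ∉ k
  hT : ∀ z : T, z ∈ acl (insert t (k : Set T))
  one_le : 1 ≤ N
  endf : Endo ⊤ d f
  endφ : Endo k d φ
  valk : ∀ c ∈ k, O.valuation c ≤ 1
  res : ∀ z, O.valuation z ≤ 1 → ∃ c ∈ k, O.valuation (z - c) < 1
  int : ∀ i m, O.valuation ((f i).coeff m) ≤ 1
  red : ∀ i m, O.valuation ((f i).coeff m - (φ i).coeff m) < 1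
  a0 : a ≠ 0
  b0 : b ≠ 0
  bk : ∀ i, b i ∈ k
  cg : ∀ i, Cg O.valuation (a i) (b i)
  low : Low k t f a
  dense : ∀ (e : ℕ) (H : MvPolynomial (Fin (N + 1)) T), H.IsHomogeneous e → H ≠ 0 →
    ∃ n, eval (itr f a n) H ≠ 0

/-- Ultrafilters which avoid all hypersurfaces. -/
def GenU {T : Type} [Field T] {N : ℕ} (x : ℕ → Fin (N + 1) → T) (U : Ultrafilter ℕ) : Prop :=
  ∀ (e : ℕ) (H : MvPolynomial (Fin (N + 1)) T), H.IsHomogeneous e → H ≠ 0 →
    ∀ᶠ n in (U : Filter ℕ), eval (x n) H ≠ 0

section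

variable {T : Type} [Field T] [CharZero T] {k : Subfield T} {t : T} {N d : ℕ}
  {f φ : Fin (N + 1) → MvPolynomial (Fin (N + 1)) T} {O : ValuationSubring T}
  {a b : Fin (N + 1) → T}

theorem Dat.cg_itr (D : Dat k t d f φ O a b) (n : ℕ) (i : Fin (N + 1)) :
    Cg O.valuation (itr f a n i) (itr φ b n i) := by
  induction n generalizing i with
  | zero => exact D.cg i
  | succ n ih =>
    rw [itr_succ, itr_succ]
    exact Cg.eval (fun m => ⟨D.int i m, D.valk _ (D.endφ.coeff i m), D.red i m⟩) ih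

theorem Dat.shift (D : Dat k t d f φ O a b) {U : Ultrafilter ℕ} (hU : GenU (itr f a) U) (j : ℕ) :
    GenU (fun n => itr f a (n + j)) U := by
  refine generic_shift D.one_le D.endf.hom (x := itr f a) D.a0 (fun n => ?_) D.dense hU j
  exact ⟨1, one_ne_zero, by rw [one_smul, itr_succ]⟩

theorem Dat.free (D : Dat k t d f φ O a b) {U : Ultrafilter ℕ} (hU : GenU (itr f a) U) (m : ℕ) :
    ∀ᶠ n in (U : Filter ℕ), m ≤ n := by
  have h1 : ∀ m, ∃ (e : ℕ) (H : MvPolynomial (Fin (N + 1)) T), H.IsHomogeneous e ∧ H ≠ 0 ∧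
      ∀ j < m, eval (itr f a j) H = 0 := by
    intro m
    induction m with
    | zero => exact ⟨0, 1, isHomogeneous_one _ _, one_ne_zero, fun j hj => absurd hj (Nat.not_lt_zero j)⟩
    | succ m ih =>
      obtain ⟨e, H, h1, h2, h3⟩ := ih
      obtain ⟨L, hL1, hL2, hL3⟩ := exists_linear D.one_le (itr_ne_zero D.endf D.a0 m)
      refine ⟨e + 1, H * L, h1.mul hL1, mul_ne_zero h2 hL2, fun j hj => ?_⟩
      rw [map_mul]
      rcases Nat.lt_succ_iff_lt_or_eq.1 hj with h | rfl
      · rw [h3 j h, zero_mul]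
      · rw [hL3, mul_zero]
  obtain ⟨e, H, h1, h2, h3⟩ := h1 m
  filter_upwards [hU e H h1 h2] with n hn
  by_contra hlt
  exact hn (h3 n (not_le.1 hlt))

theorem Dat.ctx (D : Dat k t d f φ O a b) {U : Ultrafilter ℕ} (hU : GenU (itr f a) U) :
    Ctx (starO U O).valuation (k.map (cst U)) (cst (E := T) U).fieldRange (star U k) (cst U t) d
      (fun i => map (cst U) (f i)) (fun i => map (cst U) (φ i)) := by
  have := D.algT
  have := D.algk
  exact exists_ctx D.countk D.tk D.hT D.one_le D.endf D.valk D.res D.endφ D.int D.red U (D.free hU)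

omit [CharZero T] in
theorem itr_gm {U : Ultrafilter ℕ} (f : Fin (N + 1) → MvPolynomial (Fin (N + 1)) T)
    (X : ℕ → Fin (N + 1) → T) (n : ℕ) :
    itr (fun i => map (cst U) (f i)) (fun i => gm U fun m => X m i) n =
      fun i => gm U fun m => itr f (X m) n i := by
  induction n with
  | zero => rfl
  | succ n ih =>
    rw [itr_succ, ih]
    funext i
    unfold stp
    rw [eval_gm]
    congr 1
    funext m
    rw [itr_succ]
    rfl

omit [CharZero T] in
theorem itr_add (f : Fin (N + 1) → MvPolynomial (Fin (N + 1)) T) (a : Fin (N + 1) → T) (m n : ℕ) :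
    itr f (itr f a m) n = itr f a (m + n) := by
  have h : (stp f)^[n + m] a = (stp f)^[n] ((stp f)^[m] a) := Function.iterate_add_apply _ n m a
  rw [Nat.add_comm n m] at h
  exact h.symm

/-- The generic point. -/
noncomputable def gpt (U : Ultrafilter ℕ) (f : Fin (N + 1) → MvPolynomial (Fin (N + 1)) T)
    (a : Fin (N + 1) → T) (i₀ : Fin (N + 1)) : Fin (N + 1) → Up U T :=
  fun i => gm U fun n => itr f a n i / itr f a n i₀

omit [CharZero T] in
theorem gpt_eq {U : Ultrafilter ℕ} (i₀ : Fin (N + 1)) :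
    gpt U f a i₀ = fun i => gm U fun n => ((itr f a n i₀)⁻¹ • itr f a n) i := by
  funext i
  unfold gpt
  congr 1
  funext n
  rw [Pi.smul_apply, smul_eq_mul, div_eq_inv_mul]

omit [CharZero T] in
theorem itr_gpt {F : Subfield T} {d : ℕ} {g : Fin (N + 1) → MvPolynomial (Fin (N + 1)) T}
    (hg : Endo F d g) {U : Ultrafilter ℕ} (i₀ : Fin (N + 1)) (n : ℕ) :
    itr (fun i => map (cst U) (g i)) (gpt U g a i₀) n =
      fun i => gm U fun m => ((itr g a m i₀)⁻¹) ^ d ^ n * itr g a (m + n) i := by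
  rw [gpt_eq, itr_gm]
  funext i
  congr 1
  funext m
  rw [itr_smul hg, itr_add]
  rfl

omit [CharZero T] in
/-- Values of forms at the iterates of the generic point. -/
theorem eval_gpt {F : Subfield T} {d : ℕ} {g : Fin (N + 1) → MvPolynomial (Fin (N + 1)) T}
    (hg : Endo F d g) {U : Ultrafilter ℕ} (i₀ : Fin (N + 1)) (n : ℕ) {e : ℕ}
    {H : MvPolynomial (Fin (N + 1)) T} (hH : H.IsHomogeneous e) :
    eval (itr (fun i => map (cst U) (g i)) (gpt U g a i₀) n) (map (cst U) H) =
      gm U fun m => (((itr g a m i₀)⁻¹) ^ d ^ n) ^ e * eval (itr g a (m + n)) H := by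
  rw [itr_gpt hg, eval_gm]
  congr 1
  funext m
  exact eval_smul_hom hH _ _

/-- Everything about the generic point which does not use the dynamics. -/
theorem Dat.gpt_spec (D : Dat k t d f φ O a b) {U : Ultrafilter ℕ} (hU : GenU (itr f a) U) :
    ∃ i₀ : Fin (N + 1), (∀ᶠ n in (U : Filter ℕ), itr φ b n i₀ ≠ 0) ∧
      (∀ᶠ n in (U : Filter ℕ), itr f a n i₀ ≠ 0) ∧
      Pt (starO U O).valuation (star U k) (gpt U f a i₀) (gpt U φ b i₀) i₀ ∧
      Gen (cst (E := T) U).fieldRange (gpt U f a i₀) ∧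
      Low (star U k) (cst U t) (fun i => map (cst U) (f i)) (gpt U f a i₀) ∧
      ∃ W : Finset (Up U T), (W : Set (Up U T)) ⊆ star U k ∧
        ∀ i, gpt U f a i₀ i ∈ acl ((W : Set (Up U T)) ∪ ((k.map (cst U) : Set (Up U T)) ∪
          Set.range (gpt U φ b i₀))) ⊔ (cst (E := T) U).fieldRange := by
  classical
  have := D.algk
  obtain ⟨i₀, hi₀⟩ := exists_eventually (U := U) (p := fun i n => itr φ b n i ≠ 0)
    (Eventually.of_forall fun n => Function.ne_iff.1 (itr_ne_zero D.endφ D.b0 n))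
  have hbk : ∀ n i, itr φ b n i ∈ k := itr_mem D.endφ.coeff D.bk
  have hval : ∀ n, itr φ b n i₀ ≠ 0 → O.valuation (itr φ b n i₀) = 1 := fun n hn =>
    val_one_of_mem D.valk (hbk n i₀) hn
  have hne : ∀ n, itr φ b n i₀ ≠ 0 → itr f a n i₀ ≠ 0 := by
    intro n hn h0
    have h1 := (D.cg_itr n i₀).val (hval n hn)
    rw [h0, map_zero] at h1
    exact zero_ne_one h1
  have hquot : ∀ n i, itr φ b n i₀ ≠ 0 → Cg O.valuation (itr f a n i / itr f a n i₀)
      (itr φ b n i / itr φ b n i₀) := fun n i hn =>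
    (D.cg_itr n i).div (D.cg_itr n i₀) (hval n hn)
  refine ⟨i₀, hi₀, hi₀.mono hne, ?_, ?_, ?_, ?_⟩
  · refine ⟨?_, ?_, fun i => ?_, fun i => ?_, fun i => ?_⟩
    · change gm U (fun n => itr f a n i₀ / itr f a n i₀) = gm U (fun _ => 1)
      rw [gm_eq]
      filter_upwards [hi₀] with n hn
      exact div_self (hne n hn)
    · change gm U (fun n => itr φ b n i₀ / itr φ b n i₀) = gm U (fun _ => 1)
      rw [gm_eq]
      filter_upwards [hi₀] with n hn
      exact div_self hn
    · unfold gpt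
      rw [starO_le]
      filter_upwards [hi₀] with n hn
      exact (hquot n i hn).left
    · exact ⟨fun n => itr φ b n i / itr φ b n i₀, fun n => div_mem (hbk n i) (hbk n i₀), rfl⟩
    · unfold gpt
      rw [← gm_sub, starO_lt]
      filter_upwards [hi₀] with n hn
      exact (hquot n i hn).lt
  · intro e H hH hHK hH0
    have h1 : H ∈ Set.range (map (σ := Fin (N + 1)) (cst (E := T) U)) := by
      rw [mem_range_map_iff_coeffs_subset]
      intro c hc
      obtain ⟨m, -, hm⟩ := mem_coeffs_iff.1 hc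
      obtain ⟨c', hc'⟩ := hHK m
      exact ⟨c', by rw [hm, hc']⟩
    obtain ⟨H', rfl⟩ := h1
    have hH' : H'.IsHomogeneous e := hH.of_map (cst (E := T) U).injective
    have hH'0 : H' ≠ 0 := by
      rintro rfl
      exact hH0 (map_zero _)
    have h2 := eval_gpt (a := a) D.endf (U := U) i₀ 0 hH'
    rw [itr_zero] at h2
    rw [h2, Ne, gm_eq_zero, ← Ultrafilter.eventually_not]
    filter_upwards [hi₀, hU e H' hH' hH'0] with n hn hn'
    exact mul_ne_zero (pow_ne_zero _ (pow_ne_zero _ (inv_ne_zero (hne n hn)))) hn'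
  · obtain ⟨D₀, hD₀⟩ := D.low
    refine ⟨2 * D₀, fun n i j hj => ?_⟩
    rw [itr_gpt D.endf] at hj ⊢
    simp only [← gm_div]
    refine (relB_star (κ := k) (t := fun _ => t)).2 ?_ |>.rel
    have h1 : ∀ᶠ m in (U : Filter ℕ),
        ((itr f a m i₀)⁻¹) ^ d ^ n * itr f a (m + n) j ≠ 0 := by
      rw [Ne, gm_eq_zero, ← Ultrafilter.eventually_not] at hj
      exact hj
    filter_upwards [h1] with m hm
    rw [mul_div_mul_left _ _ (left_ne_zero_of_mul hm)]
    exact (hD₀ (m + n) i j (right_ne_zero_of_mul hm)).relB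
  · obtain ⟨r, e, ω, c, hω, hc0, hc⟩ := exists_coords D.tk D.hT D.endf D.a0 D.low
    refine ⟨Finset.univ.image fun p : Fin (N + 1) × Fin r => gm U fun n => ω n p.1 p.2, ?_,
      fun i => ?_⟩
    · intro z hz
      rw [Finset.mem_coe, Finset.mem_image] at hz
      obtain ⟨p, -, rfl⟩ := hz
      exact ⟨fun n => ω n p.1 p.2, fun n => hω n p.1 p.2, rfl⟩
    · have h1 : gpt U f a i₀ i = (∑ l, gm U (fun n => ω n i l) * cst U (e l)) /
          ∑ l, gm U (fun n => ω n i₀ l) * cst U (e l) := by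
        have h2 : ∀ i, (∑ l, gm U (fun n => ω n i l) * cst U (e l)) =
            gm U fun n => c n * itr f a n i := by
          intro i
          have h3 : (fun n => c n * itr f a n i) = fun n => ∑ l, ω n i l * e l :=
            funext fun n => hc n i
          rw [h3, gm_sum]
          rfl
        rw [h2, h2, ← gm_div]
        unfold gpt
        congr 1
        funext n
        rw [mul_div_mul_left _ _ (hc0 n)]
      rw [h1]
      have h2 : ∀ i, (∑ l, gm U (fun n => ω n i l) * cst U (e l)) ∈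
          acl (((Finset.univ.image fun p : Fin (N + 1) × Fin r => gm U fun n => ω n p.1 p.2 :
            Finset (Up U T)) : Set (Up U T)) ∪ ((k.map (cst U) : Set (Up U T)) ∪
            Set.range (gpt U φ b i₀))) ⊔ (cst (E := T) U).fieldRange := by
        intro i
        refine Subfield.sum_mem _ fun l _ => mul_mem ?_ ?_
        · refine (le_sup_left : _ ≤ _ ⊔ (cst (E := T) U).fieldRange) (subset_acl _ (Or.inl ?_))
          rw [Finset.mem_coe, Finset.mem_image]
          exact ⟨(i, l), Finset.mem_univ _, rfl⟩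
        · exact (le_sup_right : (cst (E := T) U).fieldRange ≤ _) ⟨e l, rfl⟩
      exact div_mem (h2 i) (h2 i₀)

end

end Pool.Agent.Helper72.NI
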