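import Pool.Agent.Helper72.NI.Acl

/-!
# Relations of bounded degree
-/

set_option autoImplicit false

namespace Pool.Agent.Helper72.NI

open Polynomial Polynomial.Bivariate

variable {E : Type} [Field E] [CharZero E]

/-- The elements `t` and `c` satisfy a relation over `κ` of degree at most `D`. -/
def Rel (κ : Subfield E) (t : E) (D : ℕ) (c : E) : Prop :=
  ∃ P : MvPolynomial (Fin 2) κ, P ≠ 0 ∧ P.totalDegree ≤ D ∧ MvPolynomial.aeval ![t, c] P = 0

omit [CharZero E] in
theorem Rel.mono {κ : Subfield E} {t c : E} {D D' : ℕ} (h : Rel κ t D c) (hD : D ≤ D') :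
    Rel κ t D' c := by
  obtain ⟨P, h1, h2, h3⟩ := h
  exact ⟨P, h1, h2.trans hD, h3⟩

omit [CharZero E] in
theorem Rel.symm {κ : Subfield E} {t c : E} {D : ℕ} (h : Rel κ t D c) : Rel κ c D t := by
  obtain ⟨P, h1, h2, h3⟩ := h
  have hinj : Function.Injective (Equiv.swap (0 : Fin 2) 1) := (Equiv.swap 0 1).injective
  refine ⟨MvPolynomial.rename (Equiv.swap 0 1) P, ?_, ?_, ?_⟩
  · exact fun h0 => h1 ((map_eq_zero_iff _ (MvPolynomial.rename_injective _ hinj)).1 h0)
  · exact (MvPolynomial.totalDegree_rename_le _ _).trans h2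
  · rw [MvPolynomial.aeval_rename]
    have h4 : (![c, t] : Fin 2 → E) ∘ (Equiv.swap (0 : Fin 2) 1) = ![t, c] := by
      funext i
      fin_cases i <;> simp
    rw [h4, h3]

omit [CharZero E] in
/-- Base change of the constants. -/
theorem Rel.base {κ κ' : Subfield E} (hκ : κ ≤ κ') {t c : E} {D : ℕ} (h : Rel κ t D c) :
    Rel κ' t D c := by
  obtain ⟨P, h1, h2, h3⟩ := h
  have hinj : Function.Injective (Subfield.inclusion hκ) := (Subfield.inclusion hκ).injective
  refine ⟨MvPolynomial.map (Subfield.inclusion hκ) P, ?_, ?_, ?_⟩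
  · exact fun h0 => h1 ((map_eq_zero_iff _ (MvPolynomial.map_injective _ hinj)).1 h0)
  · have h5 : (MvPolynomial.map (Subfield.inclusion hκ) P).totalDegree ≤ P.totalDegree := by
      unfold MvPolynomial.totalDegree
      exact Finset.sup_mono (MvPolynomial.support_map_subset _ _)
    exact h5.trans h2
  · rw [MvPolynomial.aeval_def, MvPolynomial.eval₂_map]
    have h4 : (algebraMap κ' E).comp (Subfield.inclusion hκ) = algebraMap κ E :=
      RingHom.ext fun _ => rfl
    rw [h4, ← MvPolynomial.aeval_def, h3]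

omit [CharZero E] in
theorem aeval_equiv {κ : Subfield E} (p : κ[X][Y]) (t c : E) :
    MvPolynomial.aeval ![t, c] (equivMvPolynomial κ p) =
      (p.map (aeval t : κ[X] →ₐ[κ] E).toRingHom).eval c := by
  induction p using Polynomial.induction_on' with
  | add p q hp hq => rw [map_add, map_add, hp, hq, Polynomial.map_add, eval_add]
  | monomial n p =>
    induction p using Polynomial.induction_on' with
    | add p q hp hq =>
      rw [map_add, map_add, map_add, hp, hq, Polynomial.map_add, eval_add]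
    | monomial m a =>
      rw [← C_mul_X_pow_eq_monomial, ← C_mul_X_pow_eq_monomial]
      simp

omit [CharZero E] in
theorem rel_iff {κ : Subfield E} {t c : E} :
    (∃ D, Rel κ t D c) ↔ ∃ p : κ[X][Y], p ≠ 0 ∧
      (p.map (aeval t : κ[X] →ₐ[κ] E).toRingHom).eval c = 0 := by
  constructor
  · rintro ⟨D, P, h1, h2, h3⟩
    refine ⟨(equivMvPolynomial κ).symm P, ?_, ?_⟩
    · exact fun h0 => h1 ((map_eq_zero_iff _ (equivMvPolynomial κ).symm.injective).1 h0)
    · rw [← aeval_equiv, AlgEquiv.apply_symm_apply, h3]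
  · rintro ⟨p, h1, h2⟩
    refine ⟨_, equivMvPolynomial κ p, ?_, le_rfl, ?_⟩
    · exact fun h0 => h1 ((map_eq_zero_iff _ (equivMvPolynomial κ).injective).1 h0)
    · rw [aeval_equiv, h2]

theorem transcendental_of_notMem {κ : Subfield E} {t : E} (ht : t ∉ acl (κ : Set E)) :
    Function.Injective (aeval t : κ[X] →ₐ[κ] E) := by
  rw [mem_acl] at ht
  exact transcendental_iff_injective.1 ht

theorem Rel.mem_acl {κ : Subfield E} {t c : E} (ht : t ∉ acl (κ : Set E)) {D : ℕ}
    (h : Rel κ t D c) : c ∈ acl (insert t (κ : Set E)) := by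
  obtain ⟨p, h1, h2⟩ := rel_iff.1 ⟨D, h⟩
  refine mem_acl_of_poly (p := p.map (aeval t : κ[X] →ₐ[κ] E).toRingHom) ?_ ?_ h2
  · exact fun h0 => h1 ((Polynomial.map_eq_zero_iff (transcendental_of_notMem ht)).1 h0)
  · intro n
    rw [coeff_map]
    change aeval t (p.coeff n) ∈ _
    rw [aeval_eq_sum_range]
    refine Subfield.sum_mem _ fun i _ => ?_
    rw [Algebra.smul_def]
    refine mul_mem ?_ (pow_mem ?_ _)
    · exact subset_acl _ (Set.mem_insert_of_mem _ (p.coeff n |>.coeff i).2)
    · exact subset_acl _ (Set.mem_insert _ _)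

theorem exists_rel {κ : Subfield E} {t c : E} (h : c ∈ acl (insert t (κ : Set E))) :
    ∃ D, Rel κ t D c := by
  rw [rel_iff]
  rw [mem_acl'] at h
  obtain ⟨p, hp0, hp⟩ := h
  have hle : ∀ a ∈ Algebra.adjoin ℤ (insert t (κ : Set E)), ∃ q : κ[X], aeval t q = a := by
    intro a ha
    induction ha using Algebra.adjoin_induction with
    | mem x hx =>
      rcases hx with rfl | hx
      · exact ⟨X, by rw [aeval_X]⟩
      · exact ⟨C ⟨x, hx⟩, by rw [aeval_C]; rfl⟩
    | algebraMap r => exact ⟨C (r : κ), by rw [aeval_C]; simp⟩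
    | add x y _ _ hx hy =>
      obtain ⟨q, rfl⟩ := hx
      obtain ⟨r, rfl⟩ := hy
      exact ⟨q + r, map_add _ _ _⟩
    | mul x y _ _ hx hy =>
      obtain ⟨q, rfl⟩ := hx
      obtain ⟨r, rfl⟩ := hy
      exact ⟨q * r, map_mul _ _ _⟩
  choose! q hq using hle
  let φ := (aeval t : κ[X] →ₐ[κ] E).toRingHom
  let P : κ[X][Y] := ∑ n ∈ p.support, monomial n (q (p.coeff n : E))
  have hP : P.map φ = p.map (algebraMap (Algebra.adjoin ℤ (insert t (κ : Set E))) E) := by
    rw [Polynomial.map_sum]
    ext n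
    rw [finsetSum_coeff, coeff_map]
    simp only [map_monomial, coeff_monomial]
    rw [Finset.sum_ite_eq' p.support n]
    split_ifs with hn
    · exact hq _ (p.coeff n).2
    · rw [notMem_support_iff.1 hn, map_zero]
  refine ⟨P, ?_, ?_⟩
  · intro h0
    rw [h0, Polynomial.map_zero] at hP
    exact hp0 ((Polynomial.map_eq_zero_iff (f := algebraMap _ E) Subtype.val_injective).1 hP.symm)
  · change (P.map φ).eval c = 0
    rw [hP, eval_map, ← aeval_def, hp]

end Pool.Agent.Helper72.NI
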