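import Pool.Agent.Helper72.NI.Tools
import Pool.Agent.Helper72.NI.RedConst

/-!
# Descent of the field of definition
-/

set_option autoImplicit false

namespace Pool.Agent.Helper72.NI

open Polynomial

section interp

variable {E : Type} [Field E]

/-- A polynomial with values in a subfield at many points has coefficients in the subfield. -/
theorem coeff_mem_of_values {F : Subfield E} {G : E[X]} {s : Finset E} (hsF : ∀ a ∈ s, a ∈ F)
    (hdeg : G.degree < s.card) (hG : ∀ a ∈ s, G.eval a ∈ F) (n : ℕ) : G.coeff n ∈ F := by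
  classical
  let s' : Finset F := s.subtype (fun a => a ∈ F)
  let val : F → F := fun a => if h : G.eval (a : E) ∈ F then ⟨G.eval (a : E), h⟩ else 0
  set Q : F[X] := Lagrange.interpolate s' id val with hQ
  have hcard : s'.card = s.card := by
    rw [Finset.card_subtype, Finset.filter_true_of_mem hsF]
  have hQdeg : (Q.map F.subtype).degree < s.card := by
    rw [degree_map]
    have := Lagrange.degree_interpolate_lt (s := s') val (Set.injOn_id _)
    rwa [hcard] at this
  have heq : G = Q.map F.subtype := by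
    refine Polynomial.eq_of_degrees_lt_of_eval_finset_eq s hdeg hQdeg fun a ha => ?_
    have ha' : (⟨a, hsF a ha⟩ : F) ∈ s' := by
      rw [Finset.mem_subtype]
      exact ha
    have h1 := Lagrange.eval_interpolate_at_node val (Set.injOn_id _) ha'
    rw [← hQ] at h1
    have h2 : val ⟨a, hsF a ha⟩ = ⟨G.eval a, hG a ha⟩ := by
      simp only [val]
      rw [dif_pos (hG a ha)]
    rw [h2] at h1
    have h3 : (Q.map F.subtype).eval a = F.subtype (Q.eval ⟨a, hsF a ha⟩) := by
      have : a = F.subtype ⟨a, hsF a ha⟩ := rfl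
      conv_lhs => rw [this]
      rw [eval_map, eval₂_at_apply]
    rw [h3]
    have h4 : Q.eval (⟨a, hsF a ha⟩ : F) = ⟨G.eval a, hG a ha⟩ := h1
    rw [h4]
    rfl
  rw [heq, coeff_map]
  exact (Q.coeff n).2

/-- A polynomial with a transcendental zero is zero. -/
theorem eq_zero_of_transcendental [CharZero E] {S : Set E} {τ : E} (hτ : τ ∉ acl S) {q : E[X]}
    (hq : ∀ n, q.coeff n ∈ acl S) (h0 : q.eval τ = 0) : q = 0 := by
  by_contra hne
  exact hτ (mem_acl_of_poly hne hq h0)

/-- The powers of a transcendental element are linearly independent. -/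
theorem eq_zero_of_sum [CharZero E] {S : Set E} {τ : E} (hτ : τ ∉ acl S) {n : ℕ}
    {a : Fin n → E} (ha : ∀ i, a i ∈ acl S) (h0 : ∑ i : Fin n, τ ^ (i : ℕ) * a i = 0) (i : Fin n) :
    a i = 0 := by
  classical
  set q : E[X] := ∑ i : Fin n, C (a i) * X ^ (i : ℕ) with hq
  have hcoeff : ∀ i : Fin n, q.coeff i = a i := by
    intro i
    rw [hq, finsetSum_coeff]
    simp only [coeff_C_mul, coeff_X_pow]
    rw [Finset.sum_eq_single i]
    · simp
    · intro j _ hj
      rw [if_neg fun h => hj (Fin.ext h.symm), mul_zero]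
    · intro h
      exact absurd (Finset.mem_univ _) h
  have hmem : ∀ m, q.coeff m ∈ acl S := by
    intro m
    rw [hq, finsetSum_coeff]
    refine Subfield.sum_mem _ fun j _ => ?_
    rw [coeff_C_mul, coeff_X_pow]
    split_ifs
    · rw [mul_one]
      exact ha j
    · rw [mul_zero]
      exact zero_mem _
  have hev : q.eval τ = 0 := by
    rw [hq, eval_finsetSum, ← h0]
    refine Finset.sum_congr rfl fun j _ => ?_
    rw [eval_mul, eval_C, eval_pow, eval_X, mul_comm]
  have h1 := eq_zero_of_transcendental hτ hmem hev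
  rw [← hcoeff i, h1, coeff_zero]

/-- If a combination with the powers of a transcendental element is algebraic, then so are the
coefficients. -/
theorem coeff_mem_of_sum [CharZero E] [IsAlgClosed E] {S S' : Set E} {τ : E} (hSS' : S ⊆ S')
    (hτ : τ ∉ acl S') {n : ℕ} {a : Fin n → E} (ha : ∀ i, a i ∈ acl S')
    (h : ∑ i : Fin n, τ ^ (i : ℕ) * a i ∈ acl (insert τ S)) (i : Fin n) : a i ∈ acl S := by
  classical
  set u := ∑ i : Fin n, τ ^ (i : ℕ) * a i with hu
  set F := acl S with hF
  have hu' : u ∈ acl (insert τ (F : Set E)) := by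
    rw [hF, acl_insert_acl]
    exact h
  obtain ⟨D, hD⟩ := exists_rel hu'
  obtain ⟨p, hp0, hp⟩ := rel_iff.1 ⟨D, hD⟩
  have hFS' : F ≤ acl S' := acl_mono hSS'
  -- the polynomial in `τ`
  set G : E[X] := ∑ i : Fin n, C (a i) * X ^ (i : ℕ) with hG
  have hGτ : ∀ c : E, G.eval c = ∑ i : Fin n, c ^ (i : ℕ) * a i := by
    intro c
    rw [hG, eval_finsetSum]
    refine Finset.sum_congr rfl fun j _ => ?_
    rw [eval_mul, eval_C, eval_pow, eval_X, mul_comm]
  have hGmem : ∀ m, G.coeff m ∈ acl S' := by
    intro m
    rw [hG, finsetSum_coeff]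
    refine Subfield.sum_mem _ fun j _ => ?_
    rw [coeff_C_mul, coeff_X_pow]
    split_ifs
    · rw [mul_one]
      exact ha j
    · rw [mul_zero]
      exact zero_mem _
  set q : E[X] := ∑ m ∈ p.support, (p.coeff m).map F.subtype * G ^ m with hq
  have hqev : ∀ c : E, q.eval c =
      (p.map (aeval c : F[X] →ₐ[F] E).toRingHom).eval (G.eval c) := by
    intro c
    rw [hq, eval_finsetSum, eval_map, eval₂_eq_sum, Polynomial.sum]
    refine Finset.sum_congr rfl fun m _ => ?_
    rw [eval_mul, eval_pow, eval_map]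
    rfl
  have hlift : ∀ P : E[X], (∀ m, P.coeff m ∈ acl S') → ∃ P' : (acl S')[X],
      P'.map (acl S').subtype = P := by
    intro P hP
    have h1 : P ∈ Polynomial.lifts (acl S').subtype := by
      rw [Polynomial.lifts_iff_coeff_lifts]
      intro m
      exact ⟨⟨_, hP m⟩, rfl⟩
    exact (Polynomial.mem_lifts _).1 h1
  have hqmem : ∀ m, q.coeff m ∈ acl S' := by
    obtain ⟨G', hG'⟩ := hlift G hGmem
    have h2 : ∀ m, ∃ P' : (acl S')[X], P'.map (acl S').subtype = (p.coeff m).map F.subtype :=
      fun m => hlift _ fun l => by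
        rw [coeff_map]
        exact hFS' ((p.coeff m).coeff l).2
    choose P' hP' using h2
    have h3 : q = (∑ m ∈ p.support, P' m * G' ^ m).map (acl S').subtype := by
      rw [hq, Polynomial.map_sum]
      refine Finset.sum_congr rfl fun m _ => ?_
      rw [Polynomial.map_mul, Polynomial.map_pow, hP', hG']
    intro m
    rw [h3, coeff_map]
    exact ((∑ m ∈ p.support, P' m * G' ^ m : (acl S')[X]).coeff m).2
  have hq0 : q = 0 := by
    refine eq_zero_of_transcendental hτ hqmem ?_
    rw [hqev, hGτ]
    exact hp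
  -- values at constants
  obtain ⟨m₀, hm₀⟩ : ∃ m, p.coeff m ≠ 0 := by
    by_contra hcon
    push Not at hcon
    exact hp0 (Polynomial.ext fun m => by rw [hcon m, coeff_zero])
  set bad : Finset E := ((p.coeff m₀).map F.subtype).roots.toFinset with hbad
  have hval : ∀ c : E, c ∈ F → c ∉ bad → G.eval c ∈ F := by
    intro c hc hcb
    have h1 := hqev c
    rw [hq0, eval_zero] at h1
    rw [hF]
    refine mem_acl_of_poly (p := p.map (aeval c : F[X] →ₐ[F] E).toRingHom) ?_ ?_ h1.symm
    · intro h2
      apply hcb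
      rw [hbad, Multiset.mem_toFinset, mem_roots ((Polynomial.map_ne_zero_iff
        F.subtype.injective).2 hm₀), IsRoot.def, eval_map]
      have h3 := congrArg (fun P : E[X] => P.coeff m₀) h2
      simp only [coeff_map, coeff_zero] at h3
      exact h3
    · intro m
      rw [coeff_map]
      change aeval c (p.coeff m) ∈ _
      rw [aeval_eq_sum_range]
      refine Subfield.sum_mem _ fun l _ => ?_
      rw [Algebra.smul_def]
      exact mul_mem ((p.coeff m).coeff l).2 (pow_mem hc _)
  have hinf : (Set.range (fun m : ℕ => (m : E)) \ (bad : Set E)).Infinite :=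
    (Set.infinite_range_of_injective Nat.cast_injective).sdiff bad.finite_toSet
  obtain ⟨s, hs, hcard⟩ := hinf.exists_subset_card_eq (n + 1)
  have hsF : ∀ c ∈ s, c ∈ F := by
    intro c hc
    obtain ⟨⟨m, rfl⟩, -⟩ := hs hc
    exact natCast_mem _ m
  have hGdeg : G.degree < s.card := by
    rw [hcard]
    exact (degree_sum_fin_lt a).trans (by exact_mod_cast Nat.lt_succ_self n)
  have h5 := coeff_mem_of_values hsF hGdeg (fun c hc => hval c (hsF c hc) (hs hc).2) i
  have hcoeff : G.coeff i = a i := by
    rw [hG, finsetSum_coeff]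
    simp only [coeff_C_mul, coeff_X_pow]
    rw [Finset.sum_eq_single i]
    · simp
    · intro j _ hj
      rw [if_neg fun h => hj (Fin.ext h.symm), mul_zero]
    · intro h
      exact absurd (Finset.mem_univ _) h
  rwa [hcoeff] at h5

end interp

end Pool.Agent.Helper72.NI
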