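import Pool.Agent.Helper72.NI.Step

/-!
# Descent of the field of definition: the step
-/

set_option autoImplicit false

namespace Pool.Agent.Helper72.NI

open MvPolynomial

variable {E : Type} [Field E] [CharZero E] {Γ : Type} [LinearOrderedCommGroupWithZero Γ]
  {v : Valuation E Γ} {k K Ω : Subfield E} {t : E} {N d : ℕ}
  {f φ : Fin (N + 1) → MvPolynomial (Fin (N + 1)) E}

omit [CharZero E] in
/-- Transport of low heights by an embedding. -/
theorem Low.hom {Z κ κ' : Subfield E} (ι : Z →+* E) (hκZ : κ ≤ Z)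
    (hκ : ∀ b (hb : b ∈ κ), ι ⟨b, hκZ hb⟩ ∈ κ') (ht : t ∈ Z) (hιt : ι ⟨t, ht⟩ = t)
    (hfZ : ∀ i m, (f i).coeff m ∈ Z)
    (hf : ∀ i m, ι ⟨(f i).coeff m, hfZ i m⟩ = (f i).coeff m) {x : Fin (N + 1) → E}
    (hx : ∀ i, x i ∈ Z) (hlow : Low κ t f x) : Low κ' t f fun i => ι ⟨x i, hx i⟩ := by
  obtain ⟨D, hD⟩ := hlow
  refine ⟨2 * D, fun n i j hj => ?_⟩
  have hi := itr_hom ι hfZ hf hx n i
  have hj' := itr_hom ι hfZ hf hx n j
  rw [← hj'] at hj
  have h0 : itr f x n j ≠ 0 := by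
    intro h1
    apply hj
    have h2 : (⟨itr f x n j, itr_mem hfZ hx n j⟩ : Z) = 0 := Subtype.ext h1
    rw [h2, map_zero]
  have h1 : RelB κ ((⟨t, ht⟩ : Z) : E) D
      (((⟨itr f x n i, itr_mem hfZ hx n i⟩ / ⟨itr f x n j, itr_mem hfZ hx n j⟩ : Z)) : E) :=
    (hD n i j h0).relB
  have h2 := (relB_map ι hκZ hκ h1).rel
  rw [map_div₀, hi, hj', hιt] at h2
  exact h2

/-- **The step.** -/
theorem step_down (growth : GrowthStatement) (c : Ctx v k K Ω t d f φ) {x y : Fin (N + 1) → E}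
    {i₀ : Fin (N + 1)} (hpt : Pt v Ω x y i₀) {S : Set E} (hkS : (k : Set E) ⊆ S) (hSΩ : S ⊆ Ω)
    (hS : S.Countable) (hy : ∀ i, y i ∈ acl S) {w : E} (hw : w ∈ Ω)
    (hx : ∀ i, x i ∈ acl (insert w S) ⊔ K) (hlow : Low Ω t f x) (i : Fin (N + 1)) :
    x i ∈ acl S ⊔ K := by
  have := c.algE
  have := c.algΩ
  have hF : IsAlgClosed (acl S) := isAlgClosed_acl S
  by_cases hwS : w ∈ acl S
  · have h1 : acl (insert w S) = acl S := by
      apply le_antisymm
      · exact acl_le (Set.insert_subset hwS (subset_acl S))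
      · exact acl_mono (Set.subset_insert _ _)
    rw [← h1]
    exact hx i
  -- notation
  set κ := acl (insert w S) with hκ
  have hkκ : k ≤ κ := fun a ha => subset_acl _ (Set.mem_insert_of_mem _ (hkS ha))
  have hwSΩ : insert w S ⊆ (Ω : Set E) := Set.insert_subset hw hSΩ
  have hκΩ : κ ≤ Ω := acl_le_self hwSΩ
  have hacS : acl S ≤ Ω := acl_le_self hSΩ
  have hacK : acl (S ∪ K) = acl (insert t S) := c.acl_K hkS
  have hxκt : ∀ i, x i ∈ acl (insert t (κ : Set E)) := by
    intro i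
    have h1 : κ ⊔ K ≤ acl (insert t (κ : Set E)) := sup_le
      (fun a ha => subset_acl _ (Set.mem_insert_of_mem _ ha))
      (fun a ha => acl_mono (Set.insert_subset_insert hkκ) (c.Kt a ha))
    exact h1 (hx i)
  have hxS' : ∀ i, x i ∈ acl (insert t (insert w S)) := by
    intro i
    have h1 := hxκt i
    have h2 : acl (insert t (κ : Set E)) = acl (insert t (insert w S)) := acl_insert_acl _ _
    rwa [h2] at h1
  by_contra hcon
  obtain ⟨τ, hτΩ, hτ⟩ := c.big (insert w S) hwSΩ (hS.insert w)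
  have hτS : τ ∉ acl S := fun h => hτ (acl_mono (Set.subset_insert _ _) h)
  obtain ⟨u', hu'Ω, hu'⟩ := c.big (insert τ (insert w S)) (Set.insert_subset hτΩ hwSΩ)
    ((hS.insert w).insert τ)
  have hτSΩ : insert τ S ⊆ (Ω : Set E) := Set.insert_subset hτΩ hSΩ
  -- the element `u`
  set u : E := ∑ i : Fin (N + 1), τ ^ (i : ℕ) * x i with hu
  have hu0 : u ∉ acl (insert τ S ∪ (K : Set E)) := by
    intro h
    rw [c.acl_K (hkS.trans (Set.subset_insert _ _)), Set.insert_comm] at h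
    have h1 : ∀ i, x i ∈ acl (insert t S) := by
      intro i
      refine coeff_mem_of_sum (S := insert t S) (S' := insert t (insert w S)) (τ := τ)
        (Set.insert_subset_insert (Set.subset_insert _ _)) ?_ hxS' h i
      intro h2
      exact hτ (c.mem_of_t hwSΩ hτΩ h2)
    have hw' : w ∉ acl ((acl S : Set E) ∪ K) := by
      rw [acl_union_acl, hacK]
      exact fun h2 => hwS (c.mem_of_t hSΩ hw h2)
    have h2 : x i ∈ acl S ⊔ K := by
      refine mem_sup_of_algebraic (F := acl S) (w := w) hw' ?_ ?_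
      · rw [acl_insert_acl]
        exact hx i
      · rw [acl_union_acl, hacK]
        exact h1 i
    exact hcon h2
  have hu'0 : u' ∉ acl (insert τ S ∪ (K : Set E)) := by
    intro h
    rw [c.acl_K (hkS.trans (Set.subset_insert _ _))] at h
    have h1 := c.mem_of_t hτSΩ hu'Ω h
    exact hu' (acl_mono (Set.insert_subset_insert (Set.subset_insert _ _)) h1)
  set M : Subfield E := acl (insert τ S ∪ (K : Set E)) with hM
  have hindep : ∀ z : E, z ∉ M → AlgebraicIndependent M (fun _ : Unit => z) := by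
    intro z hz
    rw [algebraicIndependent_unique_type_iff]
    intro h
    exact hz (isAlgebraic_iff_of_acl.1 h)
  set Z : Subfield E := acl ((M : Set E) ∪ Set.range fun _ : Unit => u) with hZ
  obtain ⟨ι, hι, hιu⟩ : ∃ ι : Z →+* E,
      (∀ a (ha : a ∈ M), ι ⟨a, subset_acl _ (Or.inl ha)⟩ = a) ∧
      ∀ j : Unit, ι ⟨u, subset_acl _ (Or.inr ⟨j, rfl⟩)⟩ = u' :=
    exists_emb M (hindep u hu0) (hindep u' hu'0)
  have hMZ : M ≤ Z := fun a ha => subset_acl _ (Or.inl ha)
  have hSM : acl S ≤ M := acl_mono fun a ha => Or.inl (Set.mem_insert_of_mem _ ha)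
  have hKM : K ≤ M := fun a ha => subset_acl _ (Or.inr ha)
  have hτM : τ ∈ M := subset_acl _ (Or.inl (Set.mem_insert _ _))
  have huZ : u ∈ Z := subset_acl _ (Or.inr ⟨(), rfl⟩)
  have hZeq : Z = acl (insert u (insert τ S ∪ (K : Set E))) := by
    rw [hZ, hM, acl_union_acl]
    congr 1
    ext a
    simp [or_comm, eq_comm]
  have hwZ : w ∈ Z := by
    have h1 : u ∈ acl (insert w (insert τ S ∪ (K : Set E))) := by
      have h2 : acl (insert w (insert τ S ∪ (K : Set E))) =
          acl (insert t (insert w (insert τ S))) := by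
        have h3 : insert w (insert τ S ∪ (K : Set E)) = (insert w (insert τ S)) ∪ K := by
          exact Set.insert_union.symm
        rw [h3]
        exact c.acl_K (hkS.trans ((Set.subset_insert _ _).trans (Set.subset_insert _ _)))
      rw [h2, hu]
      refine Subfield.sum_mem _ fun i _ => mul_mem (pow_mem ?_ _) ?_
      · exact subset_acl _ (Or.inr (Or.inr (Or.inl rfl)))
      · exact acl_mono (Set.insert_subset_insert (Set.insert_subset_insert
          (Set.subset_insert _ _))) (hxS' i)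
    rw [hZeq]
    exact exchange h1 hu0
  have hκZ : κ ≤ Z := by
    rw [hκ, hZ]
    refine acl_le ?_
    rintro a (rfl | ha)
    · exact hwZ
    · exact hMZ (hSM (subset_acl S ha))
  have hKZ : K ≤ Z := hKM.trans hMZ
  have hxZ : ∀ i, x i ∈ Z := fun i => sup_le hκZ hKZ (hx i)
  have hιK : ∀ a : Z, (a : E) ∈ K → ι a = a := fun a ha => hι a (hKM ha)
  have htZ : t ∈ Z := hKZ c.tK
  have hιt : ι ⟨t, htZ⟩ = t := hιK ⟨t, htZ⟩ c.tK
  have hιτ : ι ⟨τ, hMZ hτM⟩ = τ := hι τ hτM
  have hιw : ι ⟨w, hwZ⟩ ∉ M := by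
    intro h
    have h1 : ι ⟨ι ⟨w, hwZ⟩, hMZ h⟩ = ι ⟨w, hwZ⟩ := hι _ h
    have h2 := congrArg (fun c : Z => (c : E)) (ι.injective h1)
    change ι ⟨w, hwZ⟩ = w at h2
    rw [h2, hM, c.acl_K (hkS.trans (Set.subset_insert _ _))] at h
    exact hτ (exchange (c.mem_of_t hτSΩ hw h) hwS)
  -- the value of `u'`
  have hu'eq : u' = ∑ i : Fin (N + 1), τ ^ (i : ℕ) * ι ⟨x i, hxZ i⟩ := by
    have h1 : (⟨u, huZ⟩ : Z) = ∑ i : Fin (N + 1), ⟨τ, hMZ hτM⟩ ^ (i : ℕ) * ⟨x i, hxZ i⟩ := by
      apply Subtype.ext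
      push_cast
      exact hu
    have h2 : ι ⟨u, huZ⟩ = u' := hιu ()
    rw [h1, map_sum] at h2
    rw [← h2]
    refine Finset.sum_congr rfl fun i _ => ?_
    rw [map_mul, map_pow, hιτ]
  have hτcg : ∀ n : ℕ, Cg v (τ ^ n) (τ ^ n) := fun n => Cg.refl (c.valΩ _ (pow_mem hτΩ n))
  by_cases hA : ∀ b : Z, (b : E) ∈ κ → v (ι b) ≤ 1
  · -- the constants stay constant
    have hxy : ∀ i, Cg v (ι ⟨x i, hxZ i⟩) (y i) := by
      intro i
      obtain ⟨b, hb, h1, h2⟩ := up c.kK hkκ hKZ hκZ ι hιK c.resK (fun b hb => c.valΩ b (hκΩ hb))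
        hA (z := ⟨x i, hxZ i⟩) (hx i) (hpt.int i)
      have hby : (b : E) = y i := by
        have h3 : Cg v (x i) b := ⟨hpt.int i, c.valΩ _ (hκΩ hb), h1⟩
        have h4 : Cg v (x i) (y i) := ⟨hpt.int i, c.valΩ _ (hpt.mem i), hpt.red i⟩
        exact (h3.symm.trans h4).eq c.valΩ (hκΩ hb) (hpt.mem i)
      have hιb : ι b = y i := by
        have h3 : ι b = (b : E) := hι b (hSM (by rw [hby]; exact hy i))
        rw [h3, hby]
      rw [hιb] at h2
      refine ⟨?_, c.valΩ _ (hpt.mem i), h2⟩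
      have h5 : ι ⟨x i, hxZ i⟩ = y i + (ι ⟨x i, hxZ i⟩ - y i) := by ring
      rw [h5]
      exact (v.map_add _ _).trans (max_le (c.valΩ _ (hpt.mem i)) h2.le)
    have h1 : Cg v u' (∑ i : Fin (N + 1), τ ^ (i : ℕ) * y i) := by
      rw [hu'eq]
      exact Cg.sum _ fun i _ => (hτcg i).mul (hxy i)
    have h2 : ∑ i : Fin (N + 1), τ ^ (i : ℕ) * y i ∈ acl (insert τ S) :=
      Subfield.sum_mem _ fun i _ => mul_mem (pow_mem (subset_acl _ (Set.mem_insert _ _)) _)
        (acl_mono (Set.subset_insert _ _) (hy i))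
    have h3 := h1.eq c.valΩ hu'Ω (acl_le_self hτSΩ h2)
    rw [← h3] at h2
    exact hu' (acl_mono (Set.insert_subset_insert (Set.subset_insert _ _)) h2)
  · -- the constants degenerate
    push Not at hA
    obtain ⟨b, hb, hb1⟩ := hA
    have hbS : ι b ∈ acl (insert (ι ⟨w, hwZ⟩) S) := by
      refine acl_hom ι (S := insert w S) ?_ ?_ b.2 hb
      · exact Set.insert_subset hwZ fun a ha => hMZ (hSM (subset_acl S ha))
      · rintro s (rfl | hs)
        · exact subset_acl _ (Set.mem_insert _ _)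
        · have h1 : ι ⟨s, hMZ (hSM (subset_acl S hs))⟩ = s := hι s (hSM (subset_acl S hs))
          rw [h1]
          exact subset_acl _ (Set.mem_insert_of_mem _ hs)
    set κ' := acl (insert (ι ⟨w, hwZ⟩) S) with hκ'
    have hκ'alg : IsAlgClosed κ' := isAlgClosed_acl _
    have hκ'eq : κ' = acl (insert (ι ⟨w, hwZ⟩) (acl S : Set E)) := (acl_insert_acl _ _).symm
    have hb0 : ι b ≠ 0 := by
      intro h
      rw [h, map_zero] at hb1
      exact absurd hb1 (not_lt.2 zero_le)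
    have hres : ∀ z ∈ κ', v z ≤ 1 → ∃ c ∈ acl S, v (z - c) < 1 := by
      intro z hz hz1
      refine exists_residue (F := acl S) (w := ι ⟨w, hwZ⟩) (m := (ι b)⁻¹)
        (fun b hb => c.valΩ b (hacS hb)) ?_ (inv_ne_zero hb0) ?_ ?_ hz1
      · rw [← hκ'eq]
        exact inv_mem hbS
      · rw [map_inv₀]
        exact inv_lt_one_of_one_lt₀ hb1
      · rw [← hκ'eq]
        exact hz
    have htκ' : t ∉ κ' := by
      intro h
      have h1 := exchange h (c.t_notMem hSΩ)
      apply hιw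
      rw [hM, c.acl_K (hkS.trans (Set.subset_insert _ _))]
      exact acl_mono (Set.insert_subset_insert (Set.subset_insert _ _)) h1
    have hfZ : ∀ i m, (f i).coeff m ∈ Z := fun i m => hKZ (c.endf.coeff i m)
    have hlowκ : Low κ t f x := by
      have : IsAlgClosed κ := isAlgClosed_acl _
      exact c.low_descend hkκ hκΩ hxκt hlow
    have hlow' : Low κ' t f fun i => ι ⟨x i, hxZ i⟩ := by
      refine Low.hom ι hκZ ?_ htZ hιt hfZ (fun i m => hιK _ (c.endf.coeff i m)) hxZ hlowκ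
      intro b hb
      refine acl_hom ι (S := insert w S) ?_ ?_ (hκZ hb) hb
      · exact Set.insert_subset hwZ fun a ha => hMZ (hSM (subset_acl S ha))
      · rintro s (rfl | hs)
        · exact subset_acl _ (Set.mem_insert _ _)
        · have h1 : ι ⟨s, hMZ (hSM (subset_acl S hs))⟩ = s := hι s (hSM (subset_acl S hs))
          rw [h1]
          exact subset_acl _ (Set.mem_insert_of_mem _ hs)
    obtain ⟨i₁, -, hmax⟩ := Finset.exists_max_image Finset.univ
      (fun i => v (ι ⟨x i, hxZ i⟩)) ⟨i₀, Finset.mem_univ _⟩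
    have hx1 : ι ⟨x i₀, hxZ i₀⟩ = 1 := by
      have h1 : (⟨x i₀, hxZ i₀⟩ : Z) = 1 := Subtype.ext hpt.x1
      rw [h1, map_one]
    have hi₁ : ι ⟨x i₁, hxZ i₁⟩ ≠ 0 := by
      intro h
      have h1 := hmax i₀ (Finset.mem_univ _)
      rw [h, map_zero, hx1, map_one] at h1
      exact absurd (le_antisymm h1 zero_le) one_ne_zero
    set X : Fin (N + 1) → E := (ι ⟨x i₁, hxZ i₁⟩)⁻¹ • fun i => ι ⟨x i, hxZ i⟩ with hX
    have hXi : ∀ i, X i = (ι ⟨x i₁, hxZ i₁⟩)⁻¹ * ι ⟨x i, hxZ i⟩ := fun i => rfl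
    have hXint : ∀ i, v (X i) ≤ 1 := by
      intro i
      rw [hXi, map_mul, map_inv₀, ← div_eq_inv_mul]
      exact div_le_one_of_le₀ (hmax i (Finset.mem_univ _)) zero_le
    have hX1 : X i₁ = 1 := by rw [hXi, inv_mul_cancel₀ hi₁]
    choose ζ hζΩ hζ using fun i => c.resE (X i) (hXint i)
    have hζ1 : ζ i₁ = 1 := by
      have h1 : Cg v 1 (ζ i₁) := ⟨by rw [map_one], c.valΩ _ (hζΩ i₁), by rw [← hX1]; exact hζ i₁⟩
      exact (h1.eq c.valΩ (one_mem _) (hζΩ i₁)).symm
    have hζ0 : ζ ≠ 0 := by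
      intro h
      rw [h] at hζ1
      exact zero_ne_one hζ1
    obtain ⟨b', hb'0, hb'⟩ := reduce_const' growth c (κ' := κ') (κ₂ := acl S)
      (fun a ha => subset_acl _ (Set.mem_insert_of_mem _ (hkS ha)))
      (fun a ha => subset_acl _ (hkS ha)) hacS htκ' hres hXint hζΩ hζ hζ0
      (hlow'.smul c.endf (inv_ne_zero hi₁))
    have hb'S : b' ∈ acl S := by
      have := hb' i₁
      rwa [hζ1, mul_one] at this
    have hζS : ∀ i, ζ i ∈ acl S := by
      intro i
      have h1 := mul_mem (inv_mem hb'S) (hb' i)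
      rwa [inv_mul_cancel_left₀ hb'0] at h1
    have hsum : u' * X i₀ = ∑ i : Fin (N + 1), τ ^ (i : ℕ) * X i := by
      rw [hXi, hx1, mul_one, hu'eq, Finset.sum_mul]
      refine Finset.sum_congr rfl fun i _ => ?_
      rw [hXi]
      ring
    have hζsum : u' * ζ i₀ = ∑ i : Fin (N + 1), τ ^ (i : ℕ) * ζ i := by
      have hXζ : ∀ i, Cg v (X i) (ζ i) := fun i => ⟨hXint i, c.valΩ _ (hζΩ i), hζ i⟩
      have h1 : Cg v (u' * X i₀) (u' * ζ i₀) := (Cg.refl (c.valΩ _ hu'Ω)).mul (hXζ i₀)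
      have h2 : Cg v (∑ i : Fin (N + 1), τ ^ (i : ℕ) * X i)
          (∑ i : Fin (N + 1), τ ^ (i : ℕ) * ζ i) := Cg.sum _ fun i _ => (hτcg i).mul (hXζ i)
      rw [← hsum] at h2
      refine (h1.symm.trans h2).eq c.valΩ (mul_mem hu'Ω (hζΩ i₀)) ?_
      exact Subfield.sum_mem _ fun i _ => mul_mem (pow_mem hτΩ _) (hζΩ i)
    by_cases hζ00 : ζ i₀ = 0
    · rw [hζ00, mul_zero] at hζsum
      have h1 := eq_zero_of_sum hτS hζS hζsum.symm i₁
      rw [hζ1] at h1
      exact one_ne_zero h1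
    · have h1 : u' = (∑ i : Fin (N + 1), τ ^ (i : ℕ) * ζ i) / ζ i₀ := by
        rw [← hζsum, mul_div_cancel_right₀ _ hζ00]
      have h2 : u' ∈ acl (insert τ S) := by
        rw [h1]
        refine div_mem (Subfield.sum_mem _ fun i _ => mul_mem
          (pow_mem (subset_acl _ (Set.mem_insert _ _)) _) ?_) ?_
        · exact acl_mono (Set.subset_insert _ _) (hζS i)
        · exact acl_mono (Set.subset_insert _ _) (hζS i₀)
      exact hu' (acl_mono (Set.insert_subset_insert (Set.subset_insert _ _)) h2)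

/-- The point is defined over `k(y)` and `K`. -/
theorem descend_all (growth : GrowthStatement) (c : Ctx v k K Ω t d f φ)
    {x y : Fin (N + 1) → E} {i₀ : Fin (N + 1)} (hpt : Pt v Ω x y i₀) (W : Finset E)
    (hW : (W : Set E) ⊆ Ω)
    (hx : ∀ i, x i ∈ acl ((W : Set E) ∪ ((k : Set E) ∪ Set.range y)) ⊔ K)
    (hlow : Low Ω t f x) (i : Fin (N + 1)) : x i ∈ acl ((k : Set E) ∪ Set.range y) ⊔ K := by
  classical
  induction W using Finset.induction_on generalizing i with
  | empty => simpa using hx i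
  | insert w W hwW ih =>
    rw [Finset.coe_insert] at hW hx
    refine ih ((Set.subset_insert _ _).trans hW) (fun i => ?_) i
    have hSΩ : (W : Set E) ∪ ((k : Set E) ∪ Set.range y) ⊆ Ω := by
      refine Set.union_subset ((Set.subset_insert _ _).trans hW) (Set.union_subset c.kΩ ?_)
      rintro _ ⟨i, rfl⟩
      exact hpt.mem i
    refine step_down growth c hpt (S := (W : Set E) ∪ ((k : Set E) ∪ Set.range y))
      (fun a ha => Or.inr (Or.inl ha)) hSΩ ?_ (fun i => subset_acl _ (Or.inr (Or.inr ⟨i, rfl⟩)))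
      (hW (Set.mem_insert _ _)) (fun i => ?_) hlow i
    · exact (W.countable_toSet).union (c.countk.union (Set.countable_range y))
    · have := hx i
      rwa [Set.insert_union] at this

end Pool.Agent.Helper72.NI
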