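import Pool.Agent.Helper72.NI.Desc

/-!
# Tools
-/

set_option autoImplicit false

namespace Pool.Agent.Helper72.NI

open MvPolynomial

section

variable {E : Type} [Field E] [CharZero E]

/-- Homomorphisms map algebraic elements to algebraic elements. -/
theorem acl_hom {E' : Type} [Field E'] [CharZero E'] {Z : Subfield E} (ι : Z →+* E') {S : Set E}
    {T : Set E'} (hSZ : S ⊆ Z) (hST : ∀ s (hs : s ∈ S), ι ⟨s, hSZ hs⟩ ∈ acl T) {z : E}
    (hz : z ∈ Z) (hzS : z ∈ acl S) : ι ⟨z, hz⟩ ∈ acl T := by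
  rw [mem_acl'] at hzS
  obtain ⟨p, hp0, hp⟩ := hzS
  have hle : ∀ a ∈ Algebra.adjoin ℤ S, ∃ h : a ∈ Z, ι ⟨a, h⟩ ∈ acl T := by
    intro a ha
    induction ha using Algebra.adjoin_induction with
    | mem x hx => exact ⟨hSZ hx, hST x hx⟩
    | algebraMap r =>
      refine ⟨intCast_mem _ r, ?_⟩
      have h1 : ι ⟨(r : E), intCast_mem _ r⟩ = (r : E') := by
        have h2 : (⟨(r : E), intCast_mem _ r⟩ : Z) = (r : Z) := rfl
        rw [h2, map_intCast]
      have h2 : (algebraMap ℤ E) r = (r : E) := rfl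
      simp only [h2]
      rw [h1]
      exact intCast_mem _ r
    | add x y _ _ hx hy =>
      obtain ⟨hx1, hx2⟩ := hx
      obtain ⟨hy1, hy2⟩ := hy
      refine ⟨add_mem hx1 hy1, ?_⟩
      have h1 : (⟨x + y, add_mem hx1 hy1⟩ : Z) = ⟨x, hx1⟩ + ⟨y, hy1⟩ := rfl
      rw [h1, map_add]
      exact add_mem hx2 hy2
    | mul x y _ _ hx hy =>
      obtain ⟨hx1, hx2⟩ := hx
      obtain ⟨hy1, hy2⟩ := hy
      refine ⟨mul_mem hx1 hy1, ?_⟩
      have h1 : (⟨x * y, mul_mem hx1 hy1⟩ : Z) = ⟨x, hx1⟩ * ⟨y, hy1⟩ := rfl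
      rw [h1, map_mul]
      exact mul_mem hx2 hy2
  let j : Algebra.adjoin ℤ S →+* Z :=
    { toFun := fun a => ⟨a.1, (hle a.1 a.2).1⟩
      map_one' := rfl
      map_mul' := fun _ _ => rfl
      map_zero' := rfl
      map_add' := fun _ _ => rfl }
  have hj : Function.Injective j := fun a b hab =>
    Subtype.ext (congrArg (fun c : Z => (c : E)) hab)
  have hpZ : Polynomial.eval₂ j ⟨z, hz⟩ p = 0 := by
    have h1 : Z.subtype (Polynomial.eval₂ j ⟨z, hz⟩ p) = 0 := by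
      rw [Polynomial.hom_eval₂, ← hp, Polynomial.aeval_def]
      rfl
    exact (map_eq_zero Z.subtype).1 h1
  refine mem_acl_of_poly (p := p.map (ι.comp j)) ?_ ?_ ?_
  · have hinj : Function.Injective (ι.comp j) := fun a b hab => hj (ι.injective hab)
    exact (Polynomial.map_ne_zero_iff hinj).2 hp0
  · intro n
    rw [Polynomial.coeff_map]
    exact (hle _ (p.coeff n).2).2
  · rw [Polynomial.eval_map, ← Polynomial.hom_eval₂, hpZ, map_zero]

/-- Homomorphisms of the whole field. -/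
theorem acl_map {E' : Type} [Field E'] [CharZero E'] (h : E →+* E') {S : Set E} {T : Set E'}
    (hST : ∀ s ∈ S, h s ∈ acl T) {z : E} (hz : z ∈ acl S) : h z ∈ acl T :=
  acl_hom (Z := ⊤) (h.comp (Subfield.subtype ⊤)) (fun _ _ => trivial) (fun s hs => hST s hs)
    (z := z) trivial hz

end

section

variable {E : Type} [Field E]

theorem relB_map {Z κ κ' : Subfield E} (ι : Z →+* E) (hκZ : κ ≤ Z)
    (hκ : ∀ b (hb : b ∈ κ), ι ⟨b, hκZ hb⟩ ∈ κ') {t z : Z} {D : ℕ}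
    (h : RelB κ (t : E) D (z : E)) : RelB κ' (ι t) D (ι z) := by
  obtain ⟨g, hg, ⟨p₀, hp₀⟩, h0⟩ := h
  refine ⟨fun p => ι ⟨g p, hκZ (hg p)⟩, fun p => hκ _ (hg p), ⟨p₀, ?_⟩, ?_⟩
  · intro h1
    have h2 := (map_eq_zero ι).1 h1
    exact hp₀ (congrArg (fun c : Z => (c : E)) h2)
  · have h1 : (∑ p, (⟨g p, hκZ (hg p)⟩ : Z) * (t ^ (p.1 : ℕ) * z ^ (p.2 : ℕ))) = 0 := by
      apply Subtype.ext
      push_cast
      exact h0
    have h2 := congrArg ι h1
    rw [map_sum, map_zero] at h2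
    rw [← h2]
    refine Finset.sum_congr rfl fun p _ => ?_
    rw [map_mul, map_mul, map_pow, map_pow]

variable {N : ℕ}

theorem eval_hom {Z : Subfield E} {σ : Type} (ι : Z →+* E) {P : MvPolynomial σ E}
    (hPZ : ∀ m, P.coeff m ∈ Z) (hP : ∀ m, ι ⟨P.coeff m, hPZ m⟩ = P.coeff m) {x : σ → E}
    (hx : ∀ i, x i ∈ Z) :
    ι ⟨eval x P, eval_mem hPZ hx⟩ = eval (fun i => ι ⟨x i, hx i⟩) P := by
  have h1 : (⟨eval x P, eval_mem hPZ hx⟩ : Z) = ∑ m ∈ P.support,
      (⟨P.coeff m, hPZ m⟩ : Z) * ∏ i ∈ m.support, (⟨x i, hx i⟩ : Z) ^ m i := by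
    apply Subtype.ext
    push_cast
    exact eval_eq _ _
  rw [h1, map_sum, eval_eq]
  refine Finset.sum_congr rfl fun m _ => ?_
  rw [map_mul, hP, map_prod]
  congr 1
  exact Finset.prod_congr rfl fun i _ => map_pow _ _ _

theorem itr_hom {Z : Subfield E} (ι : Z →+* E)
    {f : Fin (N + 1) → MvPolynomial (Fin (N + 1)) E} (hfZ : ∀ i m, (f i).coeff m ∈ Z)
    (hf : ∀ i m, ι ⟨(f i).coeff m, hfZ i m⟩ = (f i).coeff m) {x : Fin (N + 1) → E}
    (hx : ∀ i, x i ∈ Z) (n : ℕ) (i : Fin (N + 1)) :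
    ι ⟨itr f x n i, itr_mem hfZ hx n i⟩ = itr f (fun i => ι ⟨x i, hx i⟩) n i := by
  induction n generalizing i with
  | zero => rfl
  | succ n ih =>
    have h1 : (⟨itr f x (n + 1) i, itr_mem hfZ hx (n + 1) i⟩ : Z) =
        ⟨eval (itr f x n) (f i), eval_mem (hfZ i) (itr_mem hfZ hx n)⟩ := by
      apply Subtype.ext
      exact congrFun (itr_succ f x n) i
    rw [h1, eval_hom ι (hfZ i) (hf i) (itr_mem hfZ hx n), itr_succ]
    unfold stp
    congr 2
    funext j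
    exact ih j

theorem eval_smul_hom {P : MvPolynomial (Fin (N + 1)) E} {e : ℕ} (hP : P.IsHomogeneous e) (c : E)
    (x : Fin (N + 1) → E) : eval (c • x) P = c ^ e * eval x P := by
  rw [eval_eq, eval_eq, Finset.mul_sum]
  refine Finset.sum_congr rfl fun m hm => ?_
  have h1 : ∏ i ∈ m.support, (c • x) i ^ m i = c ^ e * ∏ i ∈ m.support, x i ^ m i := by
    simp only [Pi.smul_apply, smul_eq_mul, mul_pow]
    rw [Finset.prod_mul_distrib, Finset.prod_pow_eq_pow_sum]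
    congr 2
    exact (hP.degree_eq_sum_deg_support hm).symm
  rw [h1]
  ring

theorem stp_smul {F : Subfield E} {d : ℕ} {f : Fin (N + 1) → MvPolynomial (Fin (N + 1)) E}
    (hf : Endo F d f) (b : E) (x : Fin (N + 1) → E) : stp f (b • x) = b ^ d • stp f x := by
  funext i
  unfold stp
  rw [Pi.smul_apply, smul_eq_mul]
  exact eval_smul_hom (hf.hom i) b x

theorem itr_smul {F : Subfield E} {d : ℕ} {f : Fin (N + 1) → MvPolynomial (Fin (N + 1)) E}
    (hf : Endo F d f) (b : E) (x : Fin (N + 1) → E) (n : ℕ) :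
    itr f (b • x) n = b ^ d ^ n • itr f x n := by
  induction n with
  | zero => rw [itr_zero, itr_zero, pow_zero, pow_one]
  | succ n ih => rw [itr_succ, itr_succ, ih, stp_smul hf, ← pow_mul, pow_succ]

theorem Low.smul {F κ : Subfield E} {d : ℕ} {f : Fin (N + 1) → MvPolynomial (Fin (N + 1)) E}
    (hf : Endo F d f) {t : E} {x : Fin (N + 1) → E} (h : Low κ t f x) {b : E} (hb : b ≠ 0) :
    Low κ t f (b • x) := by
  obtain ⟨D, hD⟩ := h
  refine ⟨D, fun n i j hj => ?_⟩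
  have hb' : b ^ d ^ n ≠ 0 := pow_ne_zero _ hb
  rw [itr_smul hf] at hj ⊢
  rw [Pi.smul_apply, Pi.smul_apply, smul_eq_mul, smul_eq_mul, mul_div_mul_left _ _ hb']
  rw [Pi.smul_apply, smul_eq_mul] at hj
  exact hD n i j (right_ne_zero_of_mul hj)

end

end Pool.Agent.Helper72.NI
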